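import Pool.Agent.H70.LD.Leaves
import Pool.Agent.Helper91K9.DL.Link

/-!
# Statements of further leaves
-/

namespace Pool.Agent.H70.LD

open Finset Pool.Agent.Helper91K9.DL

/-- Leaf TW: the total weight of the terms that do not contain a found short term.  `g` is the event
that no term is satisfied. -/
def S_TW : Prop := ∀ (c : ℕ) (θ : ℝ), 0 < θ → ∃ K : ℝ, ∀ (n : ℕ) (ι : Type) (J : Finset ι)
  (T : ι → Finset (Fin n)) (b : ι → Cube n) (g : Cube n → Prop), Meets T J c →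
  (∀ x, g x → none T b J x) →
  (∀ i ∈ J, ∀ Q ⊆ T i, Q.card ≤ c → θ ≤ PP (fun x => g x ∧ agr Q (b i) x)) →
  ∑ i ∈ J, (1 / 2 : ℝ) ^ (T i).card ≤ K

open Classical in
/-- The heavy variables for the width `w`. -/
noncomputable def hv {n : ℕ} {ι : Type} (c : ℕ) (T : ι → Finset (Fin n)) (J : Finset ι) (w : ℕ) :
    Finset (Fin n) := univ.filter fun v => (1 / 2 : ℝ) ^ (w / (4 * (c + 2))) ≤ wv T J v

open Classical in
/-- Leaf BM: the weight of the terms with many heavy variables. -/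
def S_BM : Prop := ∀ (c a V : ℕ) (K : ℝ), 1 ≤ a → ∃ w₀ : ℕ, ∀ (n : ℕ) (ι : Type) (J : Finset ι)
  (T : ι → Finset (Fin n)) (R : Finset (Fin n)), Meets T J c →
  ∑ i ∈ J, (1 / 2 : ℝ) ^ (T i).card ≤ K → R.card ≤ V →
  ∑ i ∈ J.filter (fun i => w₀ < (T i).card ∧ c + 1 ≤ (T i ∩ (hv c T J (T i).card ∪ R)).card),
    (1 / 2 : ℝ) ^ (T i).card ≤ 1 / (8 * a)

/-- Leaf CLOSE: the short terms that are found by the algorithm. -/
def S_CLOSE : Prop := ∀ (n m W E M p a : ℕ) (F : List (List (ℕ × Bool))) (X : Fin m → Cube n)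
  (τ η : ℝ), (∀ t ∈ F, ∀ l ∈ t, l.1 < n) → 1 ≤ m → 1 ≤ a → 1 ≤ E → 0 ≤ τ →
  Good X (ff n F) τ → M = (2 * p * W + 1) ^ W →
  η + 2 ^ M * τ ≤ 1 / E → (1 - (1 / 2 : ℝ) ^ W) ^ p ≤ η →
  (M + 1) * (1 / E + 2 ^ M * τ) < 1 / (2 * a) →
  1 / (2 * (a : ℝ)) ≤ PP (fun x : Cube n => ¬ ff n F x) →
  (closure W E n m (negs (smp F X)) M).length ≤ M ∧
  (∀ R ∈ closure W E n m (negs (smp F X)) M, R.length ≤ W ∧ ∀ l ∈ R, l.1 < n) ∧
  PP (fun x : Cube n => ¬ ff n F x ∧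
    ∃ R ∈ closure W E n m (negs (smp F X)) M, satL (UU n R) x) ≤ M * (1 / E + 2 ^ M * τ) ∧
  (∀ U : Finset (Fin n × Bool), Con U → 1 ≤ U.card → U.card ≤ W →
    (∀ R ∈ closure W E n m (negs (smp F X)) M, ¬ UU n R ⊆ U) →
    1 / E - 2 ^ M * τ ≤ PP (fun x : Cube n => ¬ ff n F x ∧
      (∀ R ∈ closure W E n m (negs (smp F X)) M, ¬ satL (UU n R) x) ∧ satL U x)) ∧
  Good X (ff n (closure W E n m (negs (smp F X)) M ++ F)) (2 ^ M * τ)

end Pool.Agent.H70.LD
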