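import Pool.Agent.H70.LD.Hc
import Pool.Agent.H70.LD.Leaves2

/-!
# Leaf BM: the weight of the terms with many heavy variables
-/

namespace Pool.Agent.H70.LD

open Finset Pool.Agent.Helper91K9.DL

/-- The bound for the weight of the exceptional terms of width `w`. -/
noncomputable def bmg (q w : ℕ) : ℝ := (1 / 2) ^ (w / q)

theorem bmg_summable (q : ℕ) (hq : 1 ≤ q) : Summable (bmg q) := by
  have hq' : (1 : ℝ) ≤ q := by exact_mod_cast hq
  set r : ℝ := 1 - 1 / (2 * q) with hr
  have hr1 : r < 1 := by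
    have : 0 < 1 / (2 * (q : ℝ)) := by positivity
    linarith
  have hr0 : 1 / 2 ≤ r := by
    have : 1 / (2 * (q : ℝ)) ≤ 1 / 2 := by
      apply one_div_le_one_div_of_le <;> linarith
    linarith
  have hrq : 1 / 2 ≤ r ^ q := by
    have := one_add_mul_le_pow (a := -(1 / (2 * (q : ℝ)))) (by
      have : 1 / (2 * (q : ℝ)) ≤ 1 / 2 := by
        apply one_div_le_one_div_of_le <;> linarith
      linarith) q
    have e : 1 + (q : ℝ) * -(1 / (2 * (q : ℝ))) = 1 / 2 := by
      field_simp; norm_num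
    rw [e] at this
    rw [hr, sub_eq_add_neg]; exact this
  have hs := (summable_geometric_of_lt_one (by linarith : 0 ≤ r) hr1).mul_left 2
  refine hs.of_nonneg_of_le (fun w => by unfold bmg; positivity) fun w => ?_
  unfold bmg
  have h2 : (1 / 2 : ℝ) ^ (w / q) ≤ (r ^ q) ^ (w / q) := pow_le_pow_left₀ (by norm_num) hrq _
  have h3 : r ^ w = (r ^ q) ^ (w / q) * r ^ (w % q) := by
    rw [← pow_mul, ← pow_add, Nat.div_add_mod]
  have h4 : (1 / 2 : ℝ) ≤ r ^ (w % q) :=
    hrq.trans (pow_le_pow_of_le_one (by linarith) hr1.le (Nat.mod_lt _ hq).le)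
  have h5 : 0 ≤ (r ^ q) ^ (w / q) := by positivity
  nlinarith

theorem bm : S_BM := by
  classical
  intro c a V K ha
  obtain ⟨C, hC⟩ := hc c
  set q : ℕ := 4 * (c + 2) with hq
  have hsum := bmg_summable q (by omega)
  -- the exponent `k`
  obtain ⟨k₁, hk₁⟩ := pow_unbounded_of_one_lt K (one_lt_two : (1 : ℝ) < 2)
  obtain ⟨k₂, hk₂⟩ := pow_unbounded_of_one_lt V (one_lt_two : 1 < 2)
  set k := max k₁ k₂ with hk
  have hK : K ≤ 2 ^ k := hk₁.le.trans (pow_le_pow_right₀ (by norm_num) (le_max_left _ _))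
  have hV : V ≤ 2 ^ k := hk₂.le.trans (Nat.pow_le_pow_right (by norm_num) (le_max_right _ _))
  -- the tail
  have hpos : (0 : ℝ) < 1 / (8 * a) := by
    have : (1 : ℝ) ≤ a := by exact_mod_cast ha
    positivity
  have htail := tendsto_sum_nat_add (bmg q)
  obtain ⟨N, hN1, hN2⟩ := ((htail.eventually (gt_mem_nhds hpos)).and
    (Filter.eventually_ge_atTop (C * (k + 1) + 1))).exists
  obtain ⟨w₀, rfl⟩ : ∃ w₀, N = w₀ + 1 := ⟨N - 1, by omega⟩
  refine ⟨w₀, ?_⟩
  intro n ι J T R hM hJ hR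
  set Jc := J.filter (fun i => w₀ < (T i).card ∧ c + 1 ≤ (T i ∩ (hv c T J (T i).card ∪ R)).card)
    with hJc
  have hmap : ∀ i ∈ Jc, (T i).card - (w₀ + 1) ∈ range (n + 1) := by
    intro i _
    rw [mem_range]
    have := card_le_univ (T i)
    rw [Fintype.card_fin] at this
    omega
  rw [← sum_fiberwise_of_maps_to hmap]
  have h1 : ∀ j ∈ range (n + 1), ∑ i ∈ Jc.filter (fun i => (T i).card - (w₀ + 1) = j),
      (1 / 2 : ℝ) ^ (T i).card ≤ bmg q (j + (w₀ + 1)) := by
    intro j _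
    set w := j + (w₀ + 1) with hw
    set F := Jc.filter (fun i => (T i).card - (w₀ + 1) = j) with hF
    have hFi : ∀ i ∈ F, i ∈ J ∧ (T i).card = w ∧ c + 1 ≤ (T i ∩ (hv c T J w ∪ R)).card := by
      intro i hi
      rw [hF, mem_filter, hJc, mem_filter] at hi
      have h2 : (T i).card = w := by
        have := hi.1.2.1
        have := hi.2
        omega
      have h3 := hi.1.2.2
      rw [h2] at h3
      exact ⟨hi.1.1, h2, h3⟩
    have h4 := inj n ι F T (hv c T J w ∪ R) c
      (fun i hi j hj => hM i (hFi i hi).1 j (hFi j hj).1) fun i hi => (hFi i hi).2.2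
    have h5 := hC k w (by omega) n ι J T hM (hJ.trans hK)
    have h6 : F.card * 2 ^ (w / q) ≤ 2 ^ w := by
      refine le_trans (Nat.mul_le_mul_right _ (h4.trans ?_)) h5
      refine Nat.pow_le_pow_left ((card_union_le _ _).trans ?_) _
      exact Nat.add_le_add_left (hR.trans hV) _
    have h7 : (F.card : ℝ) * 2 ^ (w / q) ≤ 2 ^ w := by exact_mod_cast h6
    calc ∑ i ∈ F, (1 / 2 : ℝ) ^ (T i).card = ∑ _i ∈ F, (1 / 2 : ℝ) ^ w :=
          sum_congr rfl fun i hi => by rw [(hFi i hi).2.1]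
      _ = (F.card : ℝ) * (1 / 2 : ℝ) ^ w := by rw [sum_const, nsmul_eq_mul]
      _ ≤ (1 / 2 : ℝ) ^ (w / q) := by
          rw [one_div, inv_pow, inv_pow, ← div_eq_mul_inv, div_le_iff₀ (by positivity),
            inv_mul_eq_div, le_div_iff₀ (by positivity)]
          exact h7
      _ = bmg q w := rfl
  refine (sum_le_sum h1).trans ?_
  have h8 : Summable fun j => bmg q (j + (w₀ + 1)) := (summable_nat_add_iff (w₀ + 1)).2 hsum
  exact (h8.sum_le_tsum _ fun j _ => by unfold bmg; positivity).trans hN1.le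

end Pool.Agent.H70.LD
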