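import Pool.Agent.H70.LD.Ratio

/-!
# The candidate term of a term
-/

namespace Pool.Agent.H70.LD

open Finset Pool.Agent.Helper91K9.DL

variable {n m : ℕ}

/-- The variables of `S` as a list. -/
def vl (b : Cube n) (S : Finset (Fin n)) : List ℕ := (litsOf b S).map Prod.fst

theorem vl_eq (b : Cube n) (S : Finset (Fin n)) :
    vl b S = ((List.finRange n).filter fun v => decide (v ∈ S)).map Fin.val := by
  unfold vl litsOf
  induction List.finRange n with
  | nil => rfl
  | cons v l ih =>
    by_cases h : v ∈ S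
    · simp [h] at ih ⊢
      exact ih
    · simp [h] at ih ⊢
      exact ih

theorem mem_vl (b : Cube n) (S : Finset (Fin n)) (v : Fin n) : (v : ℕ) ∈ vl b S ↔ v ∈ S := by
  rw [vl_eq, List.mem_map]
  constructor
  · rintro ⟨w, hw, h⟩
    rw [← Fin.ext h]
    simpa using hw
  · intro h
    exact ⟨v, by simpa using h, rfl⟩

theorem vl_lt (b : Cube n) (S : Finset (Fin n)) : ∀ v ∈ vl b S, v < n := by
  intro v hv
  rw [vl_eq, List.mem_map] at hv
  obtain ⟨w, _, rfl⟩ := hv
  exact w.2

theorem vl_nodup (b : Cube n) (S : Finset (Fin n)) : (vl b S).Nodup := by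
  rw [vl_eq]
  exact ((List.nodup_finRange n).filter _).map Fin.val_injective

theorem SS_vl (b : Cube n) (S : Finset (Fin n)) : SS n (vl b S) = S := by
  ext v
  rw [mem_SS, mem_vl]

theorem SS_cons (b : Cube n) (S : Finset (Fin n)) (j : Fin n) :
    SS n ((j : ℕ) :: vl b S) = insert j S := by
  ext v
  rw [mem_SS, List.mem_cons, mem_vl, mem_insert, Fin.ext_iff]

theorem exists_sg (S : Finset (Fin n)) (b : Cube n) : ∃ a : Bool, sg a = - chi S b := by
  rcases chi_or S b with h | h
  · exact ⟨false, by rw [h]; simp [sg]⟩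
  · exact ⟨true, by rw [h]; simp [sg]⟩

theorem chi_insert (S : Finset (Fin n)) (b : Cube n) (j : Fin n) (hj : j ∉ S) :
    chi (insert j S) b = sg (b j) * chi S b := by
  unfold chi
  rw [prod_insert hj]
  rfl

/-- The candidate that belongs to a large enough subset `S` of the variables of a term with
variables `U`. -/
theorem cand_ok {ι : Type} (F : List (List (ℕ × Bool))) (X : Fin m → Cube n) (hm : 1 ≤ m)
    (T : ι → Finset (Fin n)) (a : ι → Cube n) (J : Finset ι) (U S : Finset (Fin n)) (b : Cube n)
    (hSU : S ⊆ U) (Q : Cube n → Prop) (hQ : Dep Q Sᶜ)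
    (hf : ∀ x, ff n F x ↔ agr U b x ∨ ¬ (none T a J x ∧ Q x)) (D : ℕ) (hD : 1 ≤ D) (τ : ℝ)
    (hτ : 0 ≤ τ) (hG : Good X (ff n F) τ)
    (hu : 0 < PP (fun x => agr U b x ∧ none T a J x ∧ Q x))
    (hν : 4 * D * (PP (ns T a J S) + τ) ≤ PP (fun x => agr U b x ∧ none T a J x ∧ Q x))
    (hj : ∀ j, j ∉ U →
      (PP (fun x => agr U b x ∧ none T a J x ∧ Q x) ≤
          2 * D * PP (fun x => (agr U b x ∧ x j = true) ∧ none T a J x ∧ Q x) ∧
        PP (fun x => agr U b x ∧ none T a J x ∧ Q x) ≤
          2 * D * PP (fun x => (agr U b x ∧ x j = false) ∧ none T a J x ∧ Q x)) ∨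
      ∃ a', ∀ x, agr U b x → Q x → x j = a') :
    (∀ l ∈ cand D n (negs (smp F X)) (litsOf b S), l.1 < n) ∧
    (∀ x, satL (UU n (cand D n (negs (smp F X)) (litsOf b S))) x → agr U b x) ∧
    (∀ x, agr U b x → Q x → satL (UU n (cand D n (negs (smp F X)) (litsOf b S))) x) := by
  set u := PP (fun x => agr U b x ∧ none T a J x ∧ Q x) with hudef
  set ν := PP (ns T a J S) with hνdef
  obtain ⟨s, hs⟩ := exists_sg S b
  have hc0 : |coef (ff n F) ∅ (SS n (vl b S)) - sg s * u| ≤ ν := by
    rw [SS_vl, hs]
    have := coef_sub T a J (ff n F) U S b hSU Q hQ hf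
    rw [neg_mul, sub_neg_eq_add]
    exact this
  have hpass : ∀ j : Fin n, j ∉ S → ∀ a' : Bool,
      |coef (ff n F) ∅ (insert j S) - sg (a' == s) * u| ≤ ν →
      tst D (negs (smp F X)) (vl b S) j = true ∧ sig (negs (smp F X)) (vl b S) j = a' := by
    intro j hjS a' h
    refine tst_pass F X hm D hD (vl b S) (vl_lt b S) (vl_nodup b S) j j.2
      (fun h' => hjS ((mem_vl b S j).1 h')) s a' u ν τ hu hτ hν hG hc0 ?_
    rw [SS_cons]
    exact h
  -- variables of `U`
  have hin : ∀ j ∈ U, j ∉ S → tst D (negs (smp F X)) (vl b S) j = true ∧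
      sig (negs (smp F X)) (vl b S) j = b j := by
    intro j hjU hjS
    refine hpass j hjS (b j) ?_
    have := coef_mem T a J (ff n F) U S b hSU Q hQ hf j hjU hjS
    rw [chi_insert S b j hjS] at this
    rw [sg_beq, hs]
    refine le_trans (le_of_eq ?_) this
    congr 1
    ring
  -- the other variables
  have hout : ∀ j, j ∉ U → tst D (negs (smp F X)) (vl b S) j = false ∨
      (tst D (negs (smp F X)) (vl b S) j = true ∧
        ∀ x, agr U b x → Q x → x j = sig (negs (smp F X)) (vl b S) j) := by
    intro j hjU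
    have hjS : j ∉ S := fun h => hjU (hSU h)
    have hco := coef_out T a J (ff n F) U S b hSU Q hQ hf j hjU
    set p1 := PP (fun x => (agr U b x ∧ x j = true) ∧ none T a J x ∧ Q x) with hp1
    set p0 := PP (fun x => (agr U b x ∧ x j = false) ∧ none T a J x ∧ Q x) with hp0
    have hsum : p0 + p1 = u := by
      have h1 := PP_and_not (fun x => agr U b x ∧ none T a J x ∧ Q x) (fun x => x j = true)
      have h2 : PP (fun x => (agr U b x ∧ none T a J x ∧ Q x) ∧ ¬ x j = true) = p0 := by
        refine PP_congr fun x => ?_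
        simp only [Bool.not_eq_true]
        tauto
      have h3 : PP (fun x => x j = true ∧ agr U b x ∧ none T a J x ∧ Q x) = p1 := by
        refine PP_congr fun x => ?_
        tauto
      rw [h2, h3] at h1
      linarith
    rcases hj j hjU with ⟨h1, h0⟩ | ⟨a', ha'⟩
    · left
      refine tst_fail F X hm D hD (vl b S) (vl_lt b S) (vl_nodup b S) j j.2
        (fun h' => hjS ((mem_vl b S j).1 h')) s u ν τ hu hτ hν hG hc0 ?_
      rw [SS_cons]
      have hD0 : (1 : ℝ) ≤ D := by exact_mod_cast hD
      have h4 : |coef (ff n F) ∅ (insert j S)| ≤ |p1 - p0| + ν := by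
        have h5 : |chi S b * (p1 - p0)| = |p1 - p0| := by
          rw [abs_mul]
          rcases chi_or S b with h | h <;> rw [h] <;> simp
        have h6 := abs_sub_abs_le_abs_sub (coef (ff n F) ∅ (insert j S))
          (-(chi S b * (p1 - p0)))
        rw [abs_neg, h5, sub_neg_eq_add] at h6
        linarith
      have h7 : D * |p1 - p0| ≤ (D - 1) * u := by
        have h8 : |p1 - p0| * D = |(p1 - p0) * D| := by
          rw [abs_mul, abs_of_nonneg (by linarith : (0 : ℝ) ≤ D)]
        rw [mul_comm, h8, abs_le]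
        constructor
        · nlinarith
        · nlinarith
      calc D * |coef (ff n F) ∅ (insert j S)| ≤ D * (|p1 - p0| + ν) :=
            mul_le_mul_of_nonneg_left h4 (by linarith)
        _ ≤ _ := by linarith
    · right
      have h4 : p1 - p0 = sg a' * u := by
        cases a' with
        | true =>
          have h5 : p0 = 0 := by
            have h6 : p0 ≤ PP (fun _ : Cube n => False) := PP_mono fun x hx => by
              have h7 := ha' x hx.1.1 hx.2.2
              rw [hx.1.2] at h7
              exact absurd h7 (by simp)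
            have h8 : PP (fun _ : Cube n => False) = 0 := by
              rw [PP_eq]; simp
            have h9 : 0 ≤ p0 := PP_nonneg _
            linarith
          simp [sg]
          linarith
        | false =>
          have h5 : p1 = 0 := by
            have h6 : p1 ≤ PP (fun _ : Cube n => False) := PP_mono fun x hx => by
              have h7 := ha' x hx.1.1 hx.2.2
              rw [hx.1.2] at h7
              exact absurd h7 (by simp)
            have h8 : PP (fun _ : Cube n => False) = 0 := by
              rw [PP_eq]; simp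
            have h9 : 0 ≤ p1 := PP_nonneg _
            linarith
          simp [sg]
          linarith
      obtain ⟨h5, h6⟩ := hpass j hjS a' (by
        rw [h4] at hco
        rw [sg_beq, hs]
        refine le_trans (le_of_eq ?_) hco
        congr 1
        ring)
      exact ⟨h5, fun x hx hxQ => by rw [h6]; exact ha' x hx hxQ⟩
  -- the candidate
  have hmem : ∀ l : ℕ × Bool, l ∈ cand D n (negs (smp F X)) (litsOf b S) ↔
      (∃ v ∈ S, ((v : ℕ), b v) = l) ∨ ∃ j : Fin n, tst D (negs (smp F X)) (vl b S) j = true ∧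
        ((j : ℕ), sig (negs (smp F X)) (vl b S) j) = l := by
    intro l
    unfold cand
    rw [List.mem_append, mem_litsOf, List.mem_map]
    refine or_congr Iff.rfl ?_
    constructor
    · rintro ⟨j, hj', rfl⟩
      rw [List.mem_filter, List.mem_range] at hj'
      exact ⟨⟨j, hj'.1⟩, hj'.2, rfl⟩
    · rintro ⟨j, hj', rfl⟩
      exact ⟨j, List.mem_filter.2 ⟨List.mem_range.2 j.2, hj'⟩, rfl⟩
  refine ⟨?_, ?_, ?_⟩
  · intro l hl
    rcases (hmem l).1 hl with ⟨v, _, rfl⟩ | ⟨j, _, rfl⟩
    · exact v.2
    · exact j.2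
  · intro x hx v hv
    by_cases hvS : v ∈ S
    · exact hx (v, b v) ((mem_UU _ _).2 ((hmem _).2 (Or.inl ⟨v, hvS, rfl⟩)))
    · obtain ⟨h1, h2⟩ := hin v hv hvS
      have := hx (v, b v) ((mem_UU _ _).2 ((hmem _).2 (Or.inr ⟨v, h1, by rw [h2]⟩)))
      exact this
  · intro x hx hxQ l hl
    rcases (hmem _).1 ((mem_UU _ _).1 hl) with ⟨v, hv, h⟩ | ⟨j, hj', h⟩
    · rw [Prod.mk.injEq] at h
      have e : v = l.1 := Fin.ext h.1
      subst e
      rw [← h.2]
      exact hx _ (hSU hv)
    · rw [Prod.mk.injEq] at h
      have e : j = l.1 := Fin.ext h.1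
      subst e
      rw [← h.2]
      by_cases hjU : l.1 ∈ U
      · by_cases hjS : l.1 ∈ S
        · exfalso
          unfold tst at hj'
          rw [Bool.and_eq_true, List.all_eq_true] at hj'
          have := hj'.1 _ ((mem_vl b S l.1).2 hjS)
          simp at this
        · rw [(hin _ hjU hjS).2]
          exact hx _ hjU
      · rcases hout _ hjU with h1 | h1
        · rw [h1] at hj'
          exact absurd hj' (by simp)
        · exact h1.2 x hx hxQ

end Pool.Agent.H70.LD
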