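import Pool.Agent.H70.LD.Leaves

/-!
# Leaf SUN
-/

namespace Pool.Agent.H70.LD

open Finset Pool.Agent.Helper91K9.DL

variable {n : ℕ}

/-- No variable occurs in both sets of literals. -/
def VDisj (A B : Finset (Fin n × Bool)) : Prop := ∀ l ∈ A, ∀ l' ∈ B, l.1 ≠ l'.1

theorem Con.mono {A B : Finset (Fin n × Bool)} (hB : Con B) (h : A ⊆ B) : Con A :=
  fun v hv => hB v ⟨h hv.1, h hv.2⟩

theorem PP_satL {U : Finset (Fin n × Bool)} (hU : Con U) : PP (satL U) = (1 / 2) ^ U.card := by
  classical
  have hinj : Set.InjOn Prod.fst (U : Set (Fin n × Bool)) := by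
    rintro ⟨v, b⟩ hv ⟨v', b'⟩ hv' h
    simp only at h
    subst h
    have := hU v
    rw [mem_coe] at hv hv'
    cases b <;> cases b'
    · rfl
    · exact absurd ⟨hv', hv⟩ this
    · exact absurd ⟨hv, hv'⟩ this
    · rfl
  have hc : (U.image Prod.fst).card = U.card := card_image_of_injOn hinj
  rw [← hc, ← PP_agr _ (fun v => decide ((v, true) ∈ U))]
  refine PP_congr fun x => ⟨?_, ?_⟩
  · intro h v hv
    obtain ⟨⟨w, b⟩, hl, rfl⟩ := mem_image.1 hv
    have h1 := h _ hl
    simp only at h1 ⊢
    rw [h1]
    cases b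
    · symm
      rw [decide_eq_false_iff_not]
      intro h2
      exact hU w ⟨h2, hl⟩
    · symm
      rw [decide_eq_true_iff]
      exact hl
  · intro h l hl
    have h1 := h l.1 (mem_image_of_mem _ hl)
    rw [h1]
    obtain ⟨w, b⟩ := l
    cases b
    · simp only
      rw [decide_eq_false_iff_not]
      intro h2
      exact hU w ⟨h2, hl⟩
    · simp only
      rw [decide_eq_true_iff]
      exact hl

/-- Disjoint petals: the probability that none is satisfied. -/
theorem PP_petals (W : ℕ) (f : Finset (Fin n × Bool) → Finset (Fin n × Bool))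
    (D : Finset (Finset (Fin n × Bool))) (hC : ∀ R ∈ D, Con (f R) ∧ (f R).card ≤ W)
    (hD : ∀ R ∈ D, ∀ R' ∈ D, R ≠ R' → VDisj (f R) (f R')) :
    PP (fun x => ∀ R ∈ D, ¬ satL (f R) x) ≤ (1 - (1 / 2 : ℝ) ^ W) ^ D.card := by
  classical
  induction D using Finset.induction_on with
  | empty => simpa using PP_le_one _
  | insert R D hR ih =>
    have ih' := ih (fun R' h => hC R' (mem_insert_of_mem h))
      (fun R' h R'' h' => hD R' (mem_insert_of_mem h) R'' (mem_insert_of_mem h'))
    have h1 := indep ((f R).image Prod.fst) (fun x : Cube n => ¬ satL (f R) x)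
      (fun x => ∀ R' ∈ D, ¬ satL (f R') x) (fun x y h => by
        have : satL (f R) x ↔ satL (f R) y :=
          forall₂_congr fun l hl => by rw [h _ (mem_image_of_mem _ hl)]
        rw [this]) (fun x y h => by
        refine forall₂_congr fun R' hR' => ?_
        have : satL (f R') x ↔ satL (f R') y :=
          forall₂_congr fun l hl => by
            rw [h l.1]
            intro hm
            obtain ⟨l', hl', he⟩ := mem_image.1 hm
            have hne : R ≠ R' := by rintro rfl; exact hR hR'
            exact hD R (mem_insert_self _ _) R' (mem_insert_of_mem hR') hne l' hl' l hl he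
        rw [this])
    have h2 : PP (fun x => ∀ R' ∈ insert R D, ¬ satL (f R') x) =
        PP (fun x => ¬ satL (f R) x ∧ ∀ R' ∈ D, ¬ satL (f R') x) :=
      PP_congr fun x => by simp
    have h3 : PP (fun x : Cube n => ¬ satL (f R) x) ≤ 1 - (1 / 2 : ℝ) ^ W := by
      have h4 := PP_and_not (n := n) (fun _ => True) (satL (f R))
      simp only [true_and, and_true] at h4
      rw [PP_true] at h4
      rw [h4]
      have h5 := (hC R (mem_insert_self _ _))
      have h6 : PP (fun x => satL (f R) x) = (1 / 2) ^ (f R).card := PP_satL h5.1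
      rw [h6]
      have h7 : (1 / 2 : ℝ) ^ W ≤ (1 / 2) ^ (f R).card :=
        pow_le_pow_of_le_one (by norm_num) (by norm_num) h5.2
      linarith
    rw [h2, h1, card_insert_of_notMem hR, pow_succ, mul_comm ((1 - (1 / 2 : ℝ) ^ W) ^ D.card)]
    exact mul_le_mul h3 ih' (PP_nonneg _) ((PP_nonneg _).trans h3)

/-- Sunflower counting. -/
theorem sun_count (W p : ℕ) (F : Finset (Finset (Fin n × Bool)))
    (hW : ∀ R ∈ F, R.card ≤ W)
    (hF : ∀ Y : Finset (Fin n × Bool), ∀ D ⊆ F, (∀ R ∈ D, Y ⊂ R) →
      (∀ R ∈ D, ∀ R' ∈ D, R ≠ R' → VDisj (R \ Y) (R' \ Y)) → D.card ≤ p) (m : ℕ) :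
    ∀ Y : Finset (Fin n × Bool), Y.card + m = W →
      (F.filter fun R => Y ⊆ R).card ≤ (2 * p * W + 1) ^ m := by
  classical
  induction m with
  | zero =>
    intro Y hY
    rw [pow_zero, card_le_one]
    intro a ha b hb
    rw [mem_filter] at ha hb
    have h1 : Y = a := eq_of_subset_of_card_le ha.2 (by have := hW a ha.1; omega)
    have h2 : Y = b := eq_of_subset_of_card_le hb.2 (by have := hW b hb.1; omega)
    rw [← h1, ← h2]
  | succ m ih =>
    intro Y hY
    -- a maximal family of disjoint petals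
    let Good : Finset (Finset (Finset (Fin n × Bool))) := F.powerset.filter fun D =>
      (∀ R ∈ D, Y ⊂ R) ∧ (∀ R ∈ D, ∀ R' ∈ D, R ≠ R' → VDisj (R \ Y) (R' \ Y))
    have hne : Good.Nonempty := ⟨∅, by simp [Good]⟩
    obtain ⟨D, hD, hmax⟩ := exists_max_image Good card hne
    have hD' := (mem_filter.1 hD)
    have hDF : D ⊆ F := mem_powerset.1 hD'.1
    have hDp : D.card ≤ p := hF Y D hDF hD'.2.1 hD'.2.2
    set V : Finset (Fin n) := D.biUnion fun R => (R \ Y).image Prod.fst with hV
    have hVc : V.card ≤ p * W := by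
      refine (card_biUnion_le_card_mul _ _ W fun R hR => ?_).trans (Nat.mul_le_mul_right _ hDp)
      exact card_image_le.trans ((card_le_card sdiff_subset).trans (hW R (hDF hR)))
    have hcov : (F.filter fun R => Y ⊆ R) ⊆ insert Y
        (((V ×ˢ (univ : Finset Bool)).filter fun l => l ∉ Y).biUnion
          fun l => F.filter fun R => insert l Y ⊆ R) := by
      intro R hR
      rw [mem_filter] at hR
      by_cases hRY : Y = R
      · rw [← hRY]; exact mem_insert_self _ _
      · refine mem_insert_of_mem ?_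
        have hss : Y ⊂ R := lt_of_le_of_ne hR.2 hRY
        -- some literal of R \ Y has its variable in V
        have : ∃ l ∈ R \ Y, l.1 ∈ V := by
          by_contra hno
          push Not at hno
          have hRD : R ∉ D := by
            intro hRD
            obtain ⟨l, hl, hlY⟩ := exists_of_ssubset hss
            refine hno l (mem_sdiff.2 ⟨hl, hlY⟩) ?_
            exact mem_biUnion.2 ⟨R, hRD, mem_image_of_mem _ (mem_sdiff.2 ⟨hl, hlY⟩)⟩
          have hG : insert R D ∈ Good := by
            refine mem_filter.2 ⟨mem_powerset.2 (insert_subset hR.1 hDF), ?_, ?_⟩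
            · intro R' hR'
              rcases mem_insert.1 hR' with rfl | h
              · exact hss
              · exact hD'.2.1 R' h
            · intro R₁ h₁ R₂ h₂ hne
              rcases mem_insert.1 h₁ with e₁ | h₁' <;> rcases mem_insert.1 h₂ with e₂ | h₂'
              · exact absurd (e₁.trans e₂.symm) hne
              · intro l hl l' hl' he
                rw [e₁] at hl
                exact hno l hl (mem_biUnion.2 ⟨R₂, h₂', mem_image.2 ⟨l', hl', he.symm⟩⟩)
              · intro l hl l' hl' he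
                rw [e₂] at hl'
                exact hno l' hl' (mem_biUnion.2 ⟨R₁, h₁', mem_image.2 ⟨l, hl, he⟩⟩)
              · exact hD'.2.2 R₁ h₁' R₂ h₂' hne
          have := hmax _ hG
          rw [card_insert_of_notMem hRD] at this
          omega
        obtain ⟨l, hl, hlV⟩ := this
        rw [mem_sdiff] at hl
        refine mem_biUnion.2 ⟨l, ?_, ?_⟩
        · rw [mem_filter, mem_product]
          exact ⟨⟨hlV, mem_univ _⟩, hl.2⟩
        · rw [mem_filter]
          exact ⟨hR.1, insert_subset hl.1 hR.2⟩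
    have h1 : (((V ×ˢ (univ : Finset Bool)).filter fun l => l ∉ Y).biUnion
          fun l => F.filter fun R => insert l Y ⊆ R).card ≤
        ((V ×ˢ (univ : Finset Bool)).filter fun l => l ∉ Y).card * (2 * p * W + 1) ^ m := by
      refine card_biUnion_le_card_mul _ _ _ fun l hl => ih _ ?_
      rw [card_insert_of_notMem (mem_filter.1 hl).2]
      omega
    have h2 : ((V ×ˢ (univ : Finset Bool)).filter fun l => l ∉ Y).card ≤ 2 * p * W := by
      refine (card_filter_le _ _).trans ?_
      rw [card_product, card_univ, Fintype.card_bool]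
      nlinarith
    have h3 : 1 ≤ (2 * p * W + 1) ^ m := Nat.one_le_pow _ _ (by omega)
    calc (F.filter fun R => Y ⊆ R).card ≤ _ := card_le_card hcov
      _ ≤ _ + 1 := card_insert_le _ _
      _ ≤ 2 * p * W * (2 * p * W + 1) ^ m + 1 :=
        Nat.add_le_add_right (h1.trans (Nat.mul_le_mul_right _ h2)) _
      _ ≤ (2 * p * W + 1) ^ (m + 1) := by rw [pow_succ]; nlinarith

theorem Chn.suffix {nr : List (Finset (Fin n × Bool)) → Finset (Fin n × Bool) → Prop}
    {A B : List (Finset (Fin n × Bool))} (h : Chn nr (A ++ B)) : Chn nr B := by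
  induction A with
  | nil => exact h
  | cons a A ih =>
    cases h with
    | cons U Rs h1 h2 h3 => exact ih h1

/-- The first member of a list with a property. -/
theorem first_mem {α : Type} (q : α → Prop) (L : List α) (h : ∃ x ∈ L, q x) :
    ∃ A x B, L = A ++ x :: B ∧ q x ∧ ∀ y ∈ A, ¬ q y := by
  classical
  induction L with
  | nil => obtain ⟨x, hx, _⟩ := h; simp at hx
  | cons a L ih =>
    by_cases ha : q a
    · exact ⟨[], a, L, rfl, ha, by simp⟩
    · obtain ⟨x, hx, hq⟩ := h
      have : ∃ x ∈ L, q x := by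
        rcases List.mem_cons.1 hx with rfl | hx
        · exact absurd hq ha
        · exact ⟨x, hx, hq⟩
      obtain ⟨A, y, B, h1, h2, h3⟩ := ih this
      refine ⟨a :: A, y, B, by rw [h1]; rfl, h2, ?_⟩
      intro z hz
      rcases List.mem_cons.1 hz with rfl | hz
      · exact ha
      · exact h3 z hz

theorem sun : S_SUN := by
  classical
  intro n W p g nr η h1 h2 h3 h4 Rs hRs
  by_contra hlen
  push Not at hlen
  set M := (2 * p * W + 1) ^ W with hM
  -- take the suffix of length M + 1
  obtain ⟨A, L, hAL, hL⟩ : ∃ A L, Rs = A ++ L ∧ L.length = M + 1 := by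
    refine ⟨Rs.take (Rs.length - (M + 1)), Rs.drop (Rs.length - (M + 1)),
      (List.take_append_drop _ _).symm, ?_⟩
    rw [List.length_drop]
    omega
  rw [hAL] at hRs
  have hC := hRs.suffix
  clear hRs hAL hlen
  -- properties of members
  have hprop : ∀ L', Chn nr L' → (∀ R ∈ L', Con R ∧ 1 ≤ R.card ∧ R.card ≤ W) ∧ L'.Nodup := by
    intro L' hL'
    induction hL' with
    | nil => simp
    | cons U Rs hc hn hm ih =>
      have := h1 Rs U hn
      refine ⟨?_, ?_⟩
      · intro R hR
        rcases List.mem_cons.1 hR with rfl | hR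
        · exact ⟨this.1, this.2.1, this.2.2.1⟩
        · exact ih.1 R hR
      · rw [List.nodup_cons]
        exact ⟨fun hU => this.2.2.2 U hU Subset.rfl, ih.2⟩
  obtain ⟨hp1, hp2⟩ := hprop L hC
  set F := L.toFinset with hF
  have hFc : F.card = M + 1 := by rw [hF, List.toFinset_card_of_nodup hp2, hL]
  have hbig : ¬ ∀ Y : Finset (Fin n × Bool), ∀ D ⊆ F, (∀ R ∈ D, Y ⊂ R) →
      (∀ R ∈ D, ∀ R' ∈ D, R ≠ R' → VDisj (R \ Y) (R' \ Y)) → D.card ≤ p := by
    intro hall
    have := sun_count W p F (fun R hR => (hp1 R (List.mem_toFinset.1 hR)).2.2) hall W ∅ (by simp)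
    rw [filter_true_of_mem (fun _ _ => empty_subset _), hFc] at this
    omega
  push Not at hbig
  obtain ⟨Y, D, hDF, hDY, hDd, hDc⟩ := hbig
  -- the last added member of D
  have hex : ∃ x ∈ L, x ∈ D := by
    obtain ⟨x, hx⟩ := card_pos.1 (by omega : 0 < D.card)
    exact ⟨x, List.mem_toFinset.1 (hDF hx), hx⟩
  obtain ⟨A', R, B, hLe, hRD, hA'⟩ := first_mem (fun x => x ∈ D) L hex
  rw [hLe] at hC
  have hCR := hC.suffix
  have hBlen : B.length ≤ M := by
    have := congrArg List.length hLe
    rw [List.length_append, List.length_cons, hL] at this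
    omega
  cases hCR with
  | cons _ _ hCB hnR hmin =>
  have hothers : ∀ R' ∈ D.erase R, R' ∈ B := by
    intro R' hR'
    rw [mem_erase] at hR'
    have : R' ∈ L := List.mem_toFinset.1 (hDF hR'.2)
    rw [hLe, List.mem_append, List.mem_cons] at this
    rcases this with h | h | h
    · exact absurd hR'.2 (hA' _ h)
    · exact absurd h hR'.1
    · exact h
  have hprob : PP (fun x => g x ∧ outs B x ∧ satL Y x) ≤ η := by
    have e1 : PP (fun x => g x ∧ outs B x ∧ satL Y x) ≤
        PP (fun x => ∀ R' ∈ D.erase R, ¬ satL (R' \ Y) x) := by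
      refine PP_mono fun x hx R' hR' hs => ?_
      refine hx.2.1 R' (hothers R' hR') ?_
      intro l hl
      by_cases hlY : l ∈ Y
      · exact hx.2.2 l hlY
      · exact hs l (mem_sdiff.2 ⟨hl, hlY⟩)
    have e2 := PP_petals W (fun R' => R' \ Y) (D.erase R) (fun R' hR' => by
        have := hp1 R' (List.mem_toFinset.1 (hDF (mem_of_mem_erase hR')))
        exact ⟨this.1.mono sdiff_subset, (card_le_card sdiff_subset).trans this.2.2⟩)
      (fun R₁ h₁ R₂ h₂ hne => hDd R₁ (mem_of_mem_erase h₁) R₂ (mem_of_mem_erase h₂) hne)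
    have e3 : (1 - (1 / 2 : ℝ) ^ W) ^ (D.erase R).card ≤ (1 - (1 / 2 : ℝ) ^ W) ^ p := by
      refine pow_le_pow_of_le_one ?_ ?_ ?_
      · have : (1 / 2 : ℝ) ^ W ≤ 1 := pow_le_one₀ (by norm_num) (by norm_num)
        linarith
      · have : (0 : ℝ) ≤ (1 / 2) ^ W := by positivity
        linarith
      · rw [card_erase_of_mem hRD]
        omega
    exact e1.trans (e2.trans (e3.trans h4))
  have hR1 := h1 B R hnR
  by_cases hY : Y = ∅
  · have h5 := h3 B hCB hBlen
    have h6 : PP (fun x => g x ∧ outs B x ∧ satL Y x) = PP (fun x => g x ∧ outs B x) :=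
      PP_congr fun x => by
        rw [hY]
        simp [satL]
    rw [h6] at hprob
    linarith
  · have hYR := hDY R hRD
    have hn : nr B Y := by
      refine h2 B Y (hR1.1.mono hYR.1) (card_pos.2 (nonempty_iff_ne_empty.2 hY))
        ((card_le_card hYR.1).trans hR1.2.2.1) ?_ hprob
      intro R' hR' hsub
      exact hR1.2.2.2 R' hR' (hsub.trans hYR.1)
    have := hmin Y hn
    have := card_lt_card hYR
    omega

end Pool.Agent.H70.LD
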