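import Pool.Agent.H70.LD.Leaves2
import Pool.Agent.H70.LD.Sun
import Pool.Agent.H70.LD.Frame

/-!
# The short terms that are found by the algorithm
-/

namespace Pool.Agent.H70.LD

open Finset Pool.Agent.Helper91K9.DL

variable {n m : ℕ}

/-! ### Good samples -/

theorem good_or (X : Fin m → Cube n) (f : Cube n → Prop) (V : Finset (Fin n × Bool)) (t : ℝ)
    (h : Good X f t) : Good X (fun x => satL V x ∨ f x) (2 * t) := by
  classical
  intro U S
  have hw : ∀ x, wt (fun x => satL V x ∨ f x) U S x = wt f U S x - wt f (U ∪ V) S x := by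
    intro x
    have hs : satL (U ∪ V) x ↔ satL U x ∧ satL V x := by
      unfold satL
      constructor
      · intro hx
        exact ⟨fun l hl => hx l (mem_union_left _ hl), fun l hl => hx l (mem_union_right _ hl)⟩
      · rintro ⟨h1, h2⟩ l hl
        rcases mem_union.1 hl with hl | hl
        · exact h1 l hl
        · exact h2 l hl
    unfold wt
    by_cases h1 : f x <;> by_cases h2 : satL V x <;> by_cases h3 : satL U x <;>
      simp [h1, h2, h3, hs]
  have h1 : stat X (fun x => satL V x ∨ f x) U S = stat X f U S - stat X f (U ∪ V) S := by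
    unfold stat
    rw [← sum_sub_distrib]
    exact sum_congr rfl fun j _ => hw _
  have h2 : coef (fun x => satL V x ∨ f x) U S = coef f U S - coef f (U ∪ V) S := by
    unfold coef
    rw [← sub_div, ← sum_sub_distrib]
    congr 1
    exact sum_congr rfl fun j _ => hw _
  rw [h1, h2]
  have h3 := h U S
  have h4 := h (U ∪ V) S
  rw [abs_le] at h3 h4 ⊢
  constructor <;> nlinarith [h3.1, h3.2, h4.1, h4.2]

theorem good_congr (X : Fin m → Cube n) (f g : Cube n → Prop) (t : ℝ) (h : ∀ x, f x ↔ g x)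
    (hG : Good X f t) : Good X g t := by
  have : f = g := funext fun x => propext (h x)
  rw [← this]; exact hG

theorem good_mono (X : Fin m → Cube n) (f : Cube n → Prop) (t t' : ℝ) (h : t ≤ t')
    (hG : Good X f t) : Good X f t' := fun U S =>
  (hG U S).trans (mul_le_mul_of_nonneg_left h (Nat.cast_nonneg m))

theorem ffc_cons (R : List (ℕ × Bool)) (hR : ∀ l ∈ R, l.1 < n) (F : List (List (ℕ × Bool)))
    (x : Cube n) : ff n (R :: F) x ↔ satL (UU n R) x ∨ ff n F x := by
  unfold ff dnfVal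
  rw [List.any_cons, Bool.or_eq_true, termVal_iff R hR]

theorem ffc_append (Rs F : List (List (ℕ × Bool))) (hR : ∀ R ∈ Rs, ∀ l ∈ R, l.1 < n)
    (x : Cube n) : ff n (Rs ++ F) x ↔ (∃ R ∈ Rs, satL (UU n R) x) ∨ ff n F x := by
  induction Rs with
  | nil => simp
  | cons R Rs ih =>
    rw [List.cons_append, ffc_cons R (hR R (List.mem_cons_self ..)),
      ih fun R' hR' => hR R' (List.mem_cons_of_mem _ hR')]
    simp only [List.mem_cons, exists_eq_or_imp]
    exact or_assoc.symm

theorem good_append (X : Fin m → Cube n) (F : List (List (ℕ × Bool))) (t : ℝ)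
    (hG : Good X (ff n F) t) (Rs : List (List (ℕ × Bool))) (hR : ∀ R ∈ Rs, ∀ l ∈ R, l.1 < n) :
    Good X (ff n (Rs ++ F)) (2 ^ Rs.length * t) := by
  induction Rs with
  | nil => simpa using hG
  | cons R Rs ih =>
    have h1 := ih fun R' hR' => hR R' (List.mem_cons_of_mem _ hR')
    have h2 := good_or X _ (UU n R) _ h1
    have h3 := good_congr X _ (ff n (R :: Rs ++ F)) _ (fun x => by
      rw [List.cons_append, ffc_cons R (hR R (List.mem_cons_self ..))]) h2
    convert h3 using 1
    rw [List.length_cons, pow_succ]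
    ring

/-! ### The number of examples -/

open Classical in
/-- The number of the examples with `¬ f`, no member of the list satisfied and `U` satisfied. -/
noncomputable def emp (X : Fin m → Cube n) (f : Cube n → Prop)
    (Rs : List (Finset (Fin n × Bool))) (U : Finset (Fin n × Bool)) : ℕ :=
  (univ.filter fun j => ¬ f (X j) ∧ outs Rs (X j) ∧ satL U (X j)).card

theorem exists_lists (Rs : List (Finset (Fin n × Bool))) : ∃ Ls : List (List (ℕ × Bool)),
    (∀ R ∈ Ls, ∀ l ∈ R, l.1 < n) ∧ Ls.map (UU n) = Rs := by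
  induction Rs with
  | nil => exact ⟨[], by simp, rfl⟩
  | cons R Rs ih =>
    obtain ⟨Ls, h1, h2⟩ := ih
    obtain ⟨ρ, _, h3, h4⟩ := exists_list R
    refine ⟨ρ :: Ls, ?_, by rw [List.map_cons, h2, h4]⟩
    intro R' hR'
    rcases List.mem_cons.1 hR' with rfl | h
    · exact h3
    · exact h1 R' h

theorem outs_map (Ls : List (List (ℕ × Bool))) (x : Cube n) :
    outs (Ls.map (UU n)) x ↔ ∀ R ∈ Ls, ¬ satL (UU n R) x := by
  unfold outs
  constructor
  · intro h R hR
    exact h _ (List.mem_map.2 ⟨R, hR, rfl⟩)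
  · intro h R hR
    obtain ⟨R', hR', rfl⟩ := List.mem_map.1 hR
    exact h R' hR'

theorem emp_bound (X : Fin m → Cube n) (F : List (List (ℕ × Bool))) (τ : ℝ) (hτ : 0 ≤ τ)
    (hG : Good X (ff n F) τ) (M : ℕ) (Rs : List (Finset (Fin n × Bool))) (hM : Rs.length ≤ M)
    (U : Finset (Fin n × Bool)) :
    |(emp X (ff n F) Rs U : ℝ) - m * PP (fun x => ¬ ff n F x ∧ outs Rs x ∧ satL U x)| ≤
      m * (2 ^ M * τ) := by
  classical
  obtain ⟨Ls, hL, rfl⟩ := exists_lists Rs
  have h1 := good_append X F τ hG Ls hL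
  have h2 := good_mono X _ _ (2 ^ M * τ) (mul_le_mul_of_nonneg_right
    (pow_le_pow_right₀ (by norm_num) (by simpa using hM)) hτ) h1
  have h3 := h2 U ∅
  rw [coef_empty, stat_empty] at h3
  have h4 : ∀ x, (¬ ff n (Ls ++ F) x ∧ satL U x) ↔
      (¬ ff n F x ∧ outs (Ls.map (UU n)) x ∧ satL U x) := by
    intro x
    rw [ffc_append Ls F hL, outs_map]
    push Not
    tauto
  have h5 : emp X (ff n F) (Ls.map (UU n)) U =
      (univ.filter fun j => ¬ ff n (Ls ++ F) (X j) ∧ satL U (X j)).card := by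
    unfold emp
    congr 1
    ext j
    simp only [mem_filter, mem_univ, true_and]
    exact (h4 (X j)).symm
  have h6 : PP (fun x => ¬ ff n (Ls ++ F) x ∧ satL U x) =
      PP (fun x => ¬ ff n F x ∧ outs (Ls.map (UU n)) x ∧ satL U x) :=
    PP_congr fun x => h4 x
  rw [h5, ← h6]
  convert h3 using 5
  ext j
  simp only [mem_filter]

/-- The relation. -/
def nrl (X : Fin m → Cube n) (f : Cube n → Prop) (W E M : ℕ)
    (Rs : List (Finset (Fin n × Bool))) (U : Finset (Fin n × Bool)) : Prop :=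
  Con U ∧ 1 ≤ U.card ∧ U.card ≤ W ∧ (∀ R ∈ Rs, ¬ R ⊆ U) ∧
    (Rs.length ≤ M → E * emp X f Rs U ≤ m)

theorem outs_cons (U : Finset (Fin n × Bool)) (Rs : List (Finset (Fin n × Bool))) (x : Cube n) :
    outs (U :: Rs) x ↔ ¬ satL U x ∧ outs Rs x := by
  unfold outs
  simp

/-- Few points with `¬ f` satisfy a member of the list. -/
theorem chn_loss (X : Fin m → Cube n) (F : List (List (ℕ × Bool))) (τ : ℝ) (hτ : 0 ≤ τ)
    (hG : Good X (ff n F) τ) (hm : 1 ≤ m) (W E M : ℕ) (hE : 1 ≤ E)
    (Rs : List (Finset (Fin n × Bool))) (hc : Chn (nrl X (ff n F) W E M) Rs)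
    (hM : Rs.length ≤ M) :
    PP (fun x => ¬ ff n F x ∧ ¬ outs Rs x) ≤ Rs.length * (1 / E + 2 ^ M * τ) := by
  have hm0 : (0 : ℝ) < m := by exact_mod_cast (by omega : 0 < m)
  have hE0 : (0 : ℝ) < E := by exact_mod_cast (by omega : 0 < E)
  induction hc with
  | nil =>
    have : PP (fun x : Cube n => ¬ ff n F x ∧ ¬ outs [] x) = 0 := by
      rw [show (0 : ℝ) = PP (fun _ : Cube n => False) by unfold PP; simp]
      refine PP_congr fun x => ?_
      simp [outs]
    rw [this]
    simp
  | cons U Rs hc hn hmin ih =>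
    rw [List.length_cons] at hM
    have h1 := ih (by omega)
    have h2 := hn.2.2.2.2 (by omega)
    have h3 := emp_bound X F τ hτ hG M Rs (by omega) U
    rw [abs_le] at h3
    have h4 : (E : ℝ) * emp X (ff n F) Rs U ≤ m := by exact_mod_cast h2
    have h5 : (emp X (ff n F) Rs U : ℝ) ≤ m * (1 / E) := by
      rw [mul_one_div, le_div_iff₀ hE0]
      linarith
    have h6 : PP (fun x => ¬ ff n F x ∧ outs Rs x ∧ satL U x) ≤ 1 / E + 2 ^ M * τ := by
      have : (m : ℝ) * PP (fun x => ¬ ff n F x ∧ outs Rs x ∧ satL U x) ≤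
          m * (1 / E + 2 ^ M * τ) := by
        rw [mul_add]
        linarith [h3.1]
      exact le_of_mul_le_mul_left this hm0
    calc PP (fun x => ¬ ff n F x ∧ ¬ outs (U :: Rs) x)
        ≤ PP (fun x => (¬ ff n F x ∧ ¬ outs Rs x) ∨ (¬ ff n F x ∧ outs Rs x ∧ satL U x)) := by
          refine PP_mono fun x hx => ?_
          rw [outs_cons] at hx
          tauto
      _ ≤ _ := PP_or_le _ _
      _ ≤ Rs.length * (1 / E + 2 ^ M * τ) + (1 / E + 2 ^ M * τ) := add_le_add h1 h6
      _ = _ := by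
        rw [List.length_cons]
        push_cast
        ring

/-! ### The head of the list of the short terms -/

theorem length_le_of_mem_parts {r : ℕ} {ρ : List (ℕ × Bool)} (h : ρ ∈ parts n r) :
    ρ.length ≤ r := by
  induction r generalizing ρ with
  | zero =>
    simp only [parts, List.mem_singleton] at h
    simp [h]
  | succ r ih =>
    rw [parts, List.mem_append] at h
    rcases h with h | h
    · exact (ih h).trans (by omega)
    · obtain ⟨ρ', h1, h2⟩ := List.mem_flatMap.1 h
      obtain ⟨l, _, rfl⟩ := List.mem_map.1 h2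
      have := ih h1
      rw [List.length_cons]
      omega

theorem parts_head (p : List (ℕ × Bool) → Bool) (W : ℕ) (U : List (ℕ × Bool))
    (hU : ((parts n W).filter p).head? = some U) :
    ∀ ρ ∈ parts n W, p ρ = true → U.length ≤ ρ.length := by
  induction W with
  | zero =>
    intro ρ hρ _
    have h1 : U ∈ (parts n 0).filter p := List.mem_of_mem_head? hU
    have h2 := (List.mem_filter.1 h1).1
    simp only [parts, List.mem_singleton] at h2 hρ
    rw [h2, hρ]
  | succ W ih =>
    intro ρ hρ hp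
    have hlen : ∀ ρ' ∈ parts n (W + 1), ρ'.length ≤ W + 1 := by
      intro ρ' h
      exact length_le_of_mem_parts h
    by_cases hne : (parts n W).filter p = []
    · have h1 : U ∈ (parts n (W + 1)).filter p := List.mem_of_mem_head? hU
      have h2 := hlen U (List.mem_filter.1 h1).1
      by_contra hcon
      push Not at hcon
      have h3 : ρ ∈ parts n W := mem_parts (by omega) (parts_vars hρ)
      have h4 : ρ ∈ (parts n W).filter p := List.mem_filter.2 ⟨h3, hp⟩
      rw [hne] at h4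
      exact absurd h4 (by simp)
    · have h0 : (parts n (W + 1)).filter p = (parts n W).filter p ++
          ((parts n W).flatMap fun ρ => (lits n).map (· :: ρ)).filter p := by
        rw [parts, List.filter_append]
      have h1 : ((parts n W).filter p).head? = some U := by
        rw [h0, List.head?_append_of_ne_nil _ hne] at hU
        exact hU
      have h2 : U ∈ (parts n W).filter p := List.mem_of_mem_head? h1
      have h3 : U.length ≤ W := length_le_of_mem_parts (List.mem_filter.1 h2).1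
      by_cases hρW : ρ.length ≤ W
      · exact ih h1 ρ (mem_parts hρW (parts_vars hρ)) hp
      · omega

theorem cons_iff (U : List (ℕ × Bool)) (hU : ∀ l ∈ U, l.1 < n) :
    cons U = true ↔ Con (UU n U) := by
  unfold cons Con
  rw [List.all_eq_true]
  constructor
  · rintro h v ⟨h1, h2⟩
    have h3 := h _ ((mem_UU _ _).1 h1)
    rw [Bool.not_eq_true', List.contains_eq_mem, decide_eq_false_iff_not] at h3
    exact h3 ((mem_UU _ _).1 h2)
  · rintro h ⟨v, s⟩ hl
    rw [Bool.not_eq_true', List.contains_eq_mem, decide_eq_false_iff_not]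
    intro hl'
    have hv : v < n := hU _ hl
    refine h ⟨v, hv⟩ ?_
    cases s
    · exact ⟨(mem_UU _ _).2 hl', (mem_UU _ _).2 hl⟩
    · exact ⟨(mem_UU _ _).2 hl, (mem_UU _ _).2 hl'⟩

theorem sub_iff (R U : List (ℕ × Bool)) (hR : ∀ l ∈ R, l.1 < n) :
    (R.all fun l => U.contains l) = true ↔ UU n R ⊆ UU n U := by
  rw [List.all_eq_true]
  constructor
  · intro h l hl
    have := h _ ((mem_UU _ _).1 hl)
    rw [List.contains_eq_mem, decide_eq_true_iff] at this
    exact (mem_UU _ _).2 this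
  · rintro h ⟨v, s⟩ hl
    rw [List.contains_eq_mem, decide_eq_true_iff]
    have hv : v < n := hR _ hl
    exact (mem_UU U (⟨v, hv⟩, s)).1 (h ((mem_UU R (⟨v, hv⟩, s)).2 hl))

theorem card_UU_le (U : List (ℕ × Bool)) : (UU n U).card ≤ U.length := by
  classical
  refine le_trans ?_ (List.toFinset_card_le U)
  refine card_le_card_of_injOn (fun l : Fin n × Bool => ((l.1 : ℕ), l.2)) ?_ ?_
  · intro l hl
    rw [mem_coe, List.mem_toFinset]
    exact (mem_UU _ _).1 (mem_coe.1 hl)
  · intro l _ l' _ h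
    simp only [Prod.mk.injEq] at h
    exact Prod.ext (Fin.ext h.1) h.2

theorem near_iff (X : Fin m → Cube n) (F : List (List (ℕ × Bool))) (E : ℕ)
    (Rs : List (List (ℕ × Bool))) (hRs : ∀ R ∈ Rs, ∀ l ∈ R, l.1 < n) (U : List (ℕ × Bool))
    (hU : ∀ l ∈ U, l.1 < n) :
    near E m (negs (smp F X)) Rs U = true ↔ Con (UU n U) ∧
      (∀ R ∈ Rs.map (UU n), ¬ R ⊆ UU n U) ∧ E * emp X (ff n F) (Rs.map (UU n)) (UU n U) ≤ m := by
  classical
  have h1 : ((rest (negs (smp F X)) Rs).filter fun x => termVal U x).length =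
      emp X (ff n F) (Rs.map (UU n)) (UU n U) := by
    rw [rest_eq]
    have h2 := negs_filter (Rs ++ F) X (fun x => termVal U x)
    rw [h2]
    unfold emp
    congr 1
    ext j
    simp only [mem_filter, mem_univ, true_and]
    rw [termVal_iff U hU, ffc_append Rs F hRs, outs_map]
    push Not
    tauto
  unfold near
  rw [Bool.and_eq_true, Bool.and_eq_true, decide_eq_true_iff, h1, cons_iff U hU]
  refine and_congr_right fun _ => and_congr_left fun _ => ?_
  rw [List.all_eq_true]
  constructor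
  · intro h R hR
    obtain ⟨R', hR', rfl⟩ := List.mem_map.1 hR
    have h3 := h R' hR'
    rw [Bool.not_eq_true', ← Bool.not_eq_true, sub_iff R' U (hRs R' hR')] at h3
    exact h3
  · intro h R' hR'
    rw [Bool.not_eq_true', ← Bool.not_eq_true, sub_iff R' U (hRs R' hR')]
    exact h _ (List.mem_map.2 ⟨R', hR', rfl⟩)

/-- The numbers. -/
structure Num (n m W E M p a : ℕ) (F : List (List (ℕ × Bool))) (X : Fin m → Cube n)
    (τ η : ℝ) : Prop where
  hm : 1 ≤ m
  hE : 1 ≤ E
  hτ : 0 ≤ τ
  hG : Good X (ff n F) τ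
  hM : M = (2 * p * W + 1) ^ W
  hη : η + 2 ^ M * τ ≤ 1 / E
  hp : (1 - (1 / 2 : ℝ) ^ W) ^ p ≤ η
  ha : (M + 1) * (1 / E + 2 ^ M * τ) < 1 / (2 * a)
  hf : 1 / (2 * (a : ℝ)) ≤ PP (fun x : Cube n => ¬ ff n F x)

variable {W E M p a : ℕ} {F : List (List (ℕ × Bool))} {X : Fin m → Cube n} {τ η : ℝ}

/-- Many points remain. -/
theorem Num.remain (H : Num n m W E M p a F X τ η) (Rs : List (Finset (Fin n × Bool)))
    (hc : Chn (nrl X (ff n F) W E M) Rs) (hl : Rs.length ≤ M) :
    1 / E + 2 ^ M * τ < PP (fun x => ¬ ff n F x ∧ outs Rs x) := by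
  have hE0 : (0 : ℝ) < E := by exact_mod_cast (by have := H.hE; omega : 0 < E)
  have h1 := chn_loss X F τ H.hτ H.hG H.hm W E M H.hE Rs hc hl
  have h2 : PP (fun x : Cube n => ¬ ff n F x) ≤ PP (fun x => ¬ ff n F x ∧ outs Rs x) +
      PP (fun x => ¬ ff n F x ∧ ¬ outs Rs x) := by
    refine le_trans (PP_mono fun x hx => ?_) (PP_or_le _ _)
    tauto
  have h3 : (0 : ℝ) ≤ 1 / E + 2 ^ M * τ := by
    have := H.hτ
    positivity
  have h4 : (Rs.length : ℝ) * (1 / E + 2 ^ M * τ) ≤ M * (1 / E + 2 ^ M * τ) :=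
    mul_le_mul_of_nonneg_right (by exact_mod_cast hl) h3
  have h5 := H.ha
  have h6 := H.hf
  rw [add_mul, one_mul] at h5
  linarith

/-- Chains are short. -/
theorem Num.short (H : Num n m W E M p a F X τ η) (Rs : List (Finset (Fin n × Bool)))
    (hc : Chn (nrl X (ff n F) W E M) Rs) : Rs.length ≤ M := by
  have hm0 : (0 : ℝ) < m := by exact_mod_cast (by have := H.hm; omega : 0 < m)
  have hE0 : (0 : ℝ) < E := by exact_mod_cast (by have := H.hE; omega : 0 < E)
  have h := sun n W p (fun x => ¬ ff n F x) (nrl X (ff n F) W E M) η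
    (fun Rs U h => ⟨h.1, h.2.1, h.2.2.1, h.2.2.2.1⟩) ?_ ?_ H.hp Rs hc
  · rw [H.hM]; exact h
  · intro Rs U h1 h2 h3 h4 h5
    refine ⟨h1, h2, h3, h4, fun hl => ?_⟩
    have h6 := emp_bound X F τ H.hτ H.hG M Rs hl U
    rw [abs_le] at h6
    have h7 : (emp X (ff n F) Rs U : ℝ) ≤ m * (η + 2 ^ M * τ) := by
      have := mul_le_mul_of_nonneg_left h5 hm0.le
      rw [mul_add]
      linarith [h6.2]
    have h8 : (emp X (ff n F) Rs U : ℝ) ≤ m * (1 / E) :=
      h7.trans (mul_le_mul_of_nonneg_left H.hη hm0.le)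
    rw [mul_one_div, le_div_iff₀ hE0] at h8
    have h9 : (E : ℝ) * emp X (ff n F) Rs U ≤ m := by linarith
    exact_mod_cast h9
  · intro Rs hc hl
    rw [← H.hM] at hl
    have h1 := H.remain Rs hc hl
    have h2 := H.hη
    have h3 : 0 ≤ 2 ^ M * τ := mul_nonneg (by positivity) H.hτ
    linarith

/-- The condition for a further term. -/
theorem Num.near_nrl (H : Num n m W E M p a F X τ η) (Rs : List (List (ℕ × Bool)))
    (hRs : ∀ R ∈ Rs, ∀ l ∈ R, l.1 < n) (hl : Rs.length ≤ M)
    (hc : Chn (nrl X (ff n F) W E M) (Rs.map (UU n))) (U : List (ℕ × Bool))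
    (hU : ∀ l ∈ U, l.1 < n) (hUW : U.length ≤ W)
    (hn : near E m (negs (smp F X)) Rs U = true) :
    nrl X (ff n F) W E M (Rs.map (UU n)) (UU n U) := by
  classical
  have hm0 : (0 : ℝ) < m := by exact_mod_cast (by have := H.hm; omega : 0 < m)
  have hE0 : (0 : ℝ) < E := by exact_mod_cast (by have := H.hE; omega : 0 < E)
  obtain ⟨h1, h2, h3⟩ := (near_iff X F E Rs hRs U hU).1 hn
  refine ⟨h1, ?_, (card_UU_le U).trans hUW, h2, fun _ => h3⟩
  rw [Nat.one_le_iff_ne_zero]
  intro h0
  rw [card_eq_zero] at h0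
  have h4 := H.remain _ hc (by simpa using hl)
  have h5 := emp_bound X F τ H.hτ H.hG M (Rs.map (UU n)) (by simpa using hl) (UU n U)
  rw [abs_le] at h5
  have h6 : PP (fun x => ¬ ff n F x ∧ outs (Rs.map (UU n)) x ∧ satL (UU n U) x) =
      PP (fun x => ¬ ff n F x ∧ outs (Rs.map (UU n)) x) := by
    refine PP_congr fun x => ?_
    rw [h0]
    simp [satL]
  rw [h6] at h5
  have h7 : (m : ℝ) * (1 / E + 2 ^ M * τ) < m * PP (fun x => ¬ ff n F x ∧
    outs (Rs.map (UU n)) x) := mul_lt_mul_of_pos_left h4 hm0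
  have h8 : (m : ℝ) * (1 / E) < emp X (ff n F) (Rs.map (UU n)) (UU n U) := by
    rw [mul_add] at h7
    linarith [h5.1]
  rw [mul_one_div, div_lt_iff₀ hE0] at h8
  have h9 : (E : ℝ) * emp X (ff n F) (Rs.map (UU n)) (UU n U) ≤ m := by exact_mod_cast h3
  linarith

/-- The step. -/
theorem Num.step (H : Num n m W E M p a F X τ η) (Rs : List (List (ℕ × Bool)))
    (hRs : ∀ R ∈ Rs, R.length ≤ W ∧ ∀ l ∈ R, l.1 < n) (hl : Rs.length ≤ M)
    (hc : Chn (nrl X (ff n F) W E M) (Rs.map (UU n))) :
    (∀ R ∈ closeStep W E n m (negs (smp F X)) Rs, R.length ≤ W ∧ ∀ l ∈ R, l.1 < n) ∧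
    Chn (nrl X (ff n F) W E M) ((closeStep W E n m (negs (smp F X)) Rs).map (UU n)) ∧
    ((closeStep W E n m (negs (smp F X)) Rs = Rs ∧
      ∀ U : Finset (Fin n × Bool), ¬ nrl X (ff n F) W E M (Rs.map (UU n)) U) ∨
      ((closeStep W E n m (negs (smp F X)) Rs).length = Rs.length + 1 ∧
        ∃ U : Finset (Fin n × Bool), nrl X (ff n F) W E M (Rs.map (UU n)) U)) := by
  classical
  have hRv : ∀ R ∈ Rs, ∀ l ∈ R, l.1 < n := fun R hR => (hRs R hR).2
  -- near sets give near lists
  have hlist : ∀ U : Finset (Fin n × Bool), nrl X (ff n F) W E M (Rs.map (UU n)) U →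
      ∃ ρ ∈ parts n W, near E m (negs (smp F X)) Rs ρ = true ∧ ρ.length = U.card := by
    intro U hU
    obtain ⟨ρ, h1, h2, h3⟩ := exists_list U
    refine ⟨ρ, mem_parts (by rw [h1]; exact hU.2.2.1) h2, ?_, h1⟩
    rw [near_iff X F E Rs hRv ρ h2, h3]
    exact ⟨hU.1, hU.2.2.2.1, hU.2.2.2.2 (by simpa using hl)⟩
  unfold closeStep
  by_cases h0 : ((parts n W).filter (near E m (negs (smp F X)) Rs)).length = 0
  · rw [if_pos h0]
    refine ⟨hRs, hc, Or.inl ⟨rfl, fun U hU => ?_⟩⟩
    obtain ⟨ρ, h1, h2, _⟩ := hlist U hU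
    rw [List.length_eq_zero_iff] at h0
    have h3 : ρ ∈ (parts n W).filter (near E m (negs (smp F X)) Rs) :=
      List.mem_filter.2 ⟨h1, h2⟩
    rw [h0] at h3
    exact absurd h3 (by simp)
  · rw [if_neg h0]
    obtain ⟨U, hU⟩ : ∃ U, ((parts n W).filter (near E m (negs (smp F X)) Rs)).head? = some U := by
      cases h : (parts n W).filter (near E m (negs (smp F X)) Rs) with
      | nil => rw [h] at h0; simp at h0
      | cons U l => exact ⟨U, by simp⟩
    rw [hU, Option.getD_some]
    have h1 : U ∈ (parts n W).filter (near E m (negs (smp F X)) Rs) := List.mem_of_mem_head? hU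
    obtain ⟨h2, h3⟩ := List.mem_filter.1 h1
    have h4 := length_le_of_mem_parts h2
    have h5 : ∀ l ∈ U, l.1 < n := parts_vars h2
    have hnr := H.near_nrl Rs hRv hl hc U h5 h4 h3
    refine ⟨?_, ?_, Or.inr ⟨by simp, _, hnr⟩⟩
    · intro R hR
      rcases List.mem_cons.1 hR with rfl | hR
      · exact ⟨h4, h5⟩
      · exact hRs R hR
    · rw [List.map_cons]
      refine Chn.cons _ _ hc hnr fun U' hU' => ?_
      obtain ⟨ρ, h6, h7, h8⟩ := hlist U' hU'
      have h9 := parts_head _ W U hU ρ h6 h7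
      exact (card_UU_le U).trans (h9.trans h8.le)

/-- The invariant of the search. -/
theorem Num.invariant (H : Num n m W E M p a F X τ η) (r : ℕ) (hr : r ≤ M + 1) :
    (∀ R ∈ closure W E n m (negs (smp F X)) r, R.length ≤ W ∧ ∀ l ∈ R, l.1 < n) ∧
    Chn (nrl X (ff n F) W E M) ((closure W E n m (negs (smp F X)) r).map (UU n)) ∧
    (closure W E n m (negs (smp F X)) r).length ≤ r ∧
    ((closure W E n m (negs (smp F X)) r).length = r ∨
      ∀ U : Finset (Fin n × Bool), ¬ nrl X (ff n F) W E M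
        ((closure W E n m (negs (smp F X)) r).map (UU n)) U) := by
  induction r with
  | zero =>
    refine ⟨by simp [closure], ?_, by simp [closure], Or.inl (by simp [closure])⟩
    simp only [closure, List.map_nil]
    exact Chn.nil
  | succ r ih =>
    obtain ⟨h1, h2, h3, h4⟩ := ih (by omega)
    obtain ⟨h5, h6, h7⟩ := H.step _ h1 (by omega) h2
    rw [closure]
    refine ⟨h5, h6, ?_, ?_⟩
    · rcases h7 with ⟨h7, _⟩ | ⟨h7, _⟩
      · rw [h7]; omega
      · rw [h7]; omega
    · rcases h7 with ⟨h7, h8⟩ | ⟨h7, U, hU⟩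
      · rw [h7]
        exact Or.inr h8
      · rcases h4 with h4 | h4
        · left
          rw [h7, h4]
        · exact absurd hU (h4 U)

/-- Leaf CLOSE. -/
theorem close : S_CLOSE := by
  classical
  intro n m W E M p a F X τ η _ hm _ hE hτ hG hM hη hp ha hf
  have H : Num n m W E M p a F X τ η := ⟨hm, hE, hτ, hG, hM, hη, hp, ha, hf⟩
  have hm0 : (0 : ℝ) < m := by exact_mod_cast (by omega : 0 < m)
  have hE0 : (0 : ℝ) < E := by exact_mod_cast (by omega : 0 < E)
  obtain ⟨h1, h2, h3, h4⟩ := H.invariant M (by omega)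
  have hRv : ∀ R ∈ closure W E n m (negs (smp F X)) M, ∀ l ∈ R, l.1 < n :=
    fun R hR => (h1 R hR).2
  have hl : ((closure W E n m (negs (smp F X)) M).map (UU n)).length ≤ M := by
    simpa using h3
  have hpos : (0 : ℝ) ≤ 1 / E + 2 ^ M * τ := by positivity
  -- the search stops
  have hstop : ∀ U : Finset (Fin n × Bool), ¬ nrl X (ff n F) W E M
      ((closure W E n m (negs (smp F X)) M).map (UU n)) U := by
    rcases h4 with h4 | h4
    · intro U hU
      obtain ⟨_, h6, h7⟩ := H.step _ h1 h3 h2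
      rcases h7 with ⟨_, h8⟩ | ⟨h7, _⟩
      · exact h8 U hU
      · have h8 := H.short _ h6
        rw [List.length_map, h7] at h8
        omega
    · exact h4
  refine ⟨h3, h1, ?_, ?_, ?_⟩
  · have h5 := chn_loss X F τ hτ hG hm W E M hE _ h2 hl
    refine le_trans (PP_mono fun x hx => ?_) (h5.trans
      (mul_le_mul_of_nonneg_right (by exact_mod_cast hl) hpos))
    refine ⟨hx.1, fun ho => ?_⟩
    rw [outs_map] at ho
    obtain ⟨R, hR, hRx⟩ := hx.2
    exact ho R hR hRx
  · intro U hU hU1 hUW hUR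
    by_contra hcon
    push Not at hcon
    refine hstop U ⟨hU, hU1, hUW, ?_, fun _ => ?_⟩
    · intro R hR
      obtain ⟨R', hR', rfl⟩ := List.mem_map.1 hR
      exact hUR R' hR'
    · have h5 := emp_bound X F τ hτ hG M _ hl U
      rw [abs_le] at h5
      have h6 : PP (fun x => ¬ ff n F x ∧
          outs ((closure W E n m (negs (smp F X)) M).map (UU n)) x ∧ satL U x) =
          PP (fun x => ¬ ff n F x ∧
            (∀ R ∈ closure W E n m (negs (smp F X)) M, ¬ satL (UU n R) x) ∧ satL U x) :=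
        PP_congr fun x => by rw [outs_map]
      rw [h6] at h5
      have h7 := mul_lt_mul_of_pos_left hcon hm0
      have h8 : (emp X (ff n F) ((closure W E n m (negs (smp F X)) M).map (UU n)) U : ℝ) ≤
          m * (1 / E) := by
        rw [mul_sub] at h7
        linarith [h5.2]
      rw [mul_one_div, le_div_iff₀ hE0] at h8
      have h9 : (E : ℝ) * emp X (ff n F)
          ((closure W E n m (negs (smp F X)) M).map (UU n)) U ≤ m := by linarith
      exact_mod_cast h9
  · refine good_mono X _ _ _ (mul_le_mul_of_nonneg_right ?_ hτ)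
      (good_append X F τ hG _ hRv)
    exact pow_le_pow_right₀ (by norm_num) h3

end Pool.Agent.H70.LD
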