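import Pool.Agent.H70.LD.Leaves
import Pool.Agent.Helper91K9.DL.Iso
import Pool.Agent.Helper91K9.DL.Lll
import Pool.Agent.Helper91K9.DL.Samp

/-!
# The coefficients of a formula on subsets of a term
-/

namespace Pool.Agent.H70.LD

open Finset Pool.Agent.Helper91K9.DL

variable {n : ℕ}

/-- The coefficient of the indicator function of `G`. -/
noncomputable def cf (G : Cube n → Prop) (S : Finset (Fin n)) : ℝ := by
  classical exact (∑ x, if G x then chi S x else 0) / 2 ^ n

open Classical in
theorem cf_eq (G : Cube n → Prop) (S : Finset (Fin n)) :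
    cf G S = (∑ x, if G x then chi S x else 0) / 2 ^ n := rfl

theorem cf_congr {G G' : Cube n → Prop} (h : ∀ x, G x ↔ G' x) (S : Finset (Fin n)) :
    cf G S = cf G' S := by
  have : G = G' := funext fun x => propext (h x)
  rw [this]

theorem chi_union (S E : Finset (Fin n)) (h : Disjoint S E) (x : Cube n) :
    chi (S ∪ E) x = chi S x * chi E x := by
  unfold chi; rw [prod_union h]

theorem chi_sq (S : Finset (Fin n)) (x : Cube n) : chi S x * chi S x = 1 := by
  unfold chi
  rw [← prod_mul_distrib]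
  refine prod_eq_one fun v _ => ?_
  split_ifs <;> norm_num

theorem chi_or (S : Finset (Fin n)) (x : Cube n) : chi S x = 1 ∨ chi S x = -1 := by
  have h := chi_sq S x
  have h2 : (chi S x - 1) * (chi S x + 1) = 0 := by linear_combination h
  rcases mul_eq_zero.1 h2 with h3 | h3
  · left; linarith
  · right; linarith

/-- A coefficient is at most the probability that all variables of `S` matter. -/
theorem cfn (G N : Cube n → Prop) (S E : Finset (Fin n)) (hSE : Disjoint S E) (hN : Dep N Sᶜ)
    (h : ∀ x, ¬ N x → ∃ v ∈ S, ∀ y, agr Sᶜ x y → ∀ b, (G (Function.update y v b) ↔ G y)) :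
    |cf G (S ∪ E)| ≤ PP N := by
  classical
  let r : Cube n → Cube n := fun x w => if w ∈ S then false else x w
  have hr : ∀ x, agr Sᶜ x (r x) := fun x w hw => by
    have : w ∉ S := by simpa using hw
    simp [r, this]
  have hr' : ∀ x, agr Sᶜ (r x) x := fun x w hw => (hr x w hw).symm
  have hNr : ∀ x, ¬ N x → ¬ N (r x) := fun x hx hc => hx ((hN x (r x) (hr x)).2 hc)
  choose v hv h3 using h
  let fl : ∀ x : Cube n, ¬ N x → Cube n := fun x hx =>
    Function.update x (v (r x) (hNr x hx)) (! x (v (r x) (hNr x hx)))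
  have hrf : ∀ x hx, r (fl x hx) = r x := fun x hx => by
    funext w
    by_cases hw : w ∈ S
    · show (if w ∈ S then false else fl x hx w) = (if w ∈ S then false else x w)
      rw [if_pos hw, if_pos hw]
    · have : w ≠ v (r x) (hNr x hx) := fun hc => hw (hc ▸ hv _ _)
      show (if w ∈ S then false else fl x hx w) = (if w ∈ S then false else x w)
      rw [if_neg hw, if_neg hw]
      exact Function.update_of_ne this _ _
  have hNf : ∀ x hx, ¬ N (fl x hx) := fun x hx hc => by
    have h1 := (hN (fl x hx) (r (fl x hx)) (hr _)).1 hc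
    rw [hrf x hx] at h1
    exact hNr x hx h1
  have hcong : ∀ z z' : Cube n, z = z' → ∀ (hz : ¬ N z) (hz' : ¬ N z'), v z hz = v z' hz' := by
    rintro z _ rfl _ _; rfl
  have hsum : ∑ x ∈ univ.filter (fun x => ¬ N x), (if G x then chi (S ∪ E) x else 0) = 0 := by
    refine sum_involution (fun x hx => fl x (mem_filter.1 hx).2) ?_ ?_ ?_ ?_
    · intro x hx
      have hx2 := (mem_filter.1 hx).2
      have hG := h3 (r x) (hNr x hx2) x (hr' x) (! x (v (r x) (hNr x hx2)))
      have hc := chi_flip (S ∪ E) x (v (r x) (hNr x hx2)) (mem_union_left _ (hv _ _))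
      simp only [fl]
      rw [hc]
      by_cases hGx : G x
      · simp [hG.2 hGx, hGx]
      · have : ¬ G (Function.update x (v (r x) (hNr x hx2)) (! x (v (r x) (hNr x hx2)))) :=
          fun h' => hGx (hG.1 h')
        simp [this, hGx]
    · intro x hx _ hc
      have h1 := congrFun hc (v (r x) (hNr x (mem_filter.1 hx).2))
      simp [fl] at h1
    · intro x hx
      rw [mem_filter]
      exact ⟨mem_univ _, hNf x (mem_filter.1 hx).2⟩
    · intro x hx
      have hx2 := (mem_filter.1 hx).2
      have e : v (r (fl x hx2)) (hNr _ (hNf x hx2)) = v (r x) (hNr x hx2) :=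
        hcong _ _ (hrf x hx2) _ _
      change Function.update (fl x hx2) (v (r (fl x hx2)) (hNr _ (hNf x hx2)))
        (! (fl x hx2) (v (r (fl x hx2)) (hNr _ (hNf x hx2)))) = x
      rw [e]
      simp [fl]
  rw [cf_eq, PP_eq, ← sum_filter_add_sum_filter_not univ N, hsum, add_zero, abs_div,
    abs_of_pos (by positivity : (0 : ℝ) < 2 ^ n)]
  refine div_le_div_of_nonneg_right ?_ (by positivity)
  refine (abs_sum_le_sum_abs _ _).trans ?_
  calc ∑ x ∈ univ.filter N, |if G x then chi (S ∪ E) x else 0|
      ≤ ∑ _x ∈ univ.filter N, (1 : ℝ) := sum_le_sum fun x _ => by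
        split_ifs
        · exact abs_chi_le _ _
        · simp
    _ = _ := by simp

theorem coef_eq_cf (f : Cube n → Prop) (S : Finset (Fin n)) :
    coef f ∅ S = cf (fun x => ¬ f x) S := by
  classical
  rw [cf_eq]
  unfold coef wt
  congr 1
  refine sum_congr rfl fun x _ => ?_
  have : satL (∅ : Finset (Fin n × Bool)) x := fun l hl => absurd hl (notMem_empty l)
  simp [this]

theorem cf_sub (f A G : Cube n → Prop) (h : ∀ x, f x ↔ A x ∨ ¬ G x) (S : Finset (Fin n)) :
    cf (fun x => ¬ f x) S = cf G S - cf (fun x => A x ∧ G x) S := by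
  classical
  rw [cf_eq, cf_eq, cf_eq, ← sub_div, ← sum_sub_distrib]
  congr 1
  refine sum_congr rfl fun x _ => ?_
  by_cases hA : A x <;> by_cases hG : G x <;> simp [h x, hA, hG]

theorem cf_const (P : Cube n → Prop) (S : Finset (Fin n)) (s : ℝ)
    (h : ∀ x, P x → chi S x = s) : cf P S = s * PP P := by
  classical
  rw [cf_eq, PP_eq, ← mul_div_assoc]
  congr 1
  rw [← sum_filter, sum_congr rfl (fun x hx => h x (mem_filter.1 hx).2)]
  simp [mul_comm]

theorem cf_or (P Q : Cube n → Prop) (h : ∀ x, ¬ (P x ∧ Q x)) (S : Finset (Fin n)) :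
    cf (fun x => P x ∨ Q x) S = cf P S + cf Q S := by
  classical
  rw [cf_eq, cf_eq, cf_eq, ← add_div, ← sum_add_distrib]
  congr 1
  refine sum_congr rfl fun x _ => ?_
  have := h x
  by_cases hP : P x <;> by_cases hQ : Q x <;> simp_all

theorem chi_agr (S T : Finset (Fin n)) (b x : Cube n) (hS : S ⊆ T) (h : agr T b x) :
    chi S x = chi S b := chi_congr S x b fun v hv => h v (hS hv)

/-- The event that all variables of `S` matter. -/
def ns {ι : Type} (T : ι → Finset (Fin n)) (a : ι → Cube n) (J : Finset ι) (S : Finset (Fin n))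
    (x : Cube n) : Prop := ∀ v ∈ S, ∃ i ∈ J, v ∈ T i ∧ agr (T i \ S) (a i) x

theorem dep_ns {ι : Type} (T : ι → Finset (Fin n)) (a : ι → Cube n) (J : Finset ι)
    (S : Finset (Fin n)) : Dep (ns T a J S) Sᶜ := by
  intro x y hxy
  unfold ns
  refine forall₂_congr fun v _ => exists_congr fun i => and_congr_right fun _ =>
    and_congr_right fun _ => ?_
  refine (dep_agr (T i \ S) (a i)).mono ?_ x y hxy
  intro w hw
  simpa using (mem_sdiff.1 hw).2

theorem cf_ns {ι : Type} (T : ι → Finset (Fin n)) (a : ι → Cube n) (J : Finset ι)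
    (S E : Finset (Fin n)) (hSE : Disjoint S E) (Q : Cube n → Prop) (hQ : Dep Q Sᶜ) :
    |cf (fun x => none T a J x ∧ Q x) (S ∪ E)| ≤ PP (ns T a J S) := by
  refine cfn _ _ S E hSE (dep_ns T a J S) fun x hx => ?_
  unfold ns at hx
  push Not at hx
  obtain ⟨v, hv, h⟩ := hx
  refine ⟨v, hv, fun y hxy b => ?_⟩
  have hQ' : Q (Function.update y v b) ↔ Q y := by
    refine hQ _ _ fun w hw => ?_
    have : w ≠ v := by rintro rfl; simp at hw; exact hw hv
    rw [Function.update_of_ne this]
  refine and_congr ?_ hQ'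
  unfold none
  refine forall₂_congr fun i hi => ?_
  by_cases hvi : v ∈ T i
  · have h1 : ¬ agr (T i \ S) (a i) y := by
      intro hc
      refine h i hi hvi ?_
      refine ((dep_agr (T i \ S) (a i)).mono (T := Sᶜ) (fun w hw => by
        simpa using (mem_sdiff.1 hw).2) x y ?_).2 hc
      exact hxy
    have h2 : ∀ z : Cube n, agr Sᶜ y z → ¬ agr (T i) (a i) z := by
      intro z hz hc
      apply h1
      intro w hw
      have hw2 : w ∈ (Sᶜ : Finset (Fin n)) := by simpa using (mem_sdiff.1 hw).2
      rw [← hz w hw2]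
      exact hc w (mem_sdiff.1 hw).1
    have h3 := h2 y fun w _ => rfl
    have h4 := h2 (Function.update y v b) fun w hw => by
      have : w ≠ v := by rintro rfl; simp at hw; exact hw hv
      rw [Function.update_of_ne this]
    simp [h3, h4]
  · have : agr (T i) (a i) (Function.update y v b) ↔ agr (T i) (a i) y := by
      unfold agr
      refine forall₂_congr fun w hw => ?_
      have : w ≠ v := by rintro rfl; exact hvi hw
      rw [Function.update_of_ne this]
    rw [this]

/-- The coefficients on subsets of a term `U`. -/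
theorem coef_sub {ι : Type} (T : ι → Finset (Fin n)) (a : ι → Cube n) (J : Finset ι)
    (f : Cube n → Prop) (U S : Finset (Fin n)) (b : Cube n) (hSU : S ⊆ U) (Q : Cube n → Prop)
    (hQ : Dep Q Sᶜ) (hf : ∀ x, f x ↔ agr U b x ∨ ¬ (none T a J x ∧ Q x)) :
    |coef f ∅ S + chi S b * PP (fun x => agr U b x ∧ none T a J x ∧ Q x)| ≤ PP (ns T a J S) := by
  rw [coef_eq_cf, cf_sub f _ _ hf S, cf_const (fun x => agr U b x ∧ none T a J x ∧ Q x) S
    (chi S b) fun x hx => chi_agr S U b x hSU hx.1]
  have := cf_ns T a J S ∅ (disjoint_empty_right S) Q hQ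
  rw [union_empty] at this
  simpa using this

theorem coef_mem {ι : Type} (T : ι → Finset (Fin n)) (a : ι → Cube n) (J : Finset ι)
    (f : Cube n → Prop) (U S : Finset (Fin n)) (b : Cube n) (hSU : S ⊆ U) (Q : Cube n → Prop)
    (hQ : Dep Q Sᶜ) (hf : ∀ x, f x ↔ agr U b x ∨ ¬ (none T a J x ∧ Q x)) (j : Fin n)
    (hj : j ∈ U) (hjS : j ∉ S) :
    |coef f ∅ (insert j S) + chi (insert j S) b *
      PP (fun x => agr U b x ∧ none T a J x ∧ Q x)| ≤ PP (ns T a J S) := by
  rw [coef_eq_cf, cf_sub f _ _ hf (insert j S),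
    cf_const (fun x => agr U b x ∧ none T a J x ∧ Q x) (insert j S)
    (chi (insert j S) b) fun x hx => chi_agr _ U b x (insert_subset hj hSU) hx.1]
  have := cf_ns T a J S {j} (by simpa using hjS) Q hQ
  rw [union_comm, ← insert_eq] at this
  simpa using this

theorem coef_out {ι : Type} (T : ι → Finset (Fin n)) (a : ι → Cube n) (J : Finset ι)
    (f : Cube n → Prop) (U S : Finset (Fin n)) (b : Cube n) (hSU : S ⊆ U) (Q : Cube n → Prop)
    (hQ : Dep Q Sᶜ) (hf : ∀ x, f x ↔ agr U b x ∨ ¬ (none T a J x ∧ Q x)) (j : Fin n)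
    (hj : j ∉ U) :
    |coef f ∅ (insert j S) + chi S b *
      (PP (fun x => (agr U b x ∧ x j = true) ∧ none T a J x ∧ Q x) -
        PP (fun x => (agr U b x ∧ x j = false) ∧ none T a J x ∧ Q x))| ≤ PP (ns T a J S) := by
  have hjS : j ∉ S := fun h => hj (hSU h)
  have hchi : ∀ x, chi (insert j S) x = chi S x * (if x j = true then 1 else -1) := fun x => by
    unfold chi
    rw [prod_insert hjS, mul_comm]
  rw [coef_eq_cf, cf_sub f _ _ hf (insert j S)]
  have e : cf (fun x => agr U b x ∧ none T a J x ∧ Q x) (insert j S) =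
      cf (fun x => (agr U b x ∧ x j = true) ∧ none T a J x ∧ Q x) (insert j S) +
      cf (fun x => (agr U b x ∧ x j = false) ∧ none T a J x ∧ Q x) (insert j S) := by
    rw [← cf_or]
    · refine cf_congr (fun x => ?_) _
      cases x j <;> simp
    · rintro x ⟨h1, h2⟩
      rw [h1.1.2] at h2
      exact absurd h2.1.2 (by simp)
  rw [e, cf_const (fun x => (agr U b x ∧ x j = true) ∧ none T a J x ∧ Q x) (insert j S)
    (chi S b) fun x hx => by rw [hchi, chi_agr S U b x hSU hx.1.1, hx.1.2]; simp,
    cf_const (fun x => (agr U b x ∧ x j = false) ∧ none T a J x ∧ Q x) (insert j S)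
    (- chi S b) fun x hx => by rw [hchi, chi_agr S U b x hSU hx.1.1, hx.1.2]; simp]
  have := cf_ns T a J S {j} (by simpa using hjS) Q hQ
  rw [union_comm, ← insert_eq] at this
  refine le_trans (le_of_eq ?_) this
  congr 1
  ring

end Pool.Agent.H70.LD
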