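import Pool.Agent.Helper91K9.DL.Defs2
import Pool.Agent.Helper91K9.DL.Target
import Pool.Agent.Helper91K9.DL.Cube

/-!
# Learning DNF formulas whose terms have small intersections: the algorithm

Points of the cube are lists of Booleans.  A literal is a pair (variable, sign), a term is a list of
literals, a DNF formula is a list of terms (`Pool.Agent.Helper91K9.DL`, starting library).
-/

namespace Pool.Agent.H70.LD

open Pool.Agent.Helper91K9.DL

/-- The set of the variables of a term. -/
def vset (t : List (ℕ × Bool)) : Finset ℕ := (t.map Prod.fst).toFinset

/-- `F` is a DNF formula in the variables `0, …, n - 1`, and any two terms of `F` (at different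
places of the list) have at most `c` variables in common. -/
def SmallMeets (n c : ℕ) (F : List (List (ℕ × Bool))) : Prop :=
  (∀ t ∈ F, ∀ l ∈ t, l.1 < n) ∧ F.Pairwise fun t t' => (vset t ∩ vset t').card ≤ c

/-! ### The learning algorithm -/

/-- The absolute value of the empirical coefficient. -/
def dif (neg : List (List Bool)) (S : List ℕ) : ℕ :=
  (cnt neg [] S true - cnt neg [] S false) + (cnt neg [] S false - cnt neg [] S true)

/-- The test for a further variable `j`. -/
def tst (D : ℕ) (neg : List (List Bool)) (S : List ℕ) (j : ℕ) : Bool :=
  S.all (fun i => !(i == j)) && decide ((2 * D - 1) * dif neg S ≤ 2 * D * dif neg (j :: S))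

/-- The sign of the further variable `j`. -/
def sig (neg : List (List Bool)) (S : List ℕ) (j : ℕ) : Bool :=
  pos neg [] (j :: S) == pos neg [] S

/-- The candidate term that belongs to the partial term `ρ`. -/
def cand (D n : ℕ) (neg : List (List Bool)) (ρ : List (ℕ × Bool)) : List (ℕ × Bool) :=
  ρ ++ ((List.range n).filter fun j => tst D neg (ρ.map Prod.fst) j).map
    fun j => (j, sig neg (ρ.map Prod.fst) j)

/-- The negative examples which satisfy no term of `Rs`. -/
def rest (neg : List (List Bool)) (Rs : List (List (ℕ × Bool))) : List (List Bool) :=
  neg.filter fun x => Rs.all fun R => !(termVal R x)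

/-- No variable occurs with both signs. -/
def cons (U : List (ℕ × Bool)) : Bool := U.all fun l => !(U.contains (l.1, !l.2))

/-- `U` is a new term which is almost an implicant, given that no term of `Rs` is satisfied. -/
def near (E N : ℕ) (neg : List (List Bool)) (Rs : List (List (ℕ × Bool)))
    (U : List (ℕ × Bool)) : Bool :=
  cons U && ((Rs.all fun R => !(R.all fun l => U.contains l)) &&
    decide (E * ((rest neg Rs).filter fun x => termVal U x).length ≤ N))

/-- One step of the search for short terms which are almost implicants. -/
def closeStep (W E n N : ℕ) (neg : List (List Bool)) (Rs : List (List (ℕ × Bool))) :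
    List (List (ℕ × Bool)) :=
  if ((parts n W).filter (near E N neg Rs)).length = 0 then Rs
  else (((parts n W).filter (near E N neg Rs)).head?.getD []) :: Rs

/-- The search for short terms which are almost implicants. -/
def closure (W E n N : ℕ) (neg : List (List Bool)) : ℕ → List (List (ℕ × Bool))
  | 0 => []
  | r + 1 => closeStep W E n N neg (closure W E n N neg r)

/-- The hypothesis. -/
def hyp (M W E w₀ m D n N : ℕ) (neg : List (List Bool)) : List (List (ℕ × Bool)) :=
  closure W E n N neg M ++
    (parts n w₀ ++ (parts n m).map (cand D n (rest neg (closure W E n N neg M)))).filter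
      fun t => imp neg t

/-- The learning algorithm; the input is the accuracy parameter `a` and a list of examples. -/
def learnG (M W E w₀ m D : ℕ) (p : ℕ × List (List Bool × Bool)) : List (List (ℕ × Bool)) :=
  if 4 * p.1 * (negs p.2).length < 3 * p.2.length then [[]] else
    hyp M W E w₀ m D (nvars p.2) p.2.length (negs p.2)

end Pool.Agent.H70.LD
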