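import Pool.Agent.H70.LD.Leaves
import Pool.Agent.Helper91K9.DL.Fam

/-!
# The family of subcubes of a formula whose terms have small intersections
-/

namespace Pool.Agent.H70.LD

open Finset Pool.Agent.Helper91K9.DL

variable {n : ℕ}

/-- The weight of the variable `v` in `F`: the sum of `2 ^ (-|T|)` over the terms `T` of `F` which
contain `v`, negated or not; `|T|` is the number of the variables of `T`. -/
noncomputable def weight (F : List (List (ℕ × Bool))) (v : ℕ) : ℝ :=
  ((F.filter fun t => decide (v ∈ vset t)).map fun t => (1 / 2 : ℝ) ^ (vset t).card).sum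

theorem TV_image (t : List (ℕ × Bool)) (ht : ∀ l ∈ t, l.1 < n) :
    (TV n t).map Fin.valEmbedding = vset t := by
  ext v
  rw [mem_map]
  unfold vset
  rw [List.mem_toFinset, List.mem_map]
  constructor
  · rintro ⟨w, hw, rfl⟩
    obtain ⟨b, hb⟩ := (mem_TV t w).1 hw
    exact ⟨_, hb, rfl⟩
  · rintro ⟨⟨w, b⟩, hl, rfl⟩
    exact ⟨⟨w, ht _ hl⟩, (mem_TV t _).2 ⟨b, hl⟩, rfl⟩

theorem TV_card (t : List (ℕ × Bool)) (ht : ∀ l ∈ t, l.1 < n) :
    (TV n t).card = (vset t).card := by
  rw [← TV_image t ht, card_map]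

theorem sum_filter_list {α : Type} (F : List α) (p : α → Bool) (f : α → ℝ) :
    ((F.filter p).map f).sum = ∑ i ∈ univ.filter (fun i : Fin F.length => p (F.get i) = true),
      f (F.get i) := by
  rw [sum_filter]
  induction F with
  | nil => simp
  | cons x F ih =>
    have e : ∑ i : Fin (x :: F).length, (if p ((x :: F).get i) = true then f ((x :: F).get i)
        else 0) = (if p x = true then f x else 0) +
        ∑ i : Fin F.length, (if p (F.get i) = true then f (F.get i) else 0) :=
      Fin.sum_univ_succ _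
    rw [e, ← ih]
    by_cases h : p x = true
    · simp [h]
    · simp [h]

open Classical in
theorem family' (n c : ℕ) (F : List (List (ℕ × Bool))) (hF : SmallMeets n c F) :
    ∃ (ι : Type) (I : Finset ι) (T : ι → Finset (Fin n)) (a : ι → Cube n),
      (∀ x, ff n F x ↔ ∃ i ∈ I, agr (T i) (a i) x) ∧ Meets T I c ∧
      ∀ v : Fin n, wv T I v ≤ weight F v := by
  obtain ⟨hv, hp⟩ := hF
  have hv' : ∀ i : Fin F.length, ∀ l ∈ F.get i, l.1 < n := fun i => hv _ (List.get_mem _ _)
  refine ⟨Fin F.length, univ.filter fun i => ∀ v : Fin n,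
    ¬ (((v : ℕ), true) ∈ F.get i ∧ ((v : ℕ), false) ∈ F.get i),
    fun i => TV n (F.get i), fun i => AV n (F.get i), ?_, ?_, ?_⟩
  · intro x
    unfold ff dnfVal
    rw [List.any_eq_true]
    constructor
    · rintro ⟨t, ht, h⟩
      obtain ⟨i, rfl⟩ := List.get_of_mem ht
      rw [termVal_iff _ (hv _ ht), satL_iff] at h
      exact ⟨i, by simpa using h.2, h.1⟩
    · rintro ⟨i, hi, h⟩
      refine ⟨F.get i, List.get_mem _ _, ?_⟩
      rw [termVal_iff _ (hv _ (List.get_mem _ _)), satL_iff]
      exact ⟨h, by simpa using hi⟩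
  · have key : ∀ i j : Fin F.length, i < j → (TV n (F.get i) ∩ TV n (F.get j)).card ≤ c := by
      intro i j hij
      have h1 := List.pairwise_iff_get.1 hp i j hij
      rw [← TV_image _ (hv' i), ← TV_image _ (hv' j), ← map_inter, card_map] at h1
      exact h1
    intro i _ j _ hij
    rcases lt_or_gt_of_ne hij with h | h
    · exact key i j h
    · rw [inter_comm]
      exact key j i h
  · intro v
    unfold weight
    rw [sum_filter_list]
    unfold wv
    have h1 : ∀ i : Fin F.length, (1 / 2 : ℝ) ^ (TV n (F.get i)).card =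
        (1 / 2 : ℝ) ^ (vset (F.get i)).card := fun i => by rw [TV_card _ (hv' i)]
    rw [sum_congr rfl fun i _ => h1 i]
    refine sum_le_sum_of_subset_of_nonneg (fun i hi => ?_) fun i _ _ => by positivity
    rw [mem_filter] at hi ⊢
    refine ⟨mem_univ _, ?_⟩
    rw [decide_eq_true_iff, ← TV_image _ (hv' i), mem_map]
    exact ⟨v, hi.2, rfl⟩

end Pool.Agent.H70.LD
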