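import Pool.Agent.H70.LD.Poly

/-!
# The algorithm with a fixed accuracy parameter runs in polynomial time
-/

namespace Pool.Agent.H70.LD

open Pool.Agent.NPC Pool.Agent.Helper91K9.DL Pool.Agent.H424R2.PPAD

theorem poly_fix (M W E w₀ m D a : ℕ) :
    PTime (fun s : List (List Bool × Bool) => learnG M W E w₀ m D (a, s)) := by
  have h1 : Poly (fun p : ℕ × List (List Bool × Bool) => p.2) := f2
  have h2 : Poly (fun p : ℕ × List (List Bool × Bool) => negs p.2) := negs_poly.comp h1
  have h3 : UPoly (fun p : ℕ × List (List Bool × Bool) => nvars p.2) := nvars_upoly.comp h1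
  have h4 : UPoly (fun p : ℕ × List (List Bool × Bool) => p.2.length) := UPoly.length h1
  have h5 : Poly (learnG M W E w₀ m D) := by
    refine NPC.Poly.ite (NPC.Poly.decide_lt (NPC.Poly.mul (NPC.Poly.mul (NPC.Poly.const 4) f1)
      (NPC.Poly.length h2)) (NPC.Poly.mul (NPC.Poly.const 3) h4.toPoly)) (NPC.Poly.const [[]]) ?_
    exact hyp_poly M W E w₀ m D h3 h4.toPoly h2
  exact PTime.of_poly (h5.comp (NPC.Poly.pair (NPC.Poly.const a) NPC.Poly.id))

end Pool.Agent.H70.LD
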