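import Pool.Agent.H70.LD.Wb
import Pool.Agent.H70.LD.Leaves2

/-!
# Leaf TW: the total weight of the terms that do not contain a found short term
-/

namespace Pool.Agent.H70.LD

open Finset Pool.Agent.Helper91K9.DL

open Classical in
/-- The statement of the downward induction. -/
def TWH (c : ℕ) (θ : ℝ) (q : ℕ) (L : ℝ) : Prop := ∀ (n : ℕ) (ι : Type) (J : Finset ι)
  (T : ι → Finset (Fin n)) (b : ι → Cube n) (g : Cube n → Prop), Meets T J c →
  (∀ x, g x → none T b J x) →
  (∀ i ∈ J, ∀ Q ⊆ T i, Q.card ≤ c → θ ≤ PP (fun x => g x ∧ agr Q (b i) x)) →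
  ∀ Q : Finset (Fin n), q ≤ Q.card →
    ∑ i ∈ J.filter (fun i => Q ⊆ T i), (1 / 2 : ℝ) ^ (T i).card ≤ L * (1 / 2) ^ Q.card

theorem tw_base (c : ℕ) (θ : ℝ) : TWH c θ (c + 1) 1 := by
  classical
  intro n ι J T b g hM _ _ Q hQ
  rcases (J.filter (fun i => Q ⊆ T i)).eq_empty_or_nonempty with h | ⟨i, hi⟩
  · rw [h, sum_empty]
    positivity
  · have h1 : J.filter (fun i => Q ⊆ T i) = {i} := by
      ext j
      rw [mem_singleton]
      constructor
      · intro hj
        by_contra hne
        rw [mem_filter] at hi hj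
        have h2 := hM j hj.1 i hi.1 hne
        have h3 := card_le_card (subset_inter hj.2 hi.2)
        omega
      · rintro rfl
        exact hi
    rw [h1, sum_singleton, one_mul]
    exact pow_le_pow_of_le_one (by norm_num) (by norm_num) (card_le_card (mem_filter.1 hi).2)

/-- The number of the patterns on `Q`. -/
theorem card_pat {n : ℕ} (Q : Finset (Fin n)) :
    ((univ : Finset (Cube n)).filter fun σ => ∀ v, v ∉ Q → σ v = false).card ≤ 2 ^ Q.card := by
  classical
  rw [← card_powerset]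
  refine card_le_card_of_injOn (fun σ => Q.filter fun v => σ v = true) ?_ ?_
  · intro σ _
    rw [mem_coe, mem_powerset]
    exact filter_subset _ _
  · intro σ hσ σ' hσ' h
    rw [mem_coe, mem_filter] at hσ hσ'
    funext v
    by_cases hv : v ∈ Q
    · have h1 : v ∈ Q.filter (fun v => σ v = true) ↔ v ∈ Q.filter (fun v => σ' v = true) := by
        have h' : Q.filter (fun v => σ v = true) = Q.filter (fun v => σ' v = true) := h
        rw [h']
      rw [mem_filter, mem_filter] at h1
      cases h2 : σ v <;> cases h3 : σ' v <;> simp_all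
    · rw [hσ.2 v hv, hσ'.2 v hv]

theorem tw_step (c : ℕ) (θ : ℝ) (hθ : 0 < θ) (q : ℕ) (hq : q ≤ c) (L : ℝ) (hL : 0 ≤ L)
    (h : TWH c θ (q + 1) L) : ∃ L', 0 ≤ L' ∧ TWH c θ q L' := by
  classical
  obtain ⟨K, hK⟩ := wb c L θ hθ
  refine ⟨max L (2 ^ q * max K 0), le_max_of_le_left hL, ?_⟩
  intro n ι J T b g hM hg hθg Q hQ
  rcases Nat.lt_or_ge q Q.card with hQ1 | hQ1
  · exact (h n ι J T b g hM hg hθg Q hQ1).trans
      (mul_le_mul_of_nonneg_right (le_max_left _ _) (by positivity))
  have hQc : Q.card = q := le_antisymm hQ1 hQ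
  set pat : ι → Cube n := fun i v => if v ∈ Q then b i v else false with hpat
  set P := (univ : Finset (Cube n)).filter fun σ => ∀ v, v ∉ Q → σ v = false with hP
  have hmap : ∀ i ∈ J.filter (fun i => Q ⊆ T i), pat i ∈ P := by
    intro i _
    rw [hP, mem_filter]
    refine ⟨mem_univ _, fun v hv => ?_⟩
    rw [hpat]
    simp [hv]
  rw [← sum_fiberwise_of_maps_to hmap]
  have hfib : ∀ σ ∈ P, ∑ i ∈ (J.filter (fun i => Q ⊆ T i)).filter (fun i => pat i = σ),
      (1 / 2 : ℝ) ^ (T i).card ≤ (1 / 2) ^ q * max K 0 := by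
    intro σ _
    set J1 := (J.filter (fun i => Q ⊆ T i)).filter (fun i => pat i = σ) with hJ1
    have hJ1' : ∀ i ∈ J1, i ∈ J ∧ Q ⊆ T i ∧ pat i = σ := by
      intro i hi
      rw [hJ1, mem_filter, mem_filter] at hi
      exact ⟨hi.1.1, hi.1.2, hi.2⟩
    have hcard : ∀ i ∈ J1, (1 / 2 : ℝ) ^ (T i).card = (1 / 2) ^ q * (1 / 2) ^ (T i \ Q).card := by
      intro i hi
      have h1 := card_sdiff_add_card_eq_card (hJ1' i hi).2.1
      rw [hQc] at h1
      rw [← h1, pow_add, mul_comm]
    rcases J1.eq_empty_or_nonempty with hem | ⟨i₀, hi₀⟩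
    · rw [hem, sum_empty]
      positivity
    rw [sum_congr rfl hcard, ← mul_sum]
    refine mul_le_mul_of_nonneg_left (le_max_of_le_left ?_) (by positivity)
    refine hK n ι J1 (fun i => T i \ Q) b ?_ ?_ ?_
    · intro i hi j hj hij
      exact (card_le_card (inter_subset_inter sdiff_subset sdiff_subset)).trans
        (hM i (hJ1' i hi).1 j (hJ1' j hj).1 hij)
    · intro Q' hne _
      by_cases hd : Disjoint Q Q'
      · have h1 := h n ι J T b g hM hg hθg (Q ∪ Q') (by
          rw [card_union_of_disjoint hd, hQc]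
          have := hne.card_pos
          omega)
        have h2 : ∑ i ∈ J1.filter (fun i => Q' ⊆ T i \ Q), (1 / 2 : ℝ) ^ (T i \ Q).card ≤
            2 ^ q * ∑ i ∈ J.filter (fun i => Q ∪ Q' ⊆ T i), (1 / 2 : ℝ) ^ (T i).card := by
          rw [mul_sum]
          calc ∑ i ∈ J1.filter (fun i => Q' ⊆ T i \ Q), (1 / 2 : ℝ) ^ (T i \ Q).card
              = ∑ i ∈ J1.filter (fun i => Q' ⊆ T i \ Q), 2 ^ q * (1 / 2 : ℝ) ^ (T i).card := by
                refine sum_congr rfl fun i hi => ?_
                rw [hcard i (mem_filter.1 hi).1, ← mul_assoc, ← mul_pow]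
                norm_num
            _ ≤ _ := by
                refine sum_le_sum_of_subset_of_nonneg (fun i hi => ?_) fun _ _ _ => by positivity
                rw [mem_filter] at hi ⊢
                exact ⟨(hJ1' i hi.1).1, union_subset (hJ1' i hi.1).2.1
                  (hi.2.trans sdiff_subset)⟩
        have h3 : (2 : ℝ) ^ q * (L * (1 / 2) ^ (Q ∪ Q').card) = L * (1 / 2) ^ Q'.card := by
          rw [card_union_of_disjoint hd, hQc, pow_add]
          have : (2 : ℝ) ^ q * (1 / 2) ^ q = 1 := by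
            rw [← mul_pow]; norm_num
          linear_combination (L * (1 / 2) ^ Q'.card) * this
        rw [← h3]
        refine le_trans ?_ (h2.trans (mul_le_mul_of_nonneg_left h1 (by positivity)))
        exact le_of_eq (by congr)
      · have h1 : J1.filter (fun i => Q' ⊆ T i \ Q) = ∅ := by
          rw [filter_eq_empty_iff]
          intro i _ hi
          obtain ⟨v, hv, hv'⟩ := not_disjoint_iff.1 hd
          exact (mem_sdiff.1 (hi hv')).2 hv
        refine le_trans (le_of_eq ?_) (show (0 : ℝ) ≤ L * (1 / 2) ^ Q'.card by positivity)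
        refine sum_eq_zero fun i hi => ?_
        exfalso
        have : i ∈ J1.filter (fun i => Q' ⊆ T i \ Q) := by
          rw [mem_filter] at hi ⊢
          exact hi
        rw [h1] at this
        exact notMem_empty _ this
    · refine (hθg i₀ (hJ1' i₀ hi₀).1 Q (hJ1' i₀ hi₀).2.1 (by omega)).trans (PP_mono ?_)
      intro x hx i hi hc
      refine hg x hx.1 i (hJ1' i hi).1 fun v hv => ?_
      by_cases hvQ : v ∈ Q
      · have h1 : pat i v = pat i₀ v := by
          rw [(hJ1' i hi).2.2, (hJ1' i₀ hi₀).2.2]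
        simp only [hpat, hvQ, if_true] at h1
        rw [hx.2 v hvQ, h1]
      · exact hc v (mem_sdiff.2 ⟨hv, hvQ⟩)
  refine (sum_le_sum hfib).trans ?_
  rw [sum_const, nsmul_eq_mul, hQc]
  have h5 : (P.card : ℝ) ≤ 2 ^ q := by
    rw [← hQc]
    exact_mod_cast card_pat Q
  calc (P.card : ℝ) * ((1 / 2) ^ q * max K 0) ≤ 2 ^ q * ((1 / 2) ^ q * max K 0) :=
        mul_le_mul_of_nonneg_right h5 (by positivity)
    _ = (2 ^ q * max K 0) * (1 / 2) ^ q := by ring
    _ ≤ _ := mul_le_mul_of_nonneg_right (le_max_right _ _) (by positivity)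

theorem tw_all (c : ℕ) (θ : ℝ) (hθ : 0 < θ) (m : ℕ) (hm : m ≤ c + 1) :
    ∃ L, 0 ≤ L ∧ TWH c θ (c + 1 - m) L := by
  induction m with
  | zero => exact ⟨1, zero_le_one, tw_base c θ⟩
  | succ m ih =>
    obtain ⟨L, hL, h⟩ := ih (by omega)
    have e : c + 1 - m = (c + 1 - (m + 1)) + 1 := by omega
    rw [e] at h
    exact tw_step c θ hθ (c + 1 - (m + 1)) (by omega) L hL h

/-- Leaf TW. -/
theorem tw : S_TW := by
  classical
  intro c θ hθ
  obtain ⟨L, _, h⟩ := tw_all c θ hθ (c + 1) le_rfl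
  refine ⟨L, fun n ι J T b g hM hg hθg => ?_⟩
  have h1 := h n ι J T b g hM hg hθg ∅ (by simp)
  simpa using h1

end Pool.Agent.H70.LD
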