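import Pool.Agent.H70.LD.MainG2
import Pool.Agent.H70.LD.PolyG
import Pool.Agent.H70.LD.Tw
import Pool.Agent.H70.LD.Bm
import Pool.Agent.H70.LD.Close

/-!
# Formulas whose terms have small intersections
-/

namespace Pool.Agent.H70.LD

open Pool.Agent.Helper91K9.DL Pool.Agent.H424R2.PPAD

theorem smallMeets (c a : ℕ) (ha : 1 ≤ a) :
    ∃ A : List (List Bool × Bool) → List (List (ℕ × Bool)), PTime A ∧ ∃ e : ℕ,
      ∀ (n b : ℕ) (F : List (List (ℕ × Bool))), 1 ≤ b → SmallMeets n c F →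
        ∀ m, (n + b + 1) ^ e ≤ m → Succeeds A n m F (1 / a) (1 / b) := by
  obtain ⟨M, W, E, w₀, k, D, e, h⟩ := core_G tw bm close (c + 1) a (by omega) ha
  refine ⟨fun s => learnG M W E w₀ k D (a, s), poly_fix M W E w₀ k D a,
    (a + 1) * e, fun n b F hb hF m hm => ?_⟩
  refine h n b F hb ⟨hF.1, hF.2.imp fun h => h.trans (Nat.le_succ c)⟩ m (le_trans ?_ hm)
  rw [pow_mul]
  refine Nat.pow_le_pow_left ?_ e
  obtain ⟨Q, hQ⟩ : ∃ Q, Q = n + b + 1 := ⟨_, rfl⟩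
  rw [← hQ]
  have hQ2 : 2 ≤ Q := by omega
  have h1 : a + 1 ≤ Q ^ a := by
    calc a + 1 ≤ 2 ^ a := Nat.succ_le_of_lt Nat.lt_two_pow_self
      _ ≤ Q ^ a := Nat.pow_le_pow_left hQ2 _
  calc n + a + b ≤ a + Q := by omega
    _ ≤ (a + 1) * Q := by nlinarith
    _ ≤ Q ^ a * Q := Nat.mul_le_mul_right _ h1
    _ = Q ^ (a + 1) := by rw [pow_succ]

end Pool.Agent.H70.LD
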