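import Pool.Agent.H70.LD.Frame

/-!
# The error of the hypothesis, in the general case
-/

namespace Pool.Agent.H70.LD

open Finset Pool.Agent.Helper91K9.DL

variable {n m : ℕ}

theorem frameG {ι : Type} (M W E w₀ k D a : ℕ) (ha : 1 ≤ a) (hm : 1 ≤ m)
    (F : List (List (ℕ × Bool))) (X : Fin m → Cube n) (τ : ℝ) (hτ0 : 0 ≤ τ)
    (hG : Good X (ff n F) τ) (I B : Finset ι) (T : ι → Finset (Fin n)) (b : ι → Cube n)
    (hf : ∀ x, ff n F x ↔ ∃ i ∈ I, agr (T i) (b i) x)
    (hB : ∑ i ∈ B, (1 / 2 : ℝ) ^ (T i).card ≤ 1 / (4 * a))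
    (hτa : τ ≤ 1 / (4 * a))
    (hN : (((2 * n + 1) ^ w₀ + (2 * n + 1) ^ k : ℕ) : ℝ) * τ ≤ 1 / (4 * a))
    (hR : 1 / (2 * (a : ℝ)) ≤ PP (fun x : Cube n => ¬ ff n F x) →
      (∀ R ∈ closure W E n m (negs (smp F X)) M, ∀ l ∈ R, l.1 < n) ∧
      PP (fun x : Cube n => ¬ ff n F x ∧
        ∃ R ∈ closure W E n m (negs (smp F X)) M, satL (UU n R) x) ≤ 1 / (2 * a) ∧
      ∀ i ∈ I, i ∉ B →
        (∀ x, agr (T i) (b i) x → ∃ R ∈ closure W E n m (negs (smp F X)) M, satL (UU n R) x) ∨
        (T i).card ≤ w₀ ∨ ∃ ρ ∈ parts n k,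
        (∀ x, satL (UU n (cand D n
          (negs (smp (closure W E n m (negs (smp F X)) M ++ F) X)) ρ)) x → ff n F x) ∧
        ∀ x, agr (T i) (b i) x →
          (∀ R ∈ closure W E n m (negs (smp F X)) M, ¬ satL (UU n R) x) →
          satL (UU n (cand D n
            (negs (smp (closure W E n m (negs (smp F X)) M ++ F) X)) ρ)) x) :
    PP (fun x : Cube n => dnfVal (learnG M W E w₀ k D (a, smp F X)) (List.ofFn x) ≠
      dnfVal F (List.ofFn x)) ≤ 1 / a := by
  classical
  have hm0 : (0 : ℝ) < m := by exact_mod_cast (by omega : 0 < m)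
  have ha0 : (0 : ℝ) < a := by exact_mod_cast ha
  have hnv : nvars (smp F X) = n := by
    unfold nvars smp
    obtain ⟨m', rfl⟩ : ∃ m', m = m' + 1 := ⟨m - 1, by omega⟩
    simp
  have hlen : (smp F X).length = m := by unfold smp; simp
  -- the number of negative examples
  have hneg : |((negs (smp F X)).length : ℝ) - m * PP (fun x : Cube n => ¬ ff n F x)| ≤ m * τ := by
    have h1 := hG ∅ ∅
    rw [coef_empty, stat_empty] at h1
    have h2 := negs_filter F X (fun _ => true)
    rw [List.filter_true] at h2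
    rw [h2]
    convert h1 using 4
    · congr 1
      ext j
      simp [satL]
    · refine PP_congr fun x => ?_
      simp [satL]
  rw [abs_le] at hneg
  unfold learnG
  simp only [hnv, hlen]
  by_cases htest : 4 * a * (negs (smp F X)).length < 3 * m
  · rw [if_pos htest]
    have h1 : PP (fun x : Cube n => dnfVal [[]] (List.ofFn x) ≠ dnfVal F (List.ofFn x)) =
        PP (fun x : Cube n => ¬ ff n F x) := by
      refine PP_congr fun x => ?_
      simp [dnfVal, termVal, ff]
    rw [h1]
    have h2 : (4 : ℝ) * a * (negs (smp F X)).length < 3 * m := by exact_mod_cast htest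
    have h3 : ((negs (smp F X)).length : ℝ) ≤ m * (3 / (4 * a)) := by
      rw [← mul_div_assoc, le_div_iff₀ (by positivity)]
      nlinarith
    have h4 : (m : ℝ) * PP (fun x : Cube n => ¬ ff n F x) ≤ m * (1 / a) := by
      have h5 : (m : ℝ) * τ ≤ m * (1 / (4 * a)) := mul_le_mul_of_nonneg_left hτa hm0.le
      have h6 : (m : ℝ) * (1 / a) = m * (3 / (4 * a)) + m * (1 / (4 * a)) := by
        field_simp; norm_num
      linarith [hneg.1]
    exact le_of_mul_le_mul_left h4 hm0
  rw [if_neg htest]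
  have hp0 : 1 / (2 * (a : ℝ)) ≤ PP (fun x : Cube n => ¬ ff n F x) := by
    have h2 : (3 : ℝ) * m ≤ 4 * a * (negs (smp F X)).length := by
      exact_mod_cast not_lt.1 htest
    have h3 : (m : ℝ) * (3 / (4 * a)) ≤ (negs (smp F X)).length := by
      rw [← mul_div_assoc, div_le_iff₀ (by positivity)]
      nlinarith
    have h4 : (m : ℝ) * (1 / (2 * a)) ≤ m * PP (fun x : Cube n => ¬ ff n F x) := by
      have h5 : (m : ℝ) * τ ≤ m * (1 / (4 * a)) := mul_le_mul_of_nonneg_left hτa hm0.le
      have h6 : (m : ℝ) * (3 / (4 * a)) = m * (1 / (2 * a)) + m * (1 / (4 * a)) := by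
        field_simp; norm_num
      linarith [hneg.2]
    exact le_of_mul_le_mul_left h4 hm0
  obtain ⟨hRv, hRP, hgood⟩ := hR hp0
  unfold hyp
  set Rs := closure W E n m (negs (smp F X)) M with hRs
  rw [rest_eq]
  set G := (parts n w₀ ++ (parts n k).map (cand D n (negs (smp (Rs ++ F) X)))).filter
      fun t => imp (negs (smp F X)) t with hGdef
  -- the variables of the terms
  have hGv : ∀ C ∈ G, ∀ l ∈ C, l.1 < n := by
    intro C hC
    rw [hGdef, List.mem_filter, List.mem_append, List.mem_map] at hC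
    rcases hC.1 with h | ⟨ρ, hρ, rfl⟩
    · exact parts_vars h
    · exact cand_vars D _ ρ (parts_vars hρ)
  -- implicants are kept
  have hkeep : ∀ C ∈ (parts n w₀ ++ (parts n k).map (cand D n (negs (smp (Rs ++ F) X)))),
      (∀ l ∈ C, l.1 < n) → (∀ y, satL (UU n C) y → ff n F y) → C ∈ G := by
    intro C hC hCv hCf
    rw [hGdef, List.mem_filter]
    refine ⟨hC, ?_⟩
    unfold imp
    rw [negs_all]
    intro j hj
    rw [Bool.not_eq_true', ← Bool.not_eq_true, termVal_iff C hCv]
    exact fun h => hj (hCf _ h)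
  -- the points which are covered
  have hcov : ∀ x, ff n F x → (∃ i ∈ B, agr (T i) (b i) x) ∨
      dnfVal (Rs ++ G) (List.ofFn x) = true := by
    intro x hx
    obtain ⟨i, hi, hix⟩ := (hf x).1 hx
    by_cases hiB : i ∈ B
    · exact Or.inl ⟨i, hiB, hix⟩
    right
    unfold dnfVal
    rw [List.any_append, Bool.or_eq_true]
    by_cases hRx : ∃ R ∈ Rs, satL (UU n R) x
    · left
      obtain ⟨R, hR1, hR2⟩ := hRx
      rw [List.any_eq_true]
      exact ⟨R, hR1, (termVal_iff R (hRv R hR1) x).2 hR2⟩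
    right
    push Not at hRx
    rw [List.any_eq_true]
    rcases hgood i hi hiB with h | h | ⟨ρ, hρ, h1, h2⟩
    · obtain ⟨R, hR1, hR2⟩ := h x hix
      exact absurd hR2 (hRx R hR1)
    · refine ⟨litsOf (b i) (T i), hkeep _ ?_ (litsOf_lt _ _) fun y hy => ?_,
        (termVal_iff _ (litsOf_lt _ _) x).2 ((satL_litsOf _ _ _).2 hix)⟩
      · rw [List.mem_append]
        left
        exact mem_parts (by rw [length_litsOf]; exact h) (litsOf_lt _ _)
      · exact (hf y).2 ⟨i, hi, (satL_litsOf _ _ _).1 hy⟩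
    · have hv := cand_vars D (negs (smp (Rs ++ F) X)) ρ (parts_vars hρ)
      refine ⟨_, hkeep _ ?_ hv h1, (termVal_iff _ hv x).2 (h2 x hix hRx)⟩
      rw [List.mem_append]
      right
      exact List.mem_map.2 ⟨ρ, hρ, rfl⟩
  -- the false positives
  have hfp : PP (fun x : Cube n => ¬ ff n F x ∧ dnfVal (Rs ++ G) (List.ofFn x) = true) ≤
      1 / (2 * a) + 1 / (4 * a) := by
    have h1 : ∀ C ∈ G, PP (fun x : Cube n => ¬ ff n F x ∧ satL (UU n C) x) ≤ τ := by
      intro C hC
      have hCv := hGv C hC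
      rw [hGdef, List.mem_filter] at hC
      have h2 := hC.2
      unfold imp at h2
      rw [negs_all] at h2
      have h3 := hG (UU n C) ∅
      rw [coef_empty] at h3
      have h4 : stat X (ff n F) (UU n C) ∅ = 0 := by
        refine sum_eq_zero fun j _ => ?_
        unfold wt
        rw [if_neg]
        rintro ⟨hj1, hj2⟩
        have h5 := h2 j hj1
        rw [Bool.not_eq_true', ← Bool.not_eq_true, termVal_iff C hCv] at h5
        exact h5 hj2
      rw [h4, zero_sub, abs_neg] at h3
      have h5 := (le_abs_self _).trans h3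
      exact le_of_mul_le_mul_left h5 hm0
    have h2 : ∀ x : Cube n, (¬ ff n F x ∧ dnfVal (Rs ++ G) (List.ofFn x) = true) →
        (¬ ff n F x ∧ ∃ R ∈ Rs, satL (UU n R) x) ∨
          ∃ C ∈ G.toFinset, ¬ ff n F x ∧ satL (UU n C) x := by
      rintro x ⟨hx1, hx2⟩
      unfold dnfVal at hx2
      rw [List.any_append, Bool.or_eq_true, List.any_eq_true, List.any_eq_true] at hx2
      rcases hx2 with ⟨R, hR1, hR2⟩ | ⟨C, hC, hCx⟩
      · exact Or.inl ⟨hx1, R, hR1, (termVal_iff R (hRv R hR1) x).1 hR2⟩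
      · exact Or.inr ⟨C, List.mem_toFinset.2 hC, hx1, (termVal_iff C (hGv C hC) x).1 hCx⟩
    refine (PP_mono h2).trans ((PP_or_le _ _).trans (add_le_add hRP ?_))
    refine (PP_exists_le _ _).trans ?_
    refine (sum_le_card_nsmul _ _ τ fun C hC => h1 C (List.mem_toFinset.1 hC)).trans ?_
    rw [nsmul_eq_mul]
    refine le_trans (mul_le_mul_of_nonneg_right ?_ hτ0) hN
    have h4 : G.toFinset.card ≤ G.length := List.toFinset_card_le _
    have h5 : G.length ≤ (2 * n + 1) ^ w₀ + (2 * n + 1) ^ k := by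
      rw [hGdef]
      refine (List.length_filter_le _ _).trans ?_
      rw [List.length_append, List.length_map, length_parts, length_parts]
    exact_mod_cast h4.trans h5
  have hbad : PP (fun x => ∃ i ∈ B, agr (T i) (b i) x) ≤ 1 / (4 * a) := by
    refine (PP_exists_le _ _).trans (le_trans (le_of_eq ?_) hB)
    exact sum_congr rfl fun i _ => PP_agr _ _
  calc PP (fun x : Cube n => dnfVal (Rs ++ G) (List.ofFn x) ≠ dnfVal F (List.ofFn x))
      ≤ PP (fun x : Cube n => (∃ i ∈ B, agr (T i) (b i) x) ∨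
          (¬ ff n F x ∧ dnfVal (Rs ++ G) (List.ofFn x) = true)) := by
        refine PP_mono fun x hx => ?_
        by_cases hfx : ff n F x
        · left
          rcases hcov x hfx with h | h
          · exact h
          · exfalso
            refine hx ?_
            rw [h]
            exact hfx.symm
        · right
          refine ⟨hfx, ?_⟩
          unfold ff at hfx
          rw [Bool.not_eq_true] at hfx
          rw [hfx] at hx
          simpa using hx
    _ ≤ PP (fun x => ∃ i ∈ B, agr (T i) (b i) x) +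
        PP (fun x : Cube n => ¬ ff n F x ∧ dnfVal (Rs ++ G) (List.ofFn x) = true) := PP_or_le _ _
    _ ≤ 1 / (4 * a) + (1 / (2 * a) + 1 / (4 * a)) := add_le_add hbad hfp
    _ = 1 / a := by field_simp; norm_num

end Pool.Agent.H70.LD
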