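import Pool.Agent.H70.LD.GoodS

/-!
# The terms that are found, in the general case
-/

namespace Pool.Agent.H70.LD

open Finset Pool.Agent.Helper91K9.DL

variable {n : ℕ}

/-- A lower bound for the probability of a subcube `A` of light variables. -/
theorem low_G {ι : Type} (T : ι → Finset (Fin n)) (b : ι → Cube n) (J : Finset ι)
    (A : Finset (Fin n)) (b' : Cube n) (E₀ : Cube n → Prop) (hE : Dep E₀ Aᶜ) (d : ℕ) (κ : ℝ)
    (hd : ∀ k ∈ J, (T k ∩ A).card ≤ d) (hκ : ∀ v ∈ A, wv T J v ≤ κ) :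
    (1 / 2) ^ A.card * (PP (fun x => E₀ x ∧ none T b J x) - 2 ^ d * (A.card * κ)) ≤
      PP (fun x => agr A b' x ∧ E₀ x ∧ none T b J x) := by
  classical
  set J0 := J.filter (fun i => Disjoint (T i) A) with hJ0
  set J1 := J.filter (fun i => ¬ Disjoint (T i) A) with hJ1
  let E : Cube n → Prop := fun x => E₀ x ∧ none T b J0 x ∧ ∀ i ∈ J1, ¬ agr (T i \ A) (b i) x
  have hEd : Dep E Aᶜ := by
    intro x y hxy
    refine and_congr (hE x y hxy) (and_congr (dep_none T b J0 Aᶜ (fun i hi => ?_) x y hxy)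
      (forall₂_congr fun i hi => ((dep_agr (T i \ A) (b i)).mono ?_).not x y hxy))
    · intro v hv
      rw [mem_compl]
      exact fun hvA => disjoint_left.1 (mem_filter.1 hi).2 hv hvA
    · intro v hv
      rw [mem_compl]
      exact (mem_sdiff.1 hv).2
  have h1 : (1 / 2) ^ A.card * PP E ≤ PP (fun x => agr A b' x ∧ E₀ x ∧ none T b J x) := by
    rw [← PP_agr A b', ← indep_dep A (agr A b') E (dep_agr A b') hEd]
    refine PP_mono fun x hx => ⟨hx.1, hx.2.1, fun i hi hc => ?_⟩
    by_cases hdj : Disjoint (T i) A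
    · exact hx.2.2.1 i (mem_filter.2 ⟨hi, hdj⟩) hc
    · exact hx.2.2.2 i (mem_filter.2 ⟨hi, hdj⟩) fun v hv => hc v (mem_sdiff.1 hv).1
  have h2 := PP_split (fun x => E₀ x ∧ none T b J x) E J1 (fun k x => agr (T k \ A) (b k) x)
    fun x hx => by
      by_cases h : ∀ i ∈ J1, ¬ agr (T i \ A) (b i) x
      · exact Or.inl ⟨hx.1, fun i hi => hx.2 i (filter_subset _ _ hi), h⟩
      · right
        push Not at h
        exact h
  have h3 : ∑ k ∈ J1, PP (fun x => agr (T k \ A) (b k) x) ≤
      ∑ k ∈ J1, 2 ^ d * (1 / 2 : ℝ) ^ (T k).card := by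
    refine sum_le_sum fun k hk => ?_
    have hkJ : k ∈ J := (mem_filter.1 hk).1
    rw [PP_agr]
    have h6 : (T k).card ≤ (T k \ A).card + d := by
      have := card_sdiff_add_card_inter (T k) A
      have := hd k hkJ
      omega
    calc (1 / 2 : ℝ) ^ (T k \ A).card = 2 ^ d * (1 / 2 : ℝ) ^ ((T k \ A).card + d) := by
          rw [pow_add, mul_left_comm, ← mul_pow]
          norm_num
      _ ≤ 2 ^ d * (1 / 2 : ℝ) ^ (T k).card := by
          refine mul_le_mul_of_nonneg_left (pow_le_pow_of_le_one (by norm_num) (by norm_num) h6)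
            (by positivity)
  have h7 := wt_meets T J J1 A κ hκ (filter_subset _ _) fun i hi =>
    not_disjoint_iff_nonempty_inter.1 (mem_filter.1 hi).2
  have h8 : ∑ k ∈ J1, 2 ^ d * (1 / 2 : ℝ) ^ (T k).card ≤ 2 ^ d * (A.card * κ) := by
    rw [← mul_sum]
    exact mul_le_mul_of_nonneg_left h7 (by positivity)
  refine le_trans (mul_le_mul_of_nonneg_left ?_ (by positivity)) h1
  linarith

theorem card_inter_insert_le (S T : Finset (Fin n)) (j : Fin n) :
    (S ∩ insert j T).card ≤ (S ∩ T).card + 1 := by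
  classical
  refine (card_le_card (t := insert j (S ∩ T)) fun v hv => ?_).trans (card_insert_le _ _)
  rw [mem_inter, mem_insert] at hv
  rw [mem_insert, mem_inter]
  rcases hv with ⟨h1, h2 | h2⟩
  · exact Or.inl h2
  · exact Or.inr ⟨h1, h2⟩

theorem agr_update {A : Finset (Fin n)} {b' : Cube n} {j : Fin n} {v : Bool} (hj : j ∉ A)
    (x : Cube n) : agr A (Function.update b' j v) x ↔ agr A b' x := by
  unfold agr
  refine forall₂_congr fun w hw => ?_
  have : w ≠ j := by rintro rfl; exact hj hw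
  rw [Function.update_of_ne this]

theorem agr_insert_update {A : Finset (Fin n)} {b' : Cube n} {j : Fin n} {v : Bool} (hj : j ∉ A)
    (x : Cube n) : agr (insert j A) (Function.update b' j v) x ↔ agr A b' x ∧ x j = v := by
  rw [← agr_update (v := v) hj]
  unfold agr
  rw [forall_mem_insert, Function.update_self, and_comm]

/-- The probabilities in the neighbourhood of a term. -/
theorem near_prob_G {ι : Type} [DecidableEq ι] (T : ι → Finset (Fin n)) (b : ι → Cube n)
    (I : Finset ι) (i : ι) (hi : i ∈ I) (c : ℕ) (H : Finset (Fin n)) (Q : Cube n → Prop)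
    (hQ : Dep Q H) (κ θ : ℝ) (hM : Meets T I c) (hκ0 : 0 ≤ κ) (hκ : ∀ v, v ∉ H → wv T I v ≤ κ)
    (hcard : (T i ∩ H).card ≤ c) (hw : 2 ^ (c + 1) * (((T i).card + 1) * κ) ≤ θ / 2)
    (h1 : θ ≤ PP (fun x => (none T b I x ∧ Q x) ∧ agr (T i ∩ H) (b i) x))
    (h2 : ∀ (P : Finset (Fin n)) (b' : Cube n), P.card ≤ c + 1 →
      θ ≤ PP (fun x => (none T b I x ∧ Q x) ∧ agr P b' x) ∨ ∀ x, agr P b' x → ¬ Q x) :
    (1 / 2) ^ (T i).card * (θ / 2) ≤
      PP (fun x => agr (T i) (b i) x ∧ none T b (I.erase i) x ∧ Q x) ∧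
    PP (fun x => agr (T i) (b i) x ∧ none T b (I.erase i) x ∧ Q x) ≤ (1 / 2) ^ (T i).card ∧
    ∀ j, j ∉ T i → (∀ v : Bool, (1 / 2) ^ ((T i).card + 1) * (θ / 2) ≤
      PP (fun x => (agr (T i) (b i) x ∧ x j = v) ∧ none T b (I.erase i) x ∧ Q x)) ∨
      ∃ a', ∀ x, agr (T i) (b i) x → Q x → x j = a' := by
  classical
  set J := I.erase i with hJ
  have hJI : J ⊆ I := erase_subset _ _
  set A := T i \ H with hA
  have hAT : A ⊆ T i := sdiff_subset
  have hAc : A.card ≤ (T i).card := card_le_card hAT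
  have hAH : Disjoint A H := sdiff_disjoint
  have hd : ∀ k ∈ J, (T k ∩ A).card ≤ c := fun k hk => by
    have hk' := mem_erase.1 hk
    exact (card_le_card (inter_subset_inter_left hAT)).trans (hM k hk'.2 i hi hk'.1)
  have hκJ : ∀ v, v ∉ H → wv T J v ≤ κ := fun v hv => (wv_mono T I J hJI v).trans (hκ v hv)
  have hθ0 : 0 ≤ θ / 2 := le_trans (by positivity) hw
  -- the basic estimate
  have key : ∀ (A' P : Finset (Fin n)) (b' b'' : Cube n) (d : ℕ), Disjoint A' H → P ⊆ H →
      A'.card ≤ (T i).card + 1 → d ≤ c + 1 → (∀ k ∈ J, (T k ∩ A').card ≤ d) →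
      θ ≤ PP (fun x => (none T b I x ∧ Q x) ∧ agr P b'' x) →
      (1 / 2) ^ A'.card * (θ / 2) ≤
        PP (fun x => agr A' b' x ∧ (agr P b'' x ∧ Q x) ∧ none T b J x) := by
    intro A' P b' b'' d hdis hPH hA'c hdc hdA hθP
    have hHA : H ⊆ A'ᶜ := fun v hv => by
      rw [mem_compl]
      exact fun h => disjoint_left.1 hdis h hv
    have h3 := low_G T b J A' b' (fun x => agr P b'' x ∧ Q x) (by
      intro x y hxy
      exact and_congr ((dep_agr P b'').mono (hPH.trans hHA) x y hxy)
        (hQ.mono hHA x y hxy)) d κ hdA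
      (fun v hv => hκJ v fun h => disjoint_left.1 hdis hv h)
    refine le_trans (mul_le_mul_of_nonneg_left ?_ (by positivity)) h3
    have h4 : θ ≤ PP (fun x => (agr P b'' x ∧ Q x) ∧ none T b J x) :=
      hθP.trans (PP_mono fun x hx => ⟨⟨hx.2, hx.1.2⟩, fun k hk => hx.1.1 k (hJI hk)⟩)
    have h5 : (2 : ℝ) ^ d * (A'.card * κ) ≤ 2 ^ (c + 1) * (((T i).card + 1) * κ) := by
      have e1 : (2 : ℝ) ^ d ≤ 2 ^ (c + 1) := pow_le_pow_right₀ (by norm_num) hdc
      have e2 : (A'.card : ℝ) ≤ (T i).card + 1 := by exact_mod_cast hA'c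
      gcongr
    linarith
  have hsplit : ∀ x, agr (T i) (b i) x ↔ agr A (b i) x ∧ agr (T i ∩ H) (b i) x := by
    intro x
    unfold agr
    constructor
    · intro h
      exact ⟨fun v hv => h v (hAT hv), fun v hv => h v (inter_subset_left hv)⟩
    · rintro ⟨ha, hb⟩ v hv
      by_cases hvH : v ∈ H
      · exact hb v (mem_inter.2 ⟨hv, hvH⟩)
      · exact ha v (mem_sdiff.2 ⟨hv, hvH⟩)
  refine ⟨?_, ?_, ?_⟩
  · have h3 := key A (T i ∩ H) (b i) (b i) c hAH inter_subset_right (by omega) (by omega) hd h1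
    have h4 : (1 / 2 : ℝ) ^ (T i).card ≤ (1 / 2) ^ A.card :=
      pow_le_pow_of_le_one (by norm_num) (by norm_num) hAc
    refine le_trans (mul_le_mul_of_nonneg_right h4 hθ0) (h3.trans (PP_mono fun x hx => ?_))
    exact ⟨(hsplit x).2 ⟨hx.1, hx.2.1.1⟩, hx.2.2, hx.2.1.2⟩
  · rw [← PP_agr (T i) (b i)]
    exact PP_mono fun x hx => hx.1
  · intro j hj
    by_cases hjH : j ∈ H
    · -- `j` is heavy
      have hjP : j ∉ T i ∩ H := fun h => hj (inter_subset_left h)
      by_cases hall : ∀ v : Bool, θ ≤ PP (fun x => (none T b I x ∧ Q x) ∧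
          agr (insert j (T i ∩ H)) (Function.update (b i) j v) x)
      · left
        intro v
        have h3 := key A (insert j (T i ∩ H)) (b i) (Function.update (b i) j v) c hAH
          (insert_subset hjH inter_subset_right) (by omega) (by omega) hd (hall v)
        have h4 : (1 / 2 : ℝ) ^ ((T i).card + 1) ≤ (1 / 2) ^ A.card :=
          pow_le_pow_of_le_one (by norm_num) (by norm_num) (by omega)
        refine le_trans (mul_le_mul_of_nonneg_right h4 hθ0) (h3.trans (PP_mono fun x hx => ?_))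
        have h5 := (agr_insert_update hjP x).1 hx.2.1.1
        exact ⟨⟨(hsplit x).2 ⟨hx.1, h5.1⟩, h5.2⟩, hx.2.2, hx.2.1.2⟩
      · right
        push Not at hall
        obtain ⟨v, hv⟩ := hall
        have hc2 : (insert j (T i ∩ H)).card ≤ c + 1 := by
          rw [card_insert_of_notMem hjP]; omega
        rcases h2 (insert j (T i ∩ H)) (Function.update (b i) j v) hc2 with h | h
        · exact absurd h (not_le.2 hv)
        · refine ⟨!v, fun x hx hxQ => ?_⟩
          by_contra hne
          have hxv : x j = v := by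
            cases hxj : x j <;> cases v <;> simp_all
          exact h x ((agr_insert_update hjP x).2 ⟨((hsplit x).1 hx).2, hxv⟩) hxQ
    · -- `j` is light
      left
      intro v
      have hjA : j ∉ A := fun h => hj (hAT h)
      have hdis : Disjoint (insert j A) H := by
        rw [disjoint_insert_left]
        exact ⟨hjH, hAH⟩
      have h3 := key (insert j A) (T i ∩ H) (Function.update (b i) j v) (b i) (c + 1) hdis
        inter_subset_right (by rw [card_insert_of_notMem hjA]; omega) le_rfl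
        (fun k hk => (card_inter_insert_le _ _ _).trans (Nat.add_le_add_right (hd k hk) 1)) h1
      have h4 : (1 / 2 : ℝ) ^ ((T i).card + 1) ≤ (1 / 2) ^ (insert j A).card :=
        pow_le_pow_of_le_one (by norm_num) (by norm_num)
          (by rw [card_insert_of_notMem hjA]; omega)
      refine le_trans (mul_le_mul_of_nonneg_right h4 hθ0) (h3.trans (PP_mono fun x hx => ?_))
      have h5 := (agr_insert_update hjA x).1 hx.1
      exact ⟨⟨(hsplit x).2 ⟨h5.1, hx.2.1.1⟩, h5.2⟩, hx.2.2, hx.2.1.2⟩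

end Pool.Agent.H70.LD
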