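import Pool.Agent.H70.LD.Leaves
import Pool.Agent.Helper91K9.DL.Lll

/-!
# Leaf NOISE
-/

namespace Pool.Agent.H70.LD

open Finset Pool.Agent.Helper91K9.DL

variable {n : ℕ}

open Classical in
theorem noise_card {ι : Type} (J : Finset ι) (T : ι → Finset (Fin n)) (S : Finset (Fin n)) (c : ℕ)
    (hM : Meets T J c) (hS : ∀ i ∈ J, (T i ∩ S).card ≤ c) (D : Finset ι) (hD : D ⊆ J) :
    ∑ i ∈ D, (T i).card ≤ (D.biUnion fun i => T i \ S).card + c * D.card ^ 2 := by
  induction D using Finset.induction_on with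
  | empty => simp
  | insert i D hi ih =>
    have hD' : D ⊆ J := fun x hx => hD (mem_insert_of_mem hx)
    have hiJ : i ∈ J := hD (mem_insert_self _ _)
    have ih' := ih hD'
    rw [sum_insert hi, biUnion_insert, card_insert_of_notMem hi]
    have h1 : (T i ∩ D.biUnion fun i => T i \ S).card ≤ D.card * c := by
      rw [inter_biUnion]
      refine card_biUnion_le_card_mul _ _ _ fun k hk => ?_
      have hne : i ≠ k := by rintro rfl; exact hi hk
      exact (card_le_card (inter_subset_inter_left sdiff_subset)).trans (hM i hiJ k (hD' hk) hne)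
    have h2 : (T i).card ≤ ((T i \ S) \ (D.biUnion fun i => T i \ S)).card + (T i ∩ S).card +
        (T i ∩ D.biUnion fun i => T i \ S).card := by
      have : T i ⊆ (((T i \ S) \ (D.biUnion fun i => T i \ S)) ∪ (T i ∩ S)) ∪
        (T i ∩ D.biUnion fun i => T i \ S) := by
        intro x hx
        by_cases h3 : x ∈ S
        · simp [hx, h3]
        · by_cases h4 : x ∈ D.biUnion fun i => T i \ S
          · exact mem_union_right _ (mem_inter.2 ⟨hx, h4⟩)
          · exact mem_union_left _ (mem_union_left _ (mem_sdiff.2 ⟨mem_sdiff.2 ⟨hx, h3⟩, h4⟩))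
      exact (card_le_card this).trans ((card_union_le _ _).trans
        (Nat.add_le_add_right (card_union_le _ _) _))
    have h3 : ((T i \ S) ∪ D.biUnion fun i => T i \ S).card =
        ((T i \ S) \ (D.biUnion fun i => T i \ S)).card + (D.biUnion fun i => T i \ S).card := by
      rw [← card_sdiff_add_card]
    have h4 := hS i hiJ
    rw [h3]
    nlinarith

open Classical in
theorem noise_prob {ι : Type} (T : ι → Finset (Fin n)) (a : ι → Cube n) (S : Finset (Fin n))
    (D : Finset ι) : PP (fun x => ∀ i ∈ D, agr (T i \ S) (a i) x) ≤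
      (1 / 2) ^ (D.biUnion fun i => T i \ S).card := by
  by_cases h : ∃ x₀ : Cube n, ∀ i ∈ D, agr (T i \ S) (a i) x₀
  · obtain ⟨x₀, h0⟩ := h
    rw [← PP_agr _ x₀]
    refine PP_mono fun x hx v hv => ?_
    obtain ⟨i, hi, hvi⟩ := mem_biUnion.1 hv
    rw [hx i hi v hvi, h0 i hi v hvi]
  · have : PP (fun x : Cube n => ∀ i ∈ D, agr (T i \ S) (a i) x) = 0 := by
      rw [PP_eq, filter_eq_empty_iff.2]
      · simp
      · intro x _ hx
        exact h ⟨x, hx⟩
    rw [this]
    positivity

theorem noise : S_NOISE := by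
  classical
  intro n ι J T a S c j κ hc hcj hM hS hκ
  set P := J.filter (fun i => (T i ∩ S).Nonempty) with hP
  have hW : ∑ i ∈ P, (1 / 2 : ℝ) ^ (T i).card ≤ S.card * κ := by
    calc ∑ i ∈ P, (1 / 2 : ℝ) ^ (T i).card
        ≤ ∑ i ∈ P, ∑ v ∈ S, (if v ∈ T i then (1 / 2 : ℝ) ^ (T i).card else 0) := by
          refine sum_le_sum fun i hi => ?_
          obtain ⟨v, hv⟩ := (mem_filter.1 hi).2
          rw [mem_inter] at hv
          have := single_le_sum (f := fun v => (if v ∈ T i then (1 / 2 : ℝ) ^ (T i).card else 0))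
            (s := S) (fun w _ => by positivity) hv.2
          simpa [hv.1] using this
      _ = ∑ v ∈ S, ∑ i ∈ P, (if v ∈ T i then (1 / 2 : ℝ) ^ (T i).card else 0) := sum_comm
      _ ≤ ∑ v ∈ S, wv T J v := by
          refine sum_le_sum fun v _ => ?_
          rw [← sum_filter]
          unfold wv
          refine sum_le_sum_of_subset_of_nonneg (fun i hi => ?_) fun i _ _ => by positivity
          rw [mem_filter] at hi ⊢
          exact ⟨(mem_filter.1 hi.1).1, hi.2⟩
      _ ≤ ∑ _v ∈ S, κ := sum_le_sum hκ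
      _ = S.card * κ := by simp
  have hev : ∀ x, (∀ v ∈ S, ∃ i ∈ J, v ∈ T i ∧ agr (T i \ S) (a i) x) →
      ∃ f ∈ (Fintype.piFinset fun _ : Fin j => P).filter (fun f => Function.Injective f),
        ∀ k, agr (T (f k) \ S) (a (f k)) x := by
    intro x hx
    set A := P.filter (fun i => agr (T i \ S) (a i) x) with hA
    have h1 : S ⊆ A.biUnion fun i => T i ∩ S := by
      intro v hv
      obtain ⟨i, hi, hvi, h⟩ := hx v hv
      rw [mem_biUnion]
      exact ⟨i, mem_filter.2 ⟨mem_filter.2 ⟨hi, ⟨v, mem_inter.2 ⟨hvi, hv⟩⟩⟩, h⟩,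
        mem_inter.2 ⟨hvi, hv⟩⟩
    have h2 : S.card ≤ A.card * c := (card_le_card h1).trans
      (card_biUnion_le_card_mul _ _ _ fun i hi => hS i (mem_filter.1 (mem_filter.1 hi).1).1)
    have h3 : j ≤ A.card := by
      by_contra h4
      push Not at h4
      have : (A.card + 1) * c ≤ j * c := Nat.mul_le_mul_right _ h4
      nlinarith
    have h4 : Fintype.card (Fin j) ≤ Fintype.card A := by simpa using h3
    obtain ⟨e⟩ := Function.Embedding.nonempty_of_card_le h4
    refine ⟨fun k => (e k : ι), ?_, ?_⟩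
    · rw [mem_filter, Fintype.mem_piFinset]
      refine ⟨fun k => (mem_filter.1 (e k).2).1, ?_⟩
      intro k k' hk
      exact e.injective (Subtype.ext hk)
    · intro k
      exact (mem_filter.1 (e k).2).2
  refine (PP_mono hev).trans ((PP_exists_le _ _).trans ?_)
  have hprob : ∀ f ∈ (Fintype.piFinset fun _ : Fin j => P).filter (fun f => Function.Injective f),
      PP (fun x => ∀ k, agr (T (f k) \ S) (a (f k)) x) ≤
        2 ^ (c * j ^ 2) * ∏ k, (1 / 2 : ℝ) ^ (T (f k)).card := by
    intro f hf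
    rw [mem_filter, Fintype.mem_piFinset] at hf
    obtain ⟨hfP, hfi⟩ := hf
    set D := univ.image f with hD
    have hDJ : D ⊆ J := by
      intro i hi
      obtain ⟨k, _, rfl⟩ := mem_image.1 hi
      exact (mem_filter.1 (hfP k)).1
    have hDc : D.card = j := by
      rw [hD, card_image_of_injective _ hfi]
      simp
    have h1 := noise_card J T S c hM hS D hDJ
    have h2 := noise_prob T a S D
    have h3 : PP (fun x => ∀ k, agr (T (f k) \ S) (a (f k)) x) =
        PP (fun x => ∀ i ∈ D, agr (T i \ S) (a i) x) := by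
      refine PP_congr fun x => ?_
      simp [hD]
    have h4 : ∏ k, (1 / 2 : ℝ) ^ (T (f k)).card = (1 / 2 : ℝ) ^ (∑ i ∈ D, (T i).card) := by
      rw [prod_pow_eq_pow_sum, hD, sum_image (fun k _ k' _ h => hfi h)]
    rw [h3, h4]
    refine h2.trans ?_
    rw [hDc] at h1
    have h5 : (1 / 2 : ℝ) ^ ((D.biUnion fun i => T i \ S).card + c * j ^ 2) ≤
        (1 / 2 : ℝ) ^ (∑ i ∈ D, (T i).card) :=
      pow_le_pow_of_le_one (by norm_num) (by norm_num) h1
    calc (1 / 2 : ℝ) ^ (D.biUnion fun i => T i \ S).card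
        = 2 ^ (c * j ^ 2) * (1 / 2 : ℝ) ^ ((D.biUnion fun i => T i \ S).card + c * j ^ 2) := by
          rw [pow_add, mul_left_comm, ← mul_pow]
          norm_num
      _ ≤ _ := mul_le_mul_of_nonneg_left h5 (by positivity)
  refine (sum_le_sum hprob).trans ?_
  rw [← mul_sum]
  refine mul_le_mul_of_nonneg_left ?_ (by positivity)
  calc ∑ f ∈ (Fintype.piFinset fun _ : Fin j => P).filter (fun f => Function.Injective f),
        ∏ k, (1 / 2 : ℝ) ^ (T (f k)).card
      ≤ ∑ f ∈ Fintype.piFinset fun _ : Fin j => P, ∏ k, (1 / 2 : ℝ) ^ (T (f k)).card :=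
        sum_le_sum_of_subset_of_nonneg (filter_subset _ _) fun f _ _ => by positivity
    _ = ∏ _k : Fin j, ∑ i ∈ P, (1 / 2 : ℝ) ^ (T i).card := by
        rw [prod_univ_sum]
    _ = (∑ i ∈ P, (1 / 2 : ℝ) ^ (T i).card) ^ j := by simp
    _ ≤ _ := pow_le_pow_left₀ (sum_nonneg fun i _ => by positivity) hW _

end Pool.Agent.H70.LD
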