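import Pool.Agent.H70.LD.Leaves
import Pool.Agent.Helper91K9.DL.Lll

/-!
# Leaf WLLL
-/

namespace Pool.Agent.H70.LD

open Finset Pool.Agent.Helper91K9.DL

variable {n : ℕ}

open Classical in
theorem wt_meets {ι : Type} (T : ι → Finset (Fin n)) (J P : Finset ι) (B : Finset (Fin n)) (κ : ℝ)
    (hκ : ∀ v ∈ B, wv T J v ≤ κ) (hPJ : P ⊆ J) (hP : ∀ i ∈ P, (T i ∩ B).Nonempty) :
    ∑ i ∈ P, (1 / 2 : ℝ) ^ (T i).card ≤ B.card * κ := by
  calc ∑ i ∈ P, (1 / 2 : ℝ) ^ (T i).card
      ≤ ∑ i ∈ P, ∑ v ∈ B, (if v ∈ T i then (1 / 2 : ℝ) ^ (T i).card else 0) := by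
        refine sum_le_sum fun i hi => ?_
        obtain ⟨v, hv⟩ := hP i hi
        rw [mem_inter] at hv
        have := single_le_sum (f := fun v => (if v ∈ T i then (1 / 2 : ℝ) ^ (T i).card else 0))
          (s := B) (fun w _ => by positivity) hv.2
        simpa [hv.1] using this
    _ = ∑ v ∈ B, ∑ i ∈ P, (if v ∈ T i then (1 / 2 : ℝ) ^ (T i).card else 0) := sum_comm
    _ ≤ ∑ v ∈ B, wv T J v := by
        refine sum_le_sum fun v _ => ?_
        rw [← sum_filter]
        unfold wv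
        refine sum_le_sum_of_subset_of_nonneg (fun i hi => ?_) fun i _ _ => by positivity
        rw [mem_filter] at hi ⊢
        exact ⟨hPJ hi.1, hi.2⟩
    _ ≤ ∑ _v ∈ B, κ := sum_le_sum hκ
    _ = B.card * κ := by simp

theorem PP_split {ι : Type} (P Q : Cube n → Prop) (s : Finset ι) (R : ι → Cube n → Prop)
    (h : ∀ x, P x → Q x ∨ ∃ k ∈ s, R k x) : PP P ≤ PP Q + ∑ k ∈ s, PP (R k) :=
  (PP_mono h).trans ((PP_or_le _ _).trans (by gcongr; exact PP_exists_le _ _))

theorem dep_none {ι : Type} (T : ι → Finset (Fin n)) (a : ι → Cube n) (J : Finset ι)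
    (S : Finset (Fin n)) (h : ∀ i ∈ J, T i ⊆ S) : Dep (none T a J) S := by
  unfold none
  exact Dep.forall_mem fun i hi => ((dep_agr (T i) (a i)).mono (h i hi)).not

open Classical in
theorem wlll_aux {ι : Type} (T : ι → Finset (Fin n)) (a : ι → Cube n) (J : Finset ι) (κ : ℝ)
    (hκ : ∀ v, wv T J v ≤ κ) (hw : ∀ i ∈ J, (T i).card * κ ≤ 1 / 4) (J' : Finset ι) :
    J' ⊆ J → ∀ (B : Finset (Fin n)) (b : Cube n), B.card * κ ≤ 1 / 4 →
      PP (fun x => agr B b x ∧ none T a J' x) ≤ 2 * (1 / 2) ^ B.card * PP (none T a J') := by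
  induction J' using Finset.strongInduction with
  | H J' ih =>
    intro hJ B b hB
    set J1 := J'.filter (fun i => Disjoint (T i) B) with hJ1
    have hJ1' : J1 ⊆ J' := filter_subset _ _
    have h1 : PP (fun x => agr B b x ∧ none T a J' x) ≤ (1 / 2) ^ B.card * PP (none T a J1) := by
      rw [← PP_agr B b, ← indep_dep B (agr B b) (none T a J1) (dep_agr B b)
        (dep_none T a J1 _ fun i hi => by
          intro v hv
          rw [mem_compl]
          intro hvB
          exact disjoint_left.1 (mem_filter.1 hi).2 hv hvB)]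
      exact PP_mono fun x hx => ⟨hx.1, fun i hi => hx.2 i (hJ1' hi)⟩
    have h2 : PP (none T a J1) ≤ 2 * PP (none T a J') := by
      by_cases he : J1 = J'
      · rw [he]
        linarith [PP_nonneg (none T a J')]
      have hss : J1 ⊂ J' := Finset.ssubset_iff_subset_ne.2 ⟨hJ1', he⟩
      have h3 := PP_split (none T a J1) (none T a J') (J' \ J1)
        (fun k x => agr (T k) (a k) x ∧ none T a J1 x) fun x hx => by
          by_cases h : none T a J' x
          · exact Or.inl h
          · right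
            unfold none at h
            push Not at h
            obtain ⟨k, hk, hk2⟩ := h
            exact ⟨k, mem_sdiff.2 ⟨hk, fun hk1 => hx k hk1 hk2⟩, hk2, hx⟩
      have h4 : ∑ k ∈ J' \ J1, PP (fun x => agr (T k) (a k) x ∧ none T a J1 x) ≤
          ∑ k ∈ J' \ J1, 2 * (1 / 2 : ℝ) ^ (T k).card * PP (none T a J1) := by
        refine sum_le_sum fun k hk => ?_
        have hkJ : k ∈ J := hJ (mem_sdiff.1 hk).1
        exact ih J1 hss (hJ1'.trans hJ) (T k) (a k) (hw k hkJ)
      have h5 := wt_meets T J (J' \ J1) B κ (fun v _ => hκ v) (sdiff_subset.trans hJ) fun i hi => by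
        rw [mem_sdiff, mem_filter] at hi
        have : ¬ Disjoint (T i) B := fun hd => hi.2 ⟨hi.1, hd⟩
        exact not_disjoint_iff_nonempty_inter.1 this
      have h6 : ∑ k ∈ J' \ J1, 2 * (1 / 2 : ℝ) ^ (T k).card * PP (none T a J1) =
          2 * (∑ k ∈ J' \ J1, (1 / 2 : ℝ) ^ (T k).card) * PP (none T a J1) := by
        rw [mul_sum, sum_mul]
      have h7 : 2 * (∑ k ∈ J' \ J1, (1 / 2 : ℝ) ^ (T k).card) * PP (none T a J1) ≤
          1 / 2 * PP (none T a J1) :=
        mul_le_mul_of_nonneg_right (by linarith) (PP_nonneg _)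
      linarith
    calc PP (fun x => agr B b x ∧ none T a J' x) ≤ (1 / 2) ^ B.card * PP (none T a J1) := h1
      _ ≤ (1 / 2) ^ B.card * (2 * PP (none T a J')) :=
        mul_le_mul_of_nonneg_left h2 (by positivity)
      _ = _ := by ring

theorem wlll : S_WLLL := by
  classical
  intro n ι J T a A b c κ hκ0 hκ hw hA hc
  set J0 := J.filter (fun i => Disjoint (T i) A) with hJ0
  set J1 := J.filter (fun i => ¬ Disjoint (T i) A) with hJ1
  -- the event that is independent of `A`
  let E : Cube n → Prop := fun x => none T a J0 x ∧ ∀ i ∈ J1, ¬ agr (T i \ A) (a i) x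
  have hE : Dep E Aᶜ := by
    intro x y hxy
    refine and_congr (dep_none T a J0 Aᶜ (fun i hi => ?_) x y hxy)
      (forall₂_congr fun i hi => ((dep_agr (T i \ A) (a i)).mono ?_).not x y hxy)
    · intro v hv
      rw [mem_compl]
      exact fun hvA => disjoint_left.1 (mem_filter.1 hi).2 hv hvA
    · intro v hv
      rw [mem_compl]
      exact (mem_sdiff.1 hv).2
  have h1 : (1 / 2) ^ A.card * PP E ≤ PP (fun x => agr A b x ∧ none T a J x) := by
    rw [← PP_agr A b, ← indep_dep A (agr A b) E (dep_agr A b) hE]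
    refine PP_mono fun x hx => ⟨hx.1, fun i hi hc => ?_⟩
    by_cases hd : Disjoint (T i) A
    · exact hx.2.1 i (mem_filter.2 ⟨hi, hd⟩) hc
    · exact hx.2.2 i (mem_filter.2 ⟨hi, hd⟩) fun v hv => hc v (mem_sdiff.1 hv).1
  have h2 := PP_split (none T a J0) E J1 (fun k x => agr (T k \ A) (a k) x ∧ none T a J0 x)
    fun x hx => by
      by_cases h : ∀ i ∈ J1, ¬ agr (T i \ A) (a i) x
      · exact Or.inl ⟨hx, h⟩
      · right
        push Not at h
        obtain ⟨k, hk, hk2⟩ := h
        exact ⟨k, hk, hk2, hx⟩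
  have h3 : ∑ k ∈ J1, PP (fun x => agr (T k \ A) (a k) x ∧ none T a J0 x) ≤
      ∑ k ∈ J1, 2 * (2 ^ c * (1 / 2 : ℝ) ^ (T k).card) * PP (none T a J0) := by
    refine sum_le_sum fun k hk => ?_
    have hkJ : k ∈ J := (mem_filter.1 hk).1
    have h4 : ((T k \ A).card : ℝ) ≤ (T k).card := by
      exact_mod_cast card_le_card sdiff_subset
    have h5 := wlll_aux T a J κ hκ hw J0 (filter_subset _ _) (T k \ A) (a k)
      ((mul_le_mul_of_nonneg_right h4 hκ0).trans (hw k hkJ))
    refine h5.trans (mul_le_mul_of_nonneg_right (mul_le_mul_of_nonneg_left ?_ (by norm_num))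
      (PP_nonneg _))
    have h6 : (T k).card ≤ (T k \ A).card + c := by
      have := card_sdiff_add_card_inter (T k) A
      have := hc k hkJ
      omega
    calc (1 / 2 : ℝ) ^ (T k \ A).card = 2 ^ c * (1 / 2 : ℝ) ^ ((T k \ A).card + c) := by
          rw [pow_add, mul_left_comm, ← mul_pow]
          norm_num
      _ ≤ 2 ^ c * (1 / 2 : ℝ) ^ (T k).card := by
          refine mul_le_mul_of_nonneg_left (pow_le_pow_of_le_one (by norm_num) (by norm_num) h6)
            (by positivity)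
  have h7 := wt_meets T J J1 A κ (fun v _ => hκ v) (filter_subset _ _) fun i hi =>
    not_disjoint_iff_nonempty_inter.1 (mem_filter.1 hi).2
  have h8 : ∑ k ∈ J1, 2 * (2 ^ c * (1 / 2 : ℝ) ^ (T k).card) * PP (none T a J0) =
      2 * 2 ^ c * (∑ k ∈ J1, (1 / 2 : ℝ) ^ (T k).card) * PP (none T a J0) := by
    rw [mul_sum, sum_mul]
    exact sum_congr rfl fun _ _ => by ring
  have h9 : 2 * 2 ^ c * (∑ k ∈ J1, (1 / 2 : ℝ) ^ (T k).card) * PP (none T a J0) ≤
      1 / 2 * PP (none T a J0) := by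
    refine mul_le_mul_of_nonneg_right ?_ (PP_nonneg _)
    have : 2 * 2 ^ c * (∑ k ∈ J1, (1 / 2 : ℝ) ^ (T k).card) ≤ 2 * 2 ^ c * (A.card * κ) :=
      mul_le_mul_of_nonneg_left h7 (by positivity)
    have h10 : (A.card * κ * 2 ^ (c + 2) : ℝ) = 2 * (2 * 2 ^ c * (A.card * κ)) := by ring
    linarith
  have h11 : PP (none T a J) ≤ PP (none T a J0) :=
    PP_mono fun x hx i hi => hx i (filter_subset _ _ hi)
  have h12 : 1 / 2 * PP (none T a J) ≤ PP E := by linarith
  calc (1 / 2) ^ (A.card + 1) * PP (none T a J) = (1 / 2) ^ A.card * (1 / 2 * PP (none T a J)) := by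
        ring
    _ ≤ (1 / 2) ^ A.card * PP E := mul_le_mul_of_nonneg_left h12 (by positivity)
    _ ≤ _ := h1

end Pool.Agent.H70.LD
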