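import Pool.Agent.H70.LD.Inj
import Pool.Agent.H70.LD.Noise
import Pool.Agent.H70.LD.Wlll
import Pool.Agent.H70.LD.Cand

/-!
# Formulas in which every variable has a small weight: the terms that are found
-/

namespace Pool.Agent.H70.LD

open Finset Pool.Agent.Helper91K9.DL

variable {n m : ℕ}

theorem far_sum {ι : Type} (T : ι → Finset (Fin n)) (J : Finset ι) (c w : ℕ) (hM : Meets T J c)
    (hcw : c ≤ w) : ∑ k ∈ J.filter (fun k => w < (T k).card), (1 / 2 : ℝ) ^ (T k).card ≤
      n ^ (c + 1) * (1 / 2) ^ (w + 1) := by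
  classical
  have h1 := inj n ι (J.filter (fun k => w < (T k).card)) T univ c
    (fun i hi j hj => hM i (mem_filter.1 hi).1 j (mem_filter.1 hj).1) fun i hi => by
      rw [inter_univ]
      have := (mem_filter.1 hi).2
      omega
  rw [card_univ, Fintype.card_fin] at h1
  refine (sum_le_card_nsmul _ _ ((1 / 2 : ℝ) ^ (w + 1)) fun k hk =>
    pow_le_pow_of_le_one (by norm_num) (by norm_num) (mem_filter.1 hk).2).trans ?_
  rw [nsmul_eq_mul]
  exact mul_le_mul_of_nonneg_right (by exact_mod_cast h1) (by positivity)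

open Classical in
theorem wv_mono {ι : Type} (T : ι → Finset (Fin n)) (J J' : Finset ι) (h : J' ⊆ J) (v : Fin n) :
    wv T J' v ≤ wv T J v := by
  unfold wv
  refine sum_le_sum_of_subset_of_nonneg (fun i hi => ?_) fun i _ _ => by positivity
  rw [mem_filter] at hi ⊢
  exact ⟨h hi.1, hi.2⟩

theorem Meets.mono {ι : Type} {T : ι → Finset (Fin n)} {J J' : Finset ι} {c : ℕ}
    (hM : Meets T J c) (h : J' ⊆ J) : Meets T J' c := fun i hi j hj => hM i (h hi) j (h hj)

/-- The probabilities in the neighbourhood of a term. -/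
theorem near_prob {ι : Type} [DecidableEq ι] (T : ι → Finset (Fin n)) (b : ι → Cube n)
    (I : Finset ι) (i : ι) (hi : i ∈ I) (c w₁ w₂ : ℕ) (κ δ : ℝ) (hκ0 : 0 ≤ κ)
    (hM : Meets T I c) (hκ : ∀ v, wv T I v ≤ κ) (hw1 : (T i).card ≤ w₁) (h12 : w₁ ≤ w₂)
    (hw2 : w₂ * κ ≤ 1 / 4) (hw3 : (w₁ + 1) * κ * 2 ^ (c + 3) ≤ 1) (hc : c ≤ w₂)
    (hδ : δ ≤ PP (none T b I))
    (hfar : n ^ (c + 1) * (1 / 2 : ℝ) ^ (w₂ + 1) ≤ δ / 32 * (1 / 2) ^ w₁) (hδ0 : 0 < δ) :
    15 / 32 * (δ * (1 / 2) ^ w₁) ≤
      PP (fun x => agr (T i) (b i) x ∧ none T b (I.erase i) x ∧ True) ∧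
    ∀ j, j ∉ T i → ∀ v : Bool,
      PP (fun x => agr (T i) (b i) x ∧ none T b (I.erase i) x ∧ True) ≤
        16 * PP (fun x => (agr (T i) (b i) x ∧ x j = v) ∧ none T b (I.erase i) x ∧ True) := by
  classical
  set J := I.erase i with hJ
  have hJI : J ⊆ I := erase_subset _ _
  set J₂ := J.filter (fun k => (T k).card ≤ w₂) with hJ₂
  have hJ₂J : J₂ ⊆ J := filter_subset _ _
  have hJ₂I : J₂ ⊆ I := hJ₂J.trans hJI
  set P := PP (none T b J₂) with hP
  have hPδ : δ ≤ P := hδ.trans (PP_mono fun x hx k hk => hx k (hJ₂I hk))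
  have hκ' : ∀ v, wv T J₂ v ≤ κ := fun v => (wv_mono T I J₂ hJ₂I v).trans (hκ v)
  have hwk : ∀ k ∈ J₂, ((T k).card : ℝ) * κ ≤ 1 / 4 := fun k hk => by
    refine le_trans (mul_le_mul_of_nonneg_right ?_ hκ0) hw2
    exact_mod_cast (mem_filter.1 hk).2
  have hwi : ((T i).card : ℝ) * κ ≤ 1 / 4 := by
    refine le_trans (mul_le_mul_of_nonneg_right ?_ hκ0) hw2
    exact_mod_cast hw1.trans h12
  set φ := ∑ k ∈ J.filter (fun k => w₂ < (T k).card), (1 / 2 : ℝ) ^ (T k).card with hφ
  have hφ1 : φ ≤ P / 32 * (1 / 2) ^ (T i).card := by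
    calc φ ≤ n ^ (c + 1) * (1 / 2 : ℝ) ^ (w₂ + 1) := far_sum T J c w₂ (hM.mono hJI) hc
      _ ≤ δ / 32 * (1 / 2) ^ w₁ := hfar
      _ ≤ P / 32 * (1 / 2) ^ (T i).card := by
          refine mul_le_mul (by linarith) (pow_le_pow_of_le_one (by norm_num) (by norm_num) hw1)
            (by positivity) (by linarith)
  -- upper bound
  have hup : PP (fun x => agr (T i) (b i) x ∧ none T b J x ∧ True) ≤
      2 * (1 / 2) ^ (T i).card * P := by
    refine le_trans (PP_mono fun x hx => ?_) (wlll_aux T b J₂ κ hκ' hwk J₂ (Subset.refl _) (T i)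
      (b i) hwi)
    exact ⟨hx.1, fun k hk => hx.2.1 k (hJ₂J hk)⟩
  -- lower bound
  have hlow : ∀ (A : Finset (Fin n)) (b' : Cube n), T i ⊆ A → A.card ≤ (T i).card + 1 →
      (1 / 2) ^ (A.card + 1) * P - P / 32 * (1 / 2) ^ (T i).card ≤
        PP (fun x => agr A b' x ∧ none T b J x) := by
    intro A b' hTA hAc
    have h1 := wlll n ι J₂ T b A b' (c + 1) κ hκ0 hκ' hwk (by
      refine le_trans ?_ hw3
      have : (A.card : ℝ) ≤ w₁ + 1 := by exact_mod_cast hAc.trans (by omega)
      have h2 : (2 : ℝ) ^ (c + 1 + 2) = 2 ^ (c + 3) := by ring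
      rw [h2]
      gcongr) (fun k hk => by
      have hk' := mem_erase.1 (hJ₂J hk)
      have h2 : (T k ∩ A).card ≤ (T k ∩ T i).card + (A \ T i).card := by
        refine (card_le_card (t := (T k ∩ T i) ∪ (A \ T i)) fun v hv => ?_).trans
          (card_union_le _ _)
        rw [mem_inter] at hv
        rw [mem_union, mem_inter, mem_sdiff]
        by_cases h : v ∈ T i
        · exact Or.inl ⟨hv.1, h⟩
        · exact Or.inr ⟨hv.2, h⟩
      have h3 := hM k hk'.2 i hi hk'.1
      have h4 := card_sdiff_add_card_eq_card hTA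
      omega)
    have h2 := PP_split (fun x => agr A b' x ∧ none T b J₂ x)
      (fun x => agr A b' x ∧ none T b J x) (J.filter (fun k => w₂ < (T k).card))
      (fun k x => agr (T k) (b k) x) fun x hx => by
        by_cases h : none T b J x
        · exact Or.inl ⟨hx.1, h⟩
        · right
          unfold none at h
          push Not at h
          obtain ⟨k, hk, hk2⟩ := h
          refine ⟨k, mem_filter.2 ⟨hk, ?_⟩, hk2⟩
          by_contra hle
          exact hx.2 k (mem_filter.2 ⟨hk, not_lt.1 hle⟩) hk2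
    have h3 : ∑ k ∈ J.filter (fun k => w₂ < (T k).card), PP (fun x => agr (T k) (b k) x) = φ :=
      sum_congr rfl fun k _ => PP_agr _ _
    rw [h3] at h2
    linarith
  have hP0 : 0 < P := lt_of_lt_of_le hδ0 hPδ
  refine ⟨?_, fun j hj v => ?_⟩
  · have h1 := hlow (T i) (b i) (Subset.refl _) (Nat.le_succ _)
    have h2 : PP (fun x => agr (T i) (b i) x ∧ none T b J x ∧ True) =
        PP (fun x => agr (T i) (b i) x ∧ none T b J x) := PP_congr fun x => by simp
    rw [h2]
    refine le_trans ?_ h1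
    rw [pow_succ]
    have h3 : δ * (1 / 2) ^ w₁ ≤ P * (1 / 2) ^ (T i).card :=
      mul_le_mul hPδ (pow_le_pow_of_le_one (by norm_num) (by norm_num) hw1) (by positivity) hP0.le
    nlinarith
  · have h1 := hlow (insert j (T i)) (Function.update (b i) j v) (subset_insert _ _)
      (by rw [card_insert_of_notMem hj])
    rw [card_insert_of_notMem hj] at h1
    have h2 : PP (fun x => (agr (T i) (b i) x ∧ x j = v) ∧ none T b J x ∧ True) =
        PP (fun x => agr (insert j (T i)) (Function.update (b i) j v) x ∧ none T b J x) := by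
      refine PP_congr fun x => ?_
      have : agr (insert j (T i)) (Function.update (b i) j v) x ↔
          agr (T i) (b i) x ∧ x j = v := by
        unfold agr
        rw [forall_mem_insert, Function.update_self, and_comm]
        refine and_congr_left fun _ => forall₂_congr fun w hw => ?_
        have : w ≠ j := by rintro rfl; exact hj hw
        rw [Function.update_of_ne this]
      rw [this]
      simp
    rw [h2]
    refine hup.trans ?_
    have h3 : 0 < P * (1 / 2) ^ (T i).card := by positivity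
    have h4 : (1 / 2 : ℝ) ^ ((T i).card + 1 + 1) = 1 / 4 * (1 / 2) ^ (T i).card := by ring
    rw [h4] at h1
    nlinarith

end Pool.Agent.H70.LD
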