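import Pool.Agent.H70.LD.Inj

/-!
# Leaf HC
-/

namespace Pool.Agent.H70.LD

open Finset Pool.Agent.Helper91K9.DL

variable {n : ℕ}

open Classical in
theorem sum_wv {ι : Type} (T : ι → Finset (Fin n)) (J : Finset ι) (H : Finset (Fin n)) :
    ∑ v ∈ H, wv T J v = ∑ i ∈ J, ((T i ∩ H).card : ℝ) * (1 / 2) ^ (T i).card := by
  have h1 : ∀ v, wv T J v = ∑ i ∈ J, if v ∈ T i then (1 / 2 : ℝ) ^ (T i).card else 0 := fun v => by
    unfold wv
    rw [sum_filter]
  simp_rw [h1]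
  rw [sum_comm]
  refine sum_congr rfl fun i _ => ?_
  rw [← sum_filter, sum_const, nsmul_eq_mul]
  congr 3
  ext v
  simp [and_comm]

/-- Arithmetic. -/
theorem hc_arith (c k w s : ℕ) (hs2 : w < 4 * (c + 2) * (s + 1))
    (hs3 : 40 * (c + 2) * (k + 1) ≤ s) :
    2 * (c + w) * 2 ^ k * 2 ^ s + 1 + 2 ^ k ≤ 2 ^ (3 * s) := by
  have h1 : 40 * (c + 2) ≤ s := by nlinarith
  have hk : k ≤ s := by nlinarith
  -- 10 (c+2)(s+1) ≤ 2^s
  set t := s / 2 with ht
  have ht1 : 20 * (c + 2) ≤ t := by omega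
  have ht2 : s + 1 ≤ 2 * (t + 1) := by omega
  have ht3 : 2 * t ≤ s := by omega
  have h2 : t + 1 ≤ 2 ^ t := Nat.lt_two_pow_self
  have h3 : 10 * (c + 2) * (s + 1) ≤ 2 ^ s := by
    calc 10 * (c + 2) * (s + 1) ≤ 10 * (c + 2) * (2 * (t + 1)) := Nat.mul_le_mul_left _ ht2
      _ = 20 * (c + 2) * (t + 1) := by ring
      _ ≤ (t + 1) * (t + 1) := Nat.mul_le_mul_right _ (by omega)
      _ ≤ 2 ^ t * 2 ^ t := Nat.mul_le_mul h2 h2
      _ = 2 ^ (2 * t) := by rw [← pow_add]; congr 1; ring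
      _ ≤ 2 ^ s := Nat.pow_le_pow_right (by norm_num) ht3
  have h4 : 2 ^ k ≤ 2 ^ s := Nat.pow_le_pow_right (by norm_num) hk
  have h5 : 1 ≤ 2 ^ k := Nat.one_le_two_pow
  have h6 : 1 ≤ 2 ^ s := Nat.one_le_two_pow
  have h7 : 1 + 2 ^ k ≤ 2 * (2 ^ k * 2 ^ s) := by
    have : 2 ^ k * 1 ≤ 2 ^ k * 2 ^ s := Nat.mul_le_mul_left _ h6
    omega
  have h8 : c + w + 1 ≤ 5 * (c + 2) * (s + 1) := by nlinarith
  calc 2 * (c + w) * 2 ^ k * 2 ^ s + 1 + 2 ^ k
      ≤ 2 * (c + w) * 2 ^ k * 2 ^ s + 2 * (2 ^ k * 2 ^ s) := by omega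
    _ = 2 * (c + w + 1) * (2 ^ k * 2 ^ s) := by ring
    _ ≤ 2 * (5 * (c + 2) * (s + 1)) * (2 ^ k * 2 ^ s) :=
        Nat.mul_le_mul_right _ (Nat.mul_le_mul_left _ h8)
    _ = (10 * (c + 2) * (s + 1)) * (2 ^ k * 2 ^ s) := by ring
    _ ≤ 2 ^ s * (2 ^ s * 2 ^ s) := Nat.mul_le_mul h3 (Nat.mul_le_mul_right _ h4)
    _ = 2 ^ (3 * s) := by rw [← pow_add, ← pow_add]; congr 1; ring

theorem hc : S_HC := by
  classical
  intro c
  refine ⟨4 * (c + 2) * (40 * (c + 2)), ?_⟩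
  intro k w hw n ι J T hM hsum
  set s := w / (4 * (c + 2)) with hs
  have hs1 : 4 * (c + 2) * s ≤ w := Nat.mul_div_le _ _
  have hs2 : w < 4 * (c + 2) * (s + 1) := Nat.lt_mul_div_succ _ (by omega)
  have hs3 : 40 * (c + 2) * (k + 1) ≤ s := by
    rw [hs, Nat.le_div_iff_mul_le (by omega)]
    calc _ = 4 * (c + 2) * (40 * (c + 2)) * (k + 1) := by ring
      _ ≤ w := hw
  have hs4 : 1 ≤ s := by nlinarith
  have har := hc_arith c k w s hs2 hs3
  set h := 2 * (c + w) * 2 ^ k * 2 ^ s + 1 with hh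
  set V := univ.filter fun v : Fin n => (1 / 2 : ℝ) ^ s ≤ wv T J v with hV
  have hlt : V.card < h := by
    by_contra hge
    push Not at hge
    obtain ⟨H, hHV, hHc⟩ := exists_subset_card_eq hge
    have h1 : (h : ℝ) * (1 / 2) ^ s ≤ ∑ i ∈ J, ((T i ∩ H).card : ℝ) * (1 / 2) ^ (T i).card := by
      rw [← sum_wv, ← hHc, ← nsmul_eq_mul]
      exact card_nsmul_le_sum _ _ _ fun v hv => (mem_filter.1 (hHV hv)).2
    set B := J.filter fun i => w ≤ (T i).card ∧ c + 1 ≤ (T i ∩ H).card with hB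
    have h2 : B.card ≤ h ^ (c + 1) := by
      rw [← hHc]
      exact inj n ι B T H c (fun i hi j hj => hM i (mem_filter.1 hi).1 j (mem_filter.1 hj).1)
        fun i hi => (mem_filter.1 hi).2.2
    have h3 : ∑ i ∈ J, ((T i ∩ H).card : ℝ) * (1 / 2) ^ (T i).card ≤
        (c + w) * 2 ^ k + (h : ℝ) ^ (c + 1) * (h * (1 / 2) ^ w) := by
      rw [← sum_filter_add_sum_filter_not J fun i => w ≤ (T i).card ∧ c + 1 ≤ (T i ∩ H).card]
      rw [add_comm]
      refine add_le_add ?_ ?_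
      · calc ∑ i ∈ J.filter (fun i => ¬ (w ≤ (T i).card ∧ c + 1 ≤ (T i ∩ H).card)),
              ((T i ∩ H).card : ℝ) * (1 / 2) ^ (T i).card
            ≤ ∑ i ∈ J.filter (fun i => ¬ (w ≤ (T i).card ∧ c + 1 ≤ (T i ∩ H).card)),
              ((c + w : ℝ)) * (1 / 2) ^ (T i).card := by
              refine sum_le_sum fun i hi => ?_
              refine mul_le_mul_of_nonneg_right ?_ (by positivity)
              have h4 := (mem_filter.1 hi).2
              have h5 : (T i ∩ H).card ≤ (T i).card := card_le_card inter_subset_left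
              have h6 : (T i ∩ H).card ≤ c + w := by
                by_contra h7
                apply h4
                constructor <;> omega
              exact_mod_cast h6
          _ ≤ ∑ i ∈ J, ((c + w : ℝ)) * (1 / 2) ^ (T i).card :=
              sum_le_sum_of_subset_of_nonneg (filter_subset _ _) fun i _ _ => by positivity
          _ = (c + w) * ∑ i ∈ J, (1 / 2 : ℝ) ^ (T i).card := by rw [mul_sum]
          _ ≤ (c + w) * 2 ^ k := mul_le_mul_of_nonneg_left hsum (by positivity)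
      · calc ∑ i ∈ B, ((T i ∩ H).card : ℝ) * (1 / 2) ^ (T i).card
            ≤ ∑ i ∈ B, (h : ℝ) * (1 / 2) ^ w := by
              refine sum_le_sum fun i hi => ?_
              have h4 := (mem_filter.1 hi).2
              have h5 : (T i ∩ H).card ≤ h := by
                rw [← hHc]; exact card_le_card inter_subset_right
              exact mul_le_mul (by exact_mod_cast h5)
                (pow_le_pow_of_le_one (by norm_num) (by norm_num) h4.1) (by positivity)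
                (by positivity)
          _ = (B.card : ℝ) * (h * (1 / 2) ^ w) := by rw [sum_const, nsmul_eq_mul]
          _ ≤ (h : ℝ) ^ (c + 1) * (h * (1 / 2) ^ w) :=
              mul_le_mul_of_nonneg_right (by exact_mod_cast h2) (by positivity)
    have h4 := h1.trans h3
    -- multiply by 2^s 2^w
    have e1 : (1 / 2 : ℝ) ^ s * 2 ^ s = 1 := by rw [← mul_pow]; norm_num
    have e2 : (1 / 2 : ℝ) ^ w * 2 ^ w = 1 := by rw [← mul_pow]; norm_num
    have e3 : (h : ℝ) = 2 * (c + w) * 2 ^ k * 2 ^ s + 1 := by rw [hh]; push_cast; ring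
    have h5 : (h : ℝ) ≤ (c + w) * 2 ^ k * 2 ^ s + (h : ℝ) ^ (c + 1) * (h * (1 / 2) ^ w) * 2 ^ s := by
      calc (h : ℝ) = h * (1 / 2) ^ s * 2 ^ s := by rw [mul_assoc, e1, mul_one]
        _ ≤ ((c + w) * 2 ^ k + (h : ℝ) ^ (c + 1) * (h * (1 / 2) ^ w)) * 2 ^ s :=
          mul_le_mul_of_nonneg_right h4 (by positivity)
        _ = _ := by ring
    have h6 : (h : ℝ) < 2 * ((h : ℝ) ^ (c + 1) * (h * (1 / 2) ^ w) * 2 ^ s) := by linarith
    have hpos : (0 : ℝ) < h := by rw [e3]; positivity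
    have h7 : (2 : ℝ) ^ w < 2 * (h : ℝ) ^ (c + 1) * 2 ^ s := by
      have h8 : (h : ℝ) * 2 ^ w < h * (2 * (h : ℝ) ^ (c + 1) * 2 ^ s) := by
        calc (h : ℝ) * 2 ^ w < 2 * ((h : ℝ) ^ (c + 1) * (h * (1 / 2) ^ w) * 2 ^ s) * 2 ^ w :=
            mul_lt_mul_of_pos_right h6 (by positivity)
          _ = h * (2 * (h : ℝ) ^ (c + 1) * 2 ^ s) * ((1 / 2) ^ w * 2 ^ w) := by ring
          _ = _ := by rw [e2, mul_one]
      exact lt_of_mul_lt_mul_left h8 hpos.le
    have h8 : 2 ^ w < 2 * h ^ (c + 1) * 2 ^ s := by exact_mod_cast h7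
    have h9 : h ≤ 2 ^ (3 * s) := le_trans (Nat.le_add_right _ _) har
    have h10 : 2 * h ^ (c + 1) * 2 ^ s ≤ 2 ^ w := by
      calc 2 * h ^ (c + 1) * 2 ^ s ≤ 2 * (2 ^ (3 * s)) ^ (c + 1) * 2 ^ s := by gcongr
        _ = 2 ^ (1 + 3 * s * (c + 1) + s) := by
          rw [← pow_mul, pow_add, pow_add, pow_one]
        _ ≤ 2 ^ w := Nat.pow_le_pow_right (by norm_num) (by nlinarith)
    omega
  calc (V.card + 2 ^ k) ^ (c + 1) * 2 ^ s ≤ (2 ^ (3 * s)) ^ (c + 1) * 2 ^ s := by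
        gcongr
        omega
    _ = 2 ^ (3 * s * (c + 1) + s) := by rw [← pow_mul, pow_add]
    _ ≤ 2 ^ w := Nat.pow_le_pow_right (by norm_num) (by nlinarith)

end Pool.Agent.H70.LD
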