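import Pool.Agent.H70.LD.Leaves

/-!
# Leaf INJ
-/

namespace Pool.Agent.H70.LD

open Finset Pool.Agent.Helper91K9.DL

theorem inj : S_INJ := by
  classical
  intro n ι J T H c hM hJ
  have h1 : ∀ i ∈ J, ∃ Q ⊆ T i ∩ H, Q.card = c + 1 := fun i hi =>
    exists_subset_card_eq (hJ i hi)
  choose! f hf hc using h1
  have h2 : J.card ≤ (H.powersetCard (c + 1)).card := by
    refine card_le_card_of_injOn f ?_ ?_
    · intro i hi
      rw [mem_coe, mem_powersetCard]
      exact ⟨(hf i hi).trans inter_subset_right, hc i hi⟩
    · intro i hi j hj hij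
      by_contra hne
      have h3 := hM i hi j hj hne
      have h4 : f i ⊆ T i ∩ T j := by
        refine subset_inter ((hf i hi).trans inter_subset_left) ?_
        have h5 := (hf j hj).trans inter_subset_left
        rwa [← hij] at h5
      have h6 := card_le_card h4
      rw [hc i hi] at h6
      omega
  rw [card_powersetCard] at h2
  exact h2.trans (Nat.choose_le_pow _ _)

end Pool.Agent.H70.LD
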