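import Pool.Agent.H70.LD.Defs
import Pool.Agent.Helper91K9.DL.Indep

/-!
# Statements of the leaves
-/

namespace Pool.Agent.H70.LD

open Finset Pool.Agent.Helper91K9.DL

variable {n : ℕ}

/-- No term of the family `J` is satisfied. -/
def none {ι : Type} (T : ι → Finset (Fin n)) (a : ι → Cube n) (J : Finset ι) (x : Cube n) : Prop :=
  ∀ i ∈ J, ¬ agr (T i) (a i) x

open Classical in
/-- The weight of the variable `v`. -/
noncomputable def wv {ι : Type} (T : ι → Finset (Fin n)) (J : Finset ι) (v : Fin n) : ℝ :=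
  ∑ i ∈ J.filter (fun i => v ∈ T i), (1 / 2 : ℝ) ^ (T i).card

/-- Any two sets of the family have at most `c` common elements. -/
def Meets {ι : Type} (T : ι → Finset (Fin n)) (J : Finset ι) (c : ℕ) : Prop :=
  ∀ i ∈ J, ∀ j ∈ J, i ≠ j → (T i ∩ T j).card ≤ c

/-- Leaf INJ: few sets of the family have more than `c` elements in `H`. -/
def S_INJ : Prop := ∀ (n : ℕ) (ι : Type) (J : Finset ι) (T : ι → Finset (Fin n))
  (H : Finset (Fin n)) (c : ℕ), Meets T J c → (∀ i ∈ J, c + 1 ≤ (T i ∩ H).card) →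
  J.card ≤ H.card ^ (c + 1)

/-- Leaf NOISE: it is improbable that all elements of `S` are covered by living terms. -/
def S_NOISE : Prop := ∀ (n : ℕ) (ι : Type) (J : Finset ι) (T : ι → Finset (Fin n))
  (a : ι → Cube n) (S : Finset (Fin n)) (c j : ℕ) (κ : ℝ), 1 ≤ c → c * j ≤ S.card →
  Meets T J c → (∀ i ∈ J, (T i ∩ S).card ≤ c) → (∀ v ∈ S, wv T J v ≤ κ) →
  PP (fun x => ∀ v ∈ S, ∃ i ∈ J, v ∈ T i ∧ agr (T i \ S) (a i) x) ≤
    2 ^ (c * j ^ 2) * (S.card * κ) ^ j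

/-- Leaf WLLL: the local lemma with weights. -/
def S_WLLL : Prop := ∀ (n : ℕ) (ι : Type) (J : Finset ι) (T : ι → Finset (Fin n))
  (a : ι → Cube n) (A : Finset (Fin n)) (b : Cube n) (c : ℕ) (κ : ℝ), 0 ≤ κ →
  (∀ v, wv T J v ≤ κ) → (∀ i ∈ J, (T i).card * κ ≤ 1 / 4) →
  A.card * κ * 2 ^ (c + 2) ≤ 1 → (∀ i ∈ J, (T i ∩ A).card ≤ c) →
  (1 / 2) ^ (A.card + 1) * PP (none T a J) ≤ PP (fun x => agr A b x ∧ none T a J x)

open Classical in
/-- Leaf HC: the number of the heavy variables. -/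
def S_HC : Prop := ∀ c : ℕ, ∃ C : ℕ, ∀ k w : ℕ, C * (k + 1) ≤ w →
  ∀ (n : ℕ) (ι : Type) (J : Finset ι) (T : ι → Finset (Fin n)), Meets T J c →
  ∑ i ∈ J, (1 / 2 : ℝ) ^ (T i).card ≤ 2 ^ k →
  ((univ.filter fun v => (1 / 2 : ℝ) ^ (w / (4 * (c + 2))) ≤ wv T J v).card + 2 ^ k) ^ (c + 1) *
    2 ^ (w / (4 * (c + 2))) ≤ 2 ^ w

open Classical in
/-- Leaf WB: a bound for the total weight. -/
def S_WB : Prop := ∀ (c : ℕ) (L τ : ℝ), 0 < τ → ∃ K : ℝ,
  ∀ (n : ℕ) (ι : Type) (J : Finset ι) (T : ι → Finset (Fin n)) (a : ι → Cube n), Meets T J c →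
  (∀ Q : Finset (Fin n), Q.Nonempty → Q.card ≤ c →
    ∑ i ∈ J.filter (fun i => Q ⊆ T i), (1 / 2 : ℝ) ^ (T i).card ≤ L * (1 / 2) ^ Q.card) →
  τ ≤ PP (none T a J) → ∑ i ∈ J, (1 / 2 : ℝ) ^ (T i).card ≤ K

/-- No variable occurs with both signs. -/
def Con (U : Finset (Fin n × Bool)) : Prop := ∀ v, ¬ ((v, true) ∈ U ∧ (v, false) ∈ U)

/-- No member of the list is satisfied. -/
def outs (Rs : List (Finset (Fin n × Bool))) (x : Cube n) : Prop := ∀ R ∈ Rs, ¬ satL R x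

/-- A list in which every member is near, of the smallest size, to those after it. -/
inductive Chn (nr : List (Finset (Fin n × Bool)) → Finset (Fin n × Bool) → Prop) :
    List (Finset (Fin n × Bool)) → Prop
  | nil : Chn nr []
  | cons (U : Finset (Fin n × Bool)) (Rs : List (Finset (Fin n × Bool))) : Chn nr Rs → nr Rs U →
      (∀ U', nr Rs U' → U.card ≤ U'.card) → Chn nr (U :: Rs)

/-- Leaf SUN: such lists are short. -/
def S_SUN : Prop := ∀ (n W p : ℕ) (g : Cube n → Prop)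
  (nr : List (Finset (Fin n × Bool)) → Finset (Fin n × Bool) → Prop) (η : ℝ),
  (∀ Rs U, nr Rs U → Con U ∧ 1 ≤ U.card ∧ U.card ≤ W ∧ ∀ R ∈ Rs, ¬ R ⊆ U) →
  (∀ Rs U, Con U → 1 ≤ U.card → U.card ≤ W → (∀ R ∈ Rs, ¬ R ⊆ U) →
    PP (fun x => g x ∧ outs Rs x ∧ satL U x) ≤ η → nr Rs U) →
  (∀ Rs, Chn nr Rs → Rs.length ≤ (2 * p * W + 1) ^ W → η < PP (fun x => g x ∧ outs Rs x)) →
  (1 - (1 / 2 : ℝ) ^ W) ^ p ≤ η →
  ∀ Rs, Chn nr Rs → Rs.length ≤ (2 * p * W + 1) ^ W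

open Pool.Agent.H424R2.PPAD in
/-- Leaf POLY: the algorithm runs in polynomial time. -/
def S_POLY : Prop := ∀ M W E w₀ m D : ℕ, PTime (learnG M W E w₀ m D)

end Pool.Agent.H70.LD
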