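import Pool.Agent.H70.LD.Leaves2
import Pool.Agent.H70.LD.Fam
import Pool.Agent.H70.LD.Frame

/-!
# Literal sets
-/

namespace Pool.Agent.H70.LD

open Finset Pool.Agent.Helper91K9.DL

variable {n : ℕ}

/-- The literals of the point `b` on `P`. -/
def lt (P : Finset (Fin n)) (b : Cube n) : Finset (Fin n × Bool) := P.image fun v => (v, b v)

theorem mem_lt (P : Finset (Fin n)) (b : Cube n) (l : Fin n × Bool) :
    l ∈ lt P b ↔ l.1 ∈ P ∧ b l.1 = l.2 := by
  unfold lt
  rw [mem_image]
  constructor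
  · rintro ⟨v, hv, rfl⟩
    exact ⟨hv, rfl⟩
  · rintro ⟨h1, h2⟩
    exact ⟨l.1, h1, by rw [h2]⟩

theorem lt_card (P : Finset (Fin n)) (b : Cube n) : (lt P b).card = P.card := by
  unfold lt
  refine card_image_of_injective _ fun v w h => ?_
  exact (Prod.mk.inj h).1

theorem lt_con (P : Finset (Fin n)) (b : Cube n) : Con (lt P b) := by
  rintro v ⟨h1, h2⟩
  have e1 := ((mem_lt P b _).1 h1).2
  have e2 := ((mem_lt P b _).1 h2).2
  simp only at e1 e2
  rw [e1] at e2
  exact absurd e2 (by simp)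

theorem satL_lt (P : Finset (Fin n)) (b x : Cube n) : satL (lt P b) x ↔ agr P b x := by
  unfold satL agr
  constructor
  · intro h v hv
    exact h (v, b v) ((mem_lt P b _).2 ⟨hv, rfl⟩)
  · intro h l hl
    obtain ⟨h1, h2⟩ := (mem_lt P b l).1 hl
    rw [h l.1 h1, h2]

theorem lt_mono {P P' : Finset (Fin n)} (h : P ⊆ P') (b : Cube n) : lt P b ⊆ lt P' b :=
  image_subset_image h

theorem satL_mono {U U' : Finset (Fin n × Bool)} (h : U ⊆ U') {x : Cube n} (hx : satL U' x) :
    satL U x := fun l hl => hx l (h hl)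

/-- The variables of a list of terms. -/
noncomputable def rv (n : ℕ) (Rs : List (List (ℕ × Bool))) : Finset (Fin n) := by
  classical exact Rs.toFinset.biUnion fun R => TV n R

theorem rv_card (Rs : List (List (ℕ × Bool))) (M W : ℕ) (hl : Rs.length ≤ M)
    (h : ∀ R ∈ Rs, R.length ≤ W ∧ ∀ l ∈ R, l.1 < n) : (rv n Rs).card ≤ M * W := by
  classical
  have h1 : (rv n Rs).card ≤ Rs.toFinset.card * W := by
    unfold rv
    refine card_biUnion_le_card_mul _ _ _ fun R hR => ?_
    obtain ⟨h2, h3⟩ := h R (List.mem_toFinset.1 hR)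
    rw [TV_card R h3]
    unfold vset
    refine (List.toFinset_card_le _).trans ?_
    rw [List.length_map]
    exact h2
  exact h1.trans (Nat.mul_le_mul_right _ ((List.toFinset_card_le _).trans hl))

theorem dep_outs (Rs : List (List (ℕ × Bool))) :
    Dep (fun x : Cube n => ∀ R ∈ Rs, ¬ satL (UU n R) x) (rv n Rs) := by
  classical
  intro x y hxy
  refine forall₂_congr fun R hR => not_congr ?_
  unfold satL
  refine forall₂_congr fun l hl => ?_
  have : l.1 ∈ rv n Rs := by
    unfold rv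
    rw [mem_biUnion]
    exact ⟨R, List.mem_toFinset.2 hR, (mem_TV R l.1).2 ⟨l.2, (mem_UU R l).1 hl⟩⟩
  rw [hxy l.1 this]

theorem ff_append (F Rs : List (List (ℕ × Bool))) (hR : ∀ R ∈ Rs, ∀ l ∈ R, l.1 < n) (x : Cube n) :
    ff n (Rs ++ F) x ↔ (∃ R ∈ Rs, satL (UU n R) x) ∨ ff n F x := by
  unfold ff dnfVal
  rw [List.any_append, Bool.or_eq_true]
  refine or_congr ?_ Iff.rfl
  rw [List.any_eq_true]
  exact exists_congr fun R => and_congr_right fun h => termVal_iff R (hR R h) x

end Pool.Agent.H70.LD
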