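import Pool.Agent.H70.LD.Leaves
import Pool.Agent.Helper91K9.DL.Poly2

/-!
# Leaf POLY: the algorithm runs in polynomial time
-/

namespace Pool.Agent.H70.LD

open Pool.Agent.NPC Pool.Agent.Helper91K9.DL Pool.Agent.H424R2.PPAD

section

variable {α : Type} [TEnc α]

theorem f1 {β : Type} [TEnc β] : Poly (fun p : α × β => p.1) := NPC.Poly.fst NPC.Poly.id

theorem f2 {β : Type} [TEnc β] : Poly (fun p : α × β => p.2) := NPC.Poly.snd NPC.Poly.id

theorem contains_poly {f : α → ℕ × Bool} {l : α → List (ℕ × Bool)}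
    (hf : Poly f) (hl : Poly l) : Poly (fun a => (l a).contains (f a)) :=
  (NPC.Poly.decide_mem hf hl).congr fun a => by
    simp

theorem mapfst_poly {ρ : α → List (ℕ × Bool)} (hρ : Poly ρ) :
    Poly (fun a => (ρ a).map Prod.fst) :=
  NPC.Poly.map (F := fun _ (l : ℕ × Bool) => l.1) hρ (NPC.Poly.fst f2)

theorem dif_poly {neg : α → List (List Bool)} {S : α → List ℕ} (hneg : Poly neg) (hS : Poly S) :
    Poly (fun a => dif (neg a) (S a)) := by
  have h1 := cnt_poly hneg (NPC.Poly.const (α := α) ([] : List (ℕ × Bool))) hS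
    (NPC.Poly.const (α := α) true)
  have h2 := cnt_poly hneg (NPC.Poly.const (α := α) ([] : List (ℕ × Bool))) hS
    (NPC.Poly.const (α := α) false)
  exact NPC.Poly.add (NPC.Poly.sub h1 h2) (NPC.Poly.sub h2 h1)

theorem tst_poly (D : ℕ) {neg : α → List (List Bool)} {S : α → List ℕ} {j : α → ℕ}
    (hneg : Poly neg) (hS : Poly S) (hj : Poly j) : Poly (fun a => tst D (neg a) (S a) (j a)) := by
  have h1 : Poly (fun a => (S a).all fun i => !(i == j a)) := by
    refine NPC.Poly.all (p := fun a i => !(i == j a)) hS (NPC.Poly.not ?_)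
    exact NPC.Poly.decide_eq f2 (hj.comp f1)
  exact NPC.Poly.and h1 (NPC.Poly.decide_le (NPC.Poly.mul (NPC.Poly.const (2 * D - 1))
    (dif_poly hneg hS)) (NPC.Poly.mul (NPC.Poly.const (2 * D))
    (dif_poly hneg (NPC.Poly.cons hj hS))))

theorem sig_poly {neg : α → List (List Bool)} {S : α → List ℕ} {j : α → ℕ}
    (hneg : Poly neg) (hS : Poly S) (hj : Poly j) : Poly (fun a => sig (neg a) (S a) (j a)) :=
  beq_poly (pos_poly hneg (NPC.Poly.const []) (NPC.Poly.cons hj hS))
    (pos_poly hneg (NPC.Poly.const []) hS)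

theorem cand_poly (D : ℕ) {n : α → ℕ} {neg : α → List (List Bool)} {ρ : α → List (ℕ × Bool)}
    (hn : UPoly n) (hneg : Poly neg) (hρ : Poly ρ) :
    Poly (fun a => cand D (n a) (neg a) (ρ a)) := by
  have h1 : Poly (fun a => (List.range (n a)).filter
      fun j => tst D (neg a) ((ρ a).map Prod.fst) j) :=
    NPC.Poly.filter (p := fun a j => tst D (neg a) ((ρ a).map Prod.fst) j) hn.range
      (tst_poly D (hneg.comp f1) ((mapfst_poly hρ).comp f1) f2)
  exact NPC.Poly.append hρ (NPC.Poly.map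
    (F := fun a j => (j, sig (neg a) ((ρ a).map Prod.fst) j)) h1
    (NPC.Poly.pair f2 (sig_poly (hneg.comp f1) ((mapfst_poly hρ).comp f1) f2)))

theorem rest_poly {neg : α → List (List Bool)} {Rs : α → List (List (ℕ × Bool))}
    (hneg : Poly neg) (hRs : Poly Rs) : Poly (fun a => rest (neg a) (Rs a)) :=
  NPC.Poly.filter (p := fun a x => (Rs a).all fun R => !(termVal R x)) hneg
    (NPC.Poly.all (p := fun (p : α × List Bool) R => !(termVal R p.2)) (hRs.comp f1)
      (NPC.Poly.not (termVal_poly f2 (NPC.Poly.snd f1))))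

theorem cons_poly {U : α → List (ℕ × Bool)} (hU : Poly U) : Poly (fun a => cons (U a)) :=
  NPC.Poly.all (p := fun a (l : ℕ × Bool) => !((U a).contains (l.1, !l.2))) hU
    (NPC.Poly.not (contains_poly (NPC.Poly.pair (NPC.Poly.fst f2) (NPC.Poly.not (NPC.Poly.snd f2)))
      (hU.comp f1)))

theorem near_poly (E : ℕ) {N : α → ℕ} {neg : α → List (List Bool)}
    {Rs : α → List (List (ℕ × Bool))} {U : α → List (ℕ × Bool)} (hN : Poly N)
    (hneg : Poly neg) (hRs : Poly Rs) (hU : Poly U) :
    Poly (fun a => near E (N a) (neg a) (Rs a) (U a)) := by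
  refine NPC.Poly.and (cons_poly hU) (NPC.Poly.and ?_ ?_)
  · refine NPC.Poly.all (p := fun a (R : List (ℕ × Bool)) => !(R.all fun l => (U a).contains l)) hRs
      (NPC.Poly.not ?_)
    exact NPC.Poly.all (p := fun (p : α × List (ℕ × Bool)) (l : ℕ × Bool) => (U p.1).contains l) f2
      (contains_poly f2 ((hU.comp f1).comp f1))
  · refine NPC.Poly.decide_le (NPC.Poly.mul (NPC.Poly.const E) (NPC.Poly.length ?_)) hN
    exact NPC.Poly.filter (p := fun a x => termVal (U a) x) (rest_poly hneg hRs)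
      (termVal_poly (hU.comp f1) f2)

theorem closeStep_poly (W E : ℕ) {n N : α → ℕ} {neg : α → List (List Bool)}
    {Rs : α → List (List (ℕ × Bool))} (hn : UPoly n) (hN : Poly N)
    (hneg : Poly neg) (hRs : Poly Rs) :
    Poly (fun a => closeStep W E (n a) (N a) (neg a) (Rs a)) := by
  have h1 : Poly (fun a => (parts (n a) W).filter (near E (N a) (neg a) (Rs a))) :=
    NPC.Poly.filter (p := fun a => near E (N a) (neg a) (Rs a)) (parts_poly hn W)
      (near_poly E (hN.comp f1) (hneg.comp f1) (hRs.comp f1) f2)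
  exact NPC.Poly.ite (NPC.Poly.decide_eq (NPC.Poly.length h1) (NPC.Poly.const 0)) hRs
    (NPC.Poly.cons (NPC.Poly.head?_getD h1 []) hRs)

theorem closure_poly (W E : ℕ) {n N : α → ℕ} {neg : α → List (List Bool)} (hn : UPoly n)
    (hN : Poly N) (hneg : Poly neg) (r : ℕ) :
    Poly (fun a => closure W E (n a) (N a) (neg a) r) := by
  induction r with
  | zero => exact NPC.Poly.const []
  | succ r ih => exact closeStep_poly W E hn hN hneg ih

theorem hyp_poly (M W E w₀ m D : ℕ) {n N : α → ℕ} {neg : α → List (List Bool)} (hn : UPoly n)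
    (hN : Poly N) (hneg : Poly neg) : Poly (fun a => hyp M W E w₀ m D (n a) (N a) (neg a)) := by
  have h1 := closure_poly W E hn hN hneg M
  refine NPC.Poly.append h1 (NPC.Poly.filter (p := fun a t => imp (neg a) t)
    (NPC.Poly.append (parts_poly hn w₀) ?_) (imp_poly (hneg.comp f1) f2))
  exact NPC.Poly.map (F := fun a ρ => cand D (n a) (rest (neg a) (closure W E (n a) (N a) (neg a) M)) ρ)
    (parts_poly hn m) (cand_poly D (hn.comp f1) ((rest_poly hneg h1).comp f1) f2)

end

theorem poly : S_POLY := by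
  intro M W E w₀ m D
  have h1 : Poly (fun p : ℕ × List (List Bool × Bool) => p.2) := f2
  have h2 : Poly (fun p : ℕ × List (List Bool × Bool) => negs p.2) := negs_poly.comp h1
  have h3 : UPoly (fun p : ℕ × List (List Bool × Bool) => nvars p.2) := nvars_upoly.comp h1
  have h4 : UPoly (fun p : ℕ × List (List Bool × Bool) => p.2.length) := UPoly.length h1
  have h5 : Poly (learnG M W E w₀ m D) := by
    refine NPC.Poly.ite (NPC.Poly.decide_lt (NPC.Poly.mul (NPC.Poly.mul (NPC.Poly.const 4) f1)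
      (NPC.Poly.length h2)) (NPC.Poly.mul (NPC.Poly.const 3) h4.toPoly)) (NPC.Poly.const [[]]) ?_
    exact hyp_poly M W E w₀ m D h3 h4.toPoly h2
  exact PTime.of_poly h5

end Pool.Agent.H70.LD
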