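import Pool.Agent.H70.LD.GoodS
import Pool.Agent.H70.LD.Fam
import Pool.Agent.H70.LD.Frame
import Pool.Agent.H70.LD.Poly
import Pool.Agent.Helper91K9.DL.Main

/-!
# Formulas in which every variable has a small weight
-/

namespace Pool.Agent.H70.LD

open Finset Pool.Agent.Helper91K9.DL Pool.Agent.H424R2.PPAD

theorem num_log (C K : ℕ) : ∃ L₀ : ℕ, ∀ L, L₀ ≤ L → (C * (L + 1)) ^ K ≤ 2 ^ L := by
  have h1 := tendsto_pow_const_div_const_pow_of_one_lt K (r := (2 : ℝ)) (by norm_num)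
  have h2 : ∀ᶠ x : ℕ in Filter.atTop, (x : ℝ) ^ K / 2 ^ x < 1 / (2 * ((C : ℝ) ^ K + 1)) :=
    h1.eventually_lt_const (by positivity)
  obtain ⟨N, hN⟩ := Filter.eventually_atTop.1 h2
  refine ⟨N, fun L hL => ?_⟩
  have h3 := hN (L + 1) (by omega)
  rw [div_lt_div_iff₀ (by positivity) (by positivity), one_mul] at h3
  have h4 : ((C * (L + 1) : ℕ) : ℝ) ^ K ≤ 2 ^ L := by
    push_cast at h3 ⊢
    rw [mul_pow]
    rw [pow_succ] at h3
    have h5 : 0 ≤ ((L : ℝ) + 1) ^ K := by positivity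
    have h6 : 0 ≤ (C : ℝ) ^ K := by positivity
    nlinarith
  exact_mod_cast h4

theorem mul_le_one_of_pow {X κ : ℝ} {n : ℝ} {K : ℕ} (hK : 1 ≤ K) (hX : 0 ≤ X) (hκ : 0 ≤ κ)
    (h : n * κ ^ K ≤ 1) (h2 : X ^ K ≤ n) : X * κ ≤ 1 := by
  have h3 : (X * κ) ^ K ≤ 1 := by
    rw [mul_pow]
    exact (mul_le_mul_of_nonneg_right h2 (by positivity)).trans h
  exact (pow_le_one_iff_of_nonneg (by positivity) (by omega)).1 h3

/-- The bounds for the sample. -/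
theorem num_tol (w₀ k K' n a b : ℕ) (ha : 1 ≤ a) (hb : 1 ≤ b) (hk : k ≤ w₀)
    (hK : 2 * w₀ + 8 ≤ K') (m : ℕ) (hm : (n + a + b) ^ (4 * K' + 6) ≤ m) :
    1 ≤ m ∧ 1 / ((n + a + 2 : ℕ) : ℝ) ^ K' ≤ 1 / (4 * a) ∧
      (((2 * n + 1) ^ w₀ + (2 * n + 1) ^ k : ℕ) : ℝ) * (1 / ((n + a + 2 : ℕ) : ℝ) ^ K') ≤
        1 / (4 * a) ∧
      8 * (3 * (n : ℝ) + 2 * b) ≤ m * (1 / ((n + a + 2 : ℕ) : ℝ) ^ K') ^ 2 := by
  obtain ⟨hm1, hm2⟩ := num_m 0 K' n a b ha hb (by omega) m hm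
  have hm1' : 1 ≤ m := by omega
  obtain ⟨Q, hQ⟩ : ∃ Q, Q = n + a + 2 := ⟨_, rfl⟩
  rw [← hQ] at hm1 hm2 ⊢
  have hQ2 : 2 ≤ Q := by omega
  have hQ0 : (0 : ℝ) < Q := by exact_mod_cast (by omega : 0 < Q)
  have ha0 : (0 : ℝ) < a := by exact_mod_cast ha
  refine ⟨hm1', ?_, ?_, ?_⟩
  · refine one_div_le_one_div_of_le (by positivity) ?_
    have : 4 * a ≤ Q ^ K' := by
      calc 4 * a ≤ Q ^ 2 * Q ^ 1 := by
            rw [pow_one]
            exact Nat.mul_le_mul (Nat.pow_le_pow_left hQ2 2) (by omega)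
        _ = Q ^ (2 + 1) := by rw [← pow_add]
        _ ≤ Q ^ K' := Nat.pow_le_pow_right (by omega) (by omega)
    exact_mod_cast this
  · rw [mul_one_div, div_le_div_iff₀ (by positivity) (by positivity), one_mul]
    have h3 : ((2 * n + 1) ^ w₀ + (2 * n + 1) ^ k) * (4 * a) ≤ Q ^ K' := by
      have h4 : (2 * n + 1) ^ w₀ ≤ Q ^ (2 * w₀) := by
        rw [pow_mul]
        refine Nat.pow_le_pow_left ?_ _
        calc 2 * n + 1 ≤ Q * 2 := by omega
          _ ≤ Q * Q := Nat.mul_le_mul_left _ hQ2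
          _ = Q ^ 2 := (sq Q).symm
      have h5 : (2 * n + 1) ^ k ≤ (2 * n + 1) ^ w₀ := Nat.pow_le_pow_right (by omega) hk
      have h6 : 8 * a ≤ Q ^ 4 := by
        calc 8 * a ≤ Q ^ 3 * Q := Nat.mul_le_mul (by
              calc 8 = 2 ^ 3 := by norm_num
                _ ≤ Q ^ 3 := Nat.pow_le_pow_left hQ2 3) (by omega)
          _ = Q ^ 4 := by rw [← pow_succ]
      calc ((2 * n + 1) ^ w₀ + (2 * n + 1) ^ k) * (4 * a)
          ≤ (Q ^ (2 * w₀) + Q ^ (2 * w₀)) * (4 * a) :=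
            Nat.mul_le_mul_right _ (Nat.add_le_add h4 (h5.trans h4))
        _ = Q ^ (2 * w₀) * (8 * a) := by ring
        _ ≤ Q ^ (2 * w₀) * Q ^ 4 := Nat.mul_le_mul_left _ h6
        _ = Q ^ (2 * w₀ + 4) := by rw [← pow_add]
        _ ≤ Q ^ K' := Nat.pow_le_pow_right (by omega) (by omega)
    exact_mod_cast h3
  · rw [div_pow, one_pow, mul_one_div, le_div_iff₀ (by positivity), ← pow_mul]
    have : 8 * (3 * n + 2 * b) * Q ^ (K' * 2) ≤ m := by rw [mul_comm K' 2]; exact hm2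
    exact_mod_cast this

/-- From good samples to success. -/
theorem succ_of_good {n m a b : ℕ} (F : List (List (ℕ × Bool)))
    (A : List (List Bool × Bool) → List (List (ℕ × Bool))) (hb : 1 ≤ b) (τ : ℝ) (hτ0 : 0 < τ)
    (hτm : 8 * (3 * (n : ℝ) + 2 * b) ≤ m * τ ^ 2)
    (h : ∀ X : Fin m → Cube n, Good X (ff n F) τ →
      PP (fun x : Cube n => dnfVal (A (smp F X)) (List.ofFn x) ≠
        dnfVal F (List.ofFn x)) ≤ 1 / a) : Succeeds A n m F (1 / a) (1 / b) := by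
  classical
  have hs := samp n m b (ff n F) τ hb hτ0 hτm
  unfold Succeeds
  refine hs.trans ?_
  exact_mod_cast card_le_card fun X hX => by
    rw [mem_filter] at hX ⊢
    refine ⟨mem_univ _, ?_⟩
    rw [err_eq]
    exact h X hX.2

/-- The core of the theorem. -/
theorem core_S (c K : ℕ) (hc : 1 ≤ c) (hK : 1 ≤ K) : ∃ w₀ k e : ℕ, ∀ (n a b : ℕ)
    (F : List (List (ℕ × Bool))), 1 ≤ a → 1 ≤ b → SmallMeets n c F →
    (∀ v < n, n * a * weight F v ^ K ≤ 1) →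
    ∀ m, (n + a + b) ^ e ≤ m →
      Succeeds (fun s => learnG 0 0 0 w₀ k 8 (a, s)) n m F (1 / a) (1 / b) := by
  classical
  obtain ⟨q, hq⟩ : ∃ q, q = c + 3 := ⟨_, rfl⟩
  obtain ⟨j, hj⟩ : ∃ j, j = K * q := ⟨_, rfl⟩
  obtain ⟨k, hk⟩ : ∃ k, k = c * j := ⟨_, rfl⟩
  obtain ⟨L₀, hL₀⟩ := num_log (2 ^ (c + 3) * (9 + 2 * (c + 1))) K
  obtain ⟨C₀, hC₀⟩ : ∃ C₀, C₀ = 2 ^ (c * j ^ 2) * k ^ j * 2 ^ (c + 12) := ⟨_, rfl⟩
  obtain ⟨n₀, hn₀⟩ : ∃ n₀, n₀ = 2 ^ L₀ + C₀ + 1 := ⟨_, rfl⟩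
  obtain ⟨w₀, hw₀⟩ : ∃ w₀, w₀ = n₀ + k := ⟨_, rfl⟩
  obtain ⟨K', hK'⟩ : ∃ K', K' = 2 * w₀ + 8 + (c + 12 + 2 * q) := ⟨_, rfl⟩
  refine ⟨w₀, k, 4 * K' + 6, fun n a b F ha hb hF hw m hm => ?_⟩
  obtain ⟨ι, I, T, β, hf, hM, hwv⟩ := family' n c F hF
  obtain ⟨hm1', hτa, hτN, hτm⟩ := num_tol w₀ k K' n a b ha hb (by omega) (by omega) m hm
  obtain ⟨Q, hQ⟩ : ∃ Q, Q = n + a + 2 := ⟨_, rfl⟩
  rw [← hQ] at hτa hτN hτm
  have hQ2 : 2 ≤ Q := by omega
  have hQ0 : (0 : ℝ) < Q := by exact_mod_cast (by omega : 0 < Q)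
  have ha0 : (0 : ℝ) < a := by exact_mod_cast ha
  obtain ⟨τ, hτ⟩ : ∃ τ : ℝ, τ = 1 / (Q : ℝ) ^ K' := ⟨_, rfl⟩
  rw [← hτ] at hτa hτN hτm
  have hτ0 : 0 < τ := by rw [hτ]; positivity
  refine succ_of_good F _ hb τ hτ0 hτm fun X hG => ?_
  by_cases hn : n * a < n₀
  · -- all terms are short
    refine frame 0 0 0 w₀ k 8 a ha hm1' F X τ hτ0.le hG I ∅ T β hf
      (by rw [sum_empty]; positivity) hτa hτN fun _ => ⟨by simp [closure], ?_, ?_⟩
    · have : PP (fun x : Cube n => ¬ ff n F x ∧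
          ∃ R ∈ closure 0 0 n m (negs (smp F X)) 0, satL (UU n R) x) = 0 := by
        rw [PP_eq]; simp [closure]
      rw [this]
      positivity
    · intro i _ _
      left
      have h1 : (T i).card ≤ n := by
        have := card_le_univ (T i)
        rwa [Fintype.card_fin] at this
      have h2 : n ≤ n * a := Nat.le_mul_of_pos_right _ ha
      omega
  push Not at hn
  have hn01 : 1 ≤ n₀ := by rw [hn₀]; exact Nat.le_add_left _ _
  obtain ⟨N, hN⟩ : ∃ N, N = n * a := ⟨_, rfl⟩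
  rw [← hN] at hn
  have hN1 : 1 ≤ N := hn01.trans hn
  have hC₀n : C₀ ≤ N := by
    refine le_trans ?_ hn
    rw [hn₀]
    exact (Nat.le_add_left _ _).trans (Nat.le_succ _)
  have hn1 : 1 ≤ n := by
    rcases Nat.eq_zero_or_pos n with h | h
    · rw [hN, h, zero_mul] at hN1; omega
    · exact h
  have hnN : n ≤ N := by rw [hN]; exact Nat.le_mul_of_pos_right _ ha
  have haN : a ≤ N := by rw [hN]; exact Nat.le_mul_of_pos_left _ hn1
  have hNQ : N ≤ Q ^ 2 := by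
    rw [hN, sq, hQ]
    exact Nat.mul_le_mul (by omega) (by omega)
  have hN0 : (0 : ℝ) < N := by exact_mod_cast hN1
  have hNr : (N : ℝ) = n * a := by rw [hN]; push_cast; rfl
  -- the largest weight
  obtain ⟨v₀, hv₀⟩ : ∃ v₀ : Fin n, ∀ v, wv T I v ≤ wv T I v₀ := by
    have : Nonempty (Fin n) := ⟨⟨0, hn1⟩⟩
    exact Finite.exists_max (wv T I)
  obtain ⟨κ, hκ⟩ : ∃ κ, κ = wv T I v₀ := ⟨_, rfl⟩
  rw [← hκ] at hv₀
  have hκ0 : 0 ≤ κ := by
    rw [hκ]; unfold wv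
    exact sum_nonneg fun i _ => by positivity
  have hκn : N * κ ^ K ≤ 1 := by
    rw [hNr]
    refine le_trans ?_ (hw v₀ v₀.2)
    refine mul_le_mul_of_nonneg_left (pow_le_pow_left₀ hκ0 ?_ _) (by positivity)
    rw [hκ]
    exact hwv v₀
  obtain ⟨L, hL⟩ : ∃ L, L = Nat.log 2 N := ⟨_, rfl⟩
  have hLn : 2 ^ L ≤ N := by rw [hL]; exact Nat.pow_log_le_self 2 (by omega)
  have hnL : N < 2 ^ (L + 1) := by rw [hL]; exact Nat.lt_pow_succ_log_self (by norm_num) N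
  have hLL : L₀ ≤ L := by
    rw [hL]
    exact Nat.le_log_of_pow_le (by norm_num) (by omega)
  obtain ⟨w₁, hw₁⟩ : ∃ w₁, w₁ = 2 + (L + 1) * (c + 1) := ⟨_, rfl⟩
  obtain ⟨w₂, hw₂⟩ : ∃ w₂, w₂ = 5 + (L + 1) * (c + 1) + w₁ := ⟨_, rfl⟩
  have hcw1 : c ≤ w₁ := by
    rw [hw₁]
    have : 1 * (c + 1) ≤ (L + 1) * (c + 1) := Nat.mul_le_mul_right _ (by omega)
    omega
  have hX : ((w₂ : ℝ) * 2 ^ (c + 3)) ^ K ≤ N := by
    have h1 : (w₂ * 2 ^ (c + 3)) ^ K ≤ N := by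
      refine le_trans (Nat.pow_le_pow_left ?_ K) ((hL₀ L hLL).trans hLn)
      have : w₂ ≤ (9 + 2 * (c + 1)) * (L + 1) := by
        have e : (9 + 2 * (c + 1)) * (L + 1) = 9 * (L + 1) + 2 * ((L + 1) * (c + 1)) := by
          ring
        rw [hw₂, hw₁, e]
        omega
      calc w₂ * 2 ^ (c + 3) ≤ (9 + 2 * (c + 1)) * (L + 1) * 2 ^ (c + 3) :=
            Nat.mul_le_mul_right _ this
        _ = _ := by ring
    exact_mod_cast h1
  have hXκ := mul_le_one_of_pow hK (by positivity) hκ0 hκn hX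
  have h2c : (4 : ℝ) ≤ 2 ^ (c + 3) := by
    calc (4 : ℝ) ≤ 2 ^ 3 := by norm_num
      _ ≤ 2 ^ (c + 3) := pow_le_pow_right₀ (by norm_num) (by omega)
  have hw2 : (w₂ : ℝ) * κ ≤ 1 / 4 := by
    have : (w₂ : ℝ) * κ * 4 ≤ w₂ * κ * 2 ^ (c + 3) := mul_le_mul_of_nonneg_left h2c (by positivity)
    have e : (w₂ : ℝ) * κ * 2 ^ (c + 3) = w₂ * 2 ^ (c + 3) * κ := by ring
    linarith
  have hw3 : ((w₁ : ℝ) + 1) * κ * 2 ^ (c + 3) ≤ 1 := by
    have h1 : ((w₁ : ℝ) + 1) ≤ w₂ := by exact_mod_cast (by omega : w₁ + 1 ≤ w₂)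
    calc ((w₁ : ℝ) + 1) * κ * 2 ^ (c + 3) ≤ w₂ * κ * 2 ^ (c + 3) := by gcongr
      _ = w₂ * 2 ^ (c + 3) * κ := by ring
      _ ≤ 1 := hXκ
  have haL : a * n ^ (c + 1) ≤ 2 ^ ((L + 1) * (c + 1)) := by
    calc a * n ^ (c + 1) ≤ a ^ (c + 1) * n ^ (c + 1) :=
          Nat.mul_le_mul_right _ (Nat.le_self_pow (by omega) a)
      _ = N ^ (c + 1) := by rw [hN, mul_pow, mul_comm]
      _ ≤ (2 ^ (L + 1)) ^ (c + 1) := Nat.pow_le_pow_left hnL.le _
      _ = _ := by rw [← pow_mul]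
  have haL' : (a : ℝ) * n ^ (c + 1) ≤ 2 ^ ((L + 1) * (c + 1)) := by exact_mod_cast haL
  have hwn : (2 : ℝ) ^ w₁ ≤ 2 ^ (c + 3) * N ^ (c + 1) := by
    have h1 : 2 ^ w₁ ≤ 2 ^ (c + 3) * N ^ (c + 1) := by
      have e : 2 ^ (L + 1) = 2 ^ L * 2 := pow_succ _ _
      calc 2 ^ w₁ = 4 * (2 ^ L * 2) ^ (c + 1) := by
            rw [hw₁, pow_add, pow_mul, e]; norm_num
        _ ≤ 4 * (N * 2) ^ (c + 1) :=
            Nat.mul_le_mul_left _ (Nat.pow_le_pow_left (Nat.mul_le_mul_right _ hLn) _)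
        _ = _ := by rw [mul_pow]; ring
    exact_mod_cast h1
  have haN' : (a : ℝ) ≤ N := by exact_mod_cast haN
  -- the bound for the noise
  have hsmall : 1 / (2 ^ (c + 12) * (N : ℝ) ^ (q - 1)) ≤
      1 / 2 ^ 8 * (1 / (2 * a) * (1 / 2) ^ w₁) := by
    have e1 : 1 / 2 ^ 8 * (1 / (2 * (a : ℝ)) * (1 / 2) ^ w₁) = 1 / (2 ^ 9 * a * 2 ^ w₁) := by
      rw [one_div_pow]
      field_simp
    rw [e1]
    refine one_div_le_one_div_of_le (by positivity) ?_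
    calc 2 ^ 9 * (a : ℝ) * 2 ^ w₁ ≤ 2 ^ 9 * N * (2 ^ (c + 3) * N ^ (c + 1)) := by
          gcongr
      _ = 2 ^ (c + 12) * (N : ℝ) ^ (q - 1) := by
          have : q - 1 = 1 + (c + 1) := by omega
          rw [this]
          ring
  have hτs : τ ≤ 1 / (2 ^ (c + 12) * (N : ℝ) ^ (q - 1)) := by
    rw [hτ]
    refine one_div_le_one_div_of_le (by positivity) ?_
    have : 2 ^ (c + 12) * N ^ (q - 1) ≤ Q ^ K' := by
      calc 2 ^ (c + 12) * N ^ (q - 1) ≤ Q ^ (c + 12) * (Q ^ 2) ^ (q - 1) :=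
            Nat.mul_le_mul (Nat.pow_le_pow_left hQ2 _) (Nat.pow_le_pow_left hNQ _)
        _ = Q ^ (c + 12 + 2 * (q - 1)) := by rw [← pow_mul, ← pow_add]
        _ ≤ Q ^ K' := Nat.pow_le_pow_right (by omega) (by omega)
    exact_mod_cast this
  have hνs : 2 ^ (c * j ^ 2) * ((k : ℝ) * κ) ^ j ≤
      1 / (2 ^ (c + 12) * (N : ℝ) ^ (q - 1)) := by
    have h1 : κ ^ j ≤ 1 / N ^ q := by
      rw [hj, pow_mul]
      have h2 : κ ^ K ≤ 1 / N := by
        rw [le_div_iff₀ hN0]; linarith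
      calc (κ ^ K) ^ q ≤ (1 / (N : ℝ)) ^ q := pow_le_pow_left₀ (by positivity) h2 _
        _ = 1 / N ^ q := by rw [one_div_pow]
    have h3 : ((2 ^ (c * j ^ 2) * k ^ j * 2 ^ (c + 12) : ℕ) : ℝ) ≤ N := by
      rw [← hC₀]
      exact_mod_cast hC₀n
    push_cast at h3
    have h4 : (N : ℝ) ^ q = N ^ (q - 1) * N := by
      rw [← pow_succ]; congr 1; omega
    calc 2 ^ (c * j ^ 2) * ((k : ℝ) * κ) ^ j = 2 ^ (c * j ^ 2) * (k : ℝ) ^ j * κ ^ j := by
          rw [mul_pow]; ring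
      _ ≤ 2 ^ (c * j ^ 2) * (k : ℝ) ^ j * (1 / N ^ q) := by gcongr
      _ ≤ 1 / (2 ^ (c + 12) * (N : ℝ) ^ (q - 1)) := by
          rw [mul_one_div, h4, div_le_div_iff₀ (by positivity) (by positivity), one_mul]
          calc 2 ^ (c * j ^ 2) * (k : ℝ) ^ j * (2 ^ (c + 12) * (N : ℝ) ^ (q - 1))
              = (2 ^ (c * j ^ 2) * (k : ℝ) ^ j * 2 ^ (c + 12)) * (N : ℝ) ^ (q - 1) := by ring
            _ ≤ N * (N : ℝ) ^ (q - 1) := by gcongr
            _ = _ := by ring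
  refine frame 0 0 0 w₀ k 8 a ha hm1' F X τ hτ0.le hG I (I.filter fun i => w₁ < (T i).card) T β hf
      ?_ hτa hτN fun hp => ⟨by simp [closure], ?_, ?_⟩
  · refine (far_sum T I c w₁ hM hcw1).trans ?_
    rw [one_div_pow, mul_one_div, div_le_div_iff₀ (by positivity) (by positivity), one_mul]
    have h1 : (2 : ℝ) ^ (w₁ + 1) = 8 * 2 ^ ((L + 1) * (c + 1)) := by
      rw [hw₁, pow_succ, pow_add]; ring
    rw [h1]
    have h2 : (0 : ℝ) ≤ a * n ^ (c + 1) := by positivity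
    have e : (n : ℝ) ^ (c + 1) * (4 * a) = 4 * (a * n ^ (c + 1)) := by ring
    rw [e]
    linarith
  · have : PP (fun x : Cube n => ¬ ff n F x ∧
        ∃ R ∈ closure 0 0 n m (negs (smp F X)) 0, satL (UU n R) x) = 0 := by
      rw [PP_eq]; simp [closure]
    rw [this]
    positivity
  · intro i hi hiB
    by_cases hiw : (T i).card ≤ w₀
    · exact Or.inl hiw
    right
    have hiw1 : (T i).card ≤ w₁ := by
      by_contra h
      exact hiB (mem_filter.2 ⟨hi, not_le.1 h⟩)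
    obtain ⟨S, hST, hSc⟩ := exists_subset_card_eq (s := T i) (n := k) (by omega)
    have hcl : closure 0 0 n m (negs (smp F X)) 0 = [] := rfl
    rw [hcl, List.nil_append]
    have hfi : ∀ x, ff n F x ↔ agr (T i) (β i) x ∨ ¬ (none T β (I.erase i) x ∧ True) := by
      intro x
      rw [hf x]
      unfold none
      constructor
      · rintro ⟨l, hl, hlx⟩
        by_cases hli : l = i
        · subst hli; exact Or.inl hlx
        · right
          rintro ⟨h, -⟩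
          exact h l (mem_erase.2 ⟨hli, hl⟩) hlx
      · rintro (h | h)
        · exact ⟨i, hi, h⟩
        · rw [and_true] at h
          push Not at h
          obtain ⟨l, hl, hlx⟩ := h
          exact ⟨l, (mem_erase.1 hl).2, hlx⟩
    have hδ : 1 / (2 * (a : ℝ)) ≤ PP (none T β I) := by
      refine hp.trans (le_of_eq (PP_congr fun x => ?_))
      rw [hf x]; unfold none; push Not; rfl
    obtain ⟨hlow, hrat⟩ := near_prob T β I i hi c w₁ w₂ κ (1 / (2 * a)) hκ0 hM hv₀ hiw1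
      (by omega) hw2 hw3 (by omega) hδ (by
        rw [one_div_pow, one_div_pow, mul_one_div]
        have e : 1 / (2 * (a : ℝ)) / 32 * (1 / 2 ^ w₁) = 1 / (64 * a * 2 ^ w₁) := by
          field_simp; norm_num
        rw [e, div_le_div_iff₀ (by positivity) (by positivity), one_mul]
        have h1 : (2 : ℝ) ^ (w₂ + 1) = 64 * 2 ^ ((L + 1) * (c + 1)) * 2 ^ w₁ := by
          rw [hw₂, pow_succ, pow_add, pow_add]; ring
        rw [h1]
        calc (n : ℝ) ^ (c + 1) * (64 * a * 2 ^ w₁) = 64 * (a * n ^ (c + 1)) * 2 ^ w₁ := by ring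
          _ ≤ _ := by gcongr) (by positivity)
    have hpos : 0 < 1 / (2 * (a : ℝ)) * (1 / 2) ^ w₁ := by positivity
    have hnoise : PP (ns T β (I.erase i) S) ≤ 1 / 2 ^ 8 * (1 / (2 * a) * (1 / 2) ^ w₁) := by
      have h1 := noise n ι (I.erase i) T β S c j κ hc (by rw [hSc, hk]) (hM.mono (erase_subset _ _))
        (fun l hl => by
          have hl' := mem_erase.1 hl
          exact (card_le_card (inter_subset_inter_left hST)).trans (hM l hl'.2 i hi hl'.1))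
        (fun v _ => (wv_mono T I _ (erase_subset _ _) v).trans (hv₀ v))
      rw [hSc] at h1
      exact h1.trans (hνs.trans hsmall)
    have hτs' := hτs.trans hsmall
    have hcand := cand_ok F X hm1' T β (I.erase i) (T i) S (β i) hST (fun _ => True)
      (fun _ _ _ => Iff.rfl) hfi 8 (by norm_num) τ hτ0.le hG (by linarith)
      (by push_cast; linarith) (fun l hl => Or.inl ⟨by
        have := hrat l hl true
        push_cast
        linarith, by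
        have := hrat l hl false
        push_cast
        linarith⟩)
    refine ⟨litsOf (β i) S, mem_parts (by rw [length_litsOf, hSc]) (litsOf_lt _ _), ?_, ?_⟩
    · intro x hx
      exact (hfi x).2 (Or.inl (hcand.2.1 x hx))
    · intro x hx _
      exact hcand.2.2 x hx trivial

/-- Formulas whose terms have pairwise small intersections, and in which every variable has a small
weight. -/
theorem sparse (c K : ℕ) (hK : 1 ≤ K) :
    ∃ A : ℕ × List (List Bool × Bool) → List (List (ℕ × Bool)), PTime A ∧ ∃ e : ℕ,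
      ∀ (n a b : ℕ) (F : List (List (ℕ × Bool))), 1 ≤ a → 1 ≤ b → SmallMeets n c F →
        (∀ v < n, n * a * weight F v ^ K ≤ 1) →
        ∀ m, (n + a + b) ^ e ≤ m → Succeeds (fun s => A (a, s)) n m F (1 / a) (1 / b) := by
  obtain ⟨w₀, k, e, h⟩ := core_S (c + 1) K (by omega) hK
  exact ⟨learnG 0 0 0 w₀ k 8, poly 0 0 0 w₀ k 8, e, fun n a b F ha hb hF hw m hm =>
    h n a b F ha hb ⟨hF.1, hF.2.imp fun h => h.trans (Nat.le_succ c)⟩ hw m hm⟩

end Pool.Agent.H70.LD
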