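import Pool.Agent.H70.LD.NumG
import Pool.Agent.H70.LD.LitG
import Pool.Agent.H70.LD.GoodG
import Pool.Agent.H70.LD.FrameG
import Pool.Agent.H70.LD.MainS

/-!
# Formulas whose terms have small intersections: constant accuracy
-/

namespace Pool.Agent.H70.LD

open Finset Pool.Agent.Helper91K9.DL Pool.Agent.H424R2.PPAD

/-- The terms that are found: the main step. -/
theorem term_G {ι : Type} [DecidableEq ι] {n m : ℕ} (c k D : ℕ) (hc : 1 ≤ c) (hD1 : 1 ≤ D)
    (hk : k = c * (8 * (c + 2))) (θ τ : ℝ) (hθ : 0 < θ) (hDθ : 2 ≤ D * θ) (hτ : 0 ≤ τ)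
    (F Rs : List (List (ℕ × Bool))) (hRv : ∀ R ∈ Rs, ∀ l ∈ R, l.1 < n)
    (X : Fin m → Cube n) (hm : 1 ≤ m) (hG : Good X (ff n (Rs ++ F)) τ)
    (I I₀ : Finset ι) (T : ι → Finset (Fin n)) (b : ι → Cube n)
    (hf : ∀ x, ff n F x ↔ ∃ i ∈ I, agr (T i) (b i) x)
    (hI₀ : I₀ = I.filter (fun i => ∀ R ∈ Rs, ¬ UU n R ⊆ lt (T i) (b i)))
    (hM : Meets T I₀ c)
    (hgP : ∀ (P : Finset (Fin n)) (b' : Cube n), P.card ≤ c + 1 →
      θ ≤ PP (fun x => (none T b I₀ x ∧ ∀ R ∈ Rs, ¬ satL (UU n R) x) ∧ agr P b' x) ∨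
        ∃ R ∈ Rs, UU n R ⊆ lt P b')
    (i : ι) (hi : i ∈ I₀)
    (hbad : (T i ∩ (hv c T I₀ (T i).card ∪ rv n Rs)).card ≤ c)
    (hck : c + k ≤ (T i).card)
    (hw1 : 2 ^ (c + 1) * ((((T i).card : ℝ) + 1) * (1 / 2) ^ ((T i).card / (4 * (c + 2)))) ≤ θ / 2)
    (hw2 : 2 ^ (c * (8 * (c + 2)) ^ 2) * (k : ℝ) ^ (8 * (c + 2)) *
      ((1 / 2 : ℝ) ^ ((T i).card / (4 * (c + 2)))) ^ (8 * (c + 2)) * (16 * D) ≤
        (1 / 2) ^ (T i).card * θ)
    (hw3 : τ * (16 * D) ≤ (1 / 2) ^ (T i).card * θ) :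
    ∃ ρ ∈ parts n k,
      (∀ x, satL (UU n (cand D n (negs (smp (Rs ++ F) X)) ρ)) x → ff n F x) ∧
      ∀ x, agr (T i) (b i) x → (∀ R ∈ Rs, ¬ satL (UU n R) x) →
        satL (UU n (cand D n (negs (smp (Rs ++ F) X)) ρ)) x := by
  classical
  obtain ⟨w, hw⟩ : ∃ w, w = (T i).card := ⟨_, rfl⟩
  obtain ⟨H, hH⟩ : ∃ H, H = hv c T I₀ (T i).card ∪ rv n Rs := ⟨_, rfl⟩
  obtain ⟨κ, hκ⟩ : ∃ κ : ℝ, κ = (1 / 2 : ℝ) ^ ((T i).card / (4 * (c + 2))) := ⟨_, rfl⟩
  have hκ0 : 0 ≤ κ := by rw [hκ]; positivity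
  rw [← hH] at hbad
  rw [← hκ] at hw1 hw2
  have hiI : i ∈ I := by rw [hI₀] at hi; exact (mem_filter.1 hi).1
  have hiR : ∀ R ∈ Rs, ¬ UU n R ⊆ lt (T i) (b i) := by rw [hI₀] at hi; exact (mem_filter.1 hi).2
  have hlight : ∀ v, v ∉ H → wv T I₀ v ≤ κ := by
    intro v hv'
    by_contra hcon
    refine hv' ?_
    rw [hH, mem_union]
    left
    unfold hv
    rw [mem_filter]
    refine ⟨mem_univ _, ?_⟩
    rw [← hκ]
    exact (not_le.1 hcon).le
  set Q : Cube n → Prop := fun x => ∀ R ∈ Rs, ¬ satL (UU n R) x with hQ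
  have hQd : Dep Q H := (dep_outs Rs).mono (by rw [hH]; exact subset_union_right)
  obtain ⟨hlow, hupp, hrat⟩ := near_prob_G T b I₀ i hi c H Q hQd κ θ hM hκ0 hlight hbad hw1
    (by
      rcases hgP (T i ∩ H) (b i) (by omega) with h | ⟨R, hR, h⟩
      · exact h
      · exact absurd (h.trans (lt_mono inter_subset_left (b i))) (hiR R hR))
    (fun P b' hP => by
      rcases hgP P b' hP with h | ⟨R, hR, h⟩
      · exact Or.inl h
      · right
        intro x hx hxQ
        exact hxQ R hR (satL_mono h ((satL_lt P b' x).2 hx)))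
  -- the subset of the light variables
  have hlc : k ≤ (T i \ H).card := by
    have := card_sdiff_add_card_inter (T i) H
    omega
  obtain ⟨S, hST, hSc⟩ := exists_subset_card_eq hlc
  have hST' : S ⊆ T i := hST.trans sdiff_subset
  have hSH : H ⊆ Sᶜ := fun v hv => by
    rw [mem_compl]
    exact fun h => (mem_sdiff.1 (hST h)).2 hv
  have hnoise : PP (ns T b (I₀.erase i) S) * (16 * D) ≤ (1 / 2) ^ (T i).card * θ := by
    have h1 := noise n ι (I₀.erase i) T b S c (8 * (c + 2)) κ hc (by rw [hSc, hk])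
      (hM.mono (erase_subset _ _))
      (fun l hl => by
        have hl' := mem_erase.1 hl
        exact (card_le_card (inter_subset_inter_left hST')).trans (hM l hl'.2 i hi hl'.1))
      (fun v hv' => (wv_mono T I₀ _ (erase_subset _ _) v).trans
        (hlight v (mem_sdiff.1 (hST hv')).2))
    rw [hSc, mul_pow (k : ℝ) κ, ← mul_assoc] at h1
    exact (mul_le_mul_of_nonneg_right h1 (by positivity)).trans hw2
  have hfi : ∀ x, ff n (Rs ++ F) x ↔
      agr (T i) (b i) x ∨ ¬ (none T b (I₀.erase i) x ∧ Q x) := by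
    intro x
    rw [ff_append F Rs hRv x, hf x]
    constructor
    · rintro (⟨R, hR, h⟩ | ⟨l, hl, hlx⟩)
      · right
        rintro ⟨-, h2⟩
        exact h2 R hR h
      · by_cases hli : l = i
        · subst hli; exact Or.inl hlx
        · right
          rintro ⟨h1, h2⟩
          by_cases hl0 : l ∈ I₀
          · exact h1 l (mem_erase.2 ⟨hli, hl0⟩) hlx
          · rw [hI₀, mem_filter] at hl0
            push Not at hl0
            obtain ⟨R, hR, h⟩ := hl0 hl
            exact h2 R hR (satL_mono h ((satL_lt _ _ x).2 hlx))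
    · rintro (h | h)
      · exact Or.inr ⟨i, hiI, h⟩
      · by_cases hQx : Q x
        · right
          have h1 : ¬ none T b (I₀.erase i) x := fun h' => h ⟨h', hQx⟩
          unfold none at h1
          push Not at h1
          obtain ⟨l, hl, hlx⟩ := h1
          have hl2 := (mem_erase.1 hl).2
          rw [hI₀] at hl2
          exact ⟨l, (mem_filter.1 hl2).1, hlx⟩
        · left
          rw [hQ] at hQx
          push Not at hQx
          exact hQx
  have hw0 : (0 : ℝ) < (1 / 2) ^ (T i).card := by positivity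
  have hprod : 0 < (1 / 2 : ℝ) ^ (T i).card * θ := mul_pos hw0 hθ
  have hD0 : (1 : ℝ) ≤ D := by exact_mod_cast hD1
  have hcand := cand_ok (Rs ++ F) X hm T b (I₀.erase i) (T i) S (b i) hST' Q (hQd.mono hSH) hfi D
    hD1 τ hτ hG (by linarith) (by linarith) (fun l hl => by
      rcases hrat l hl with h | h
      · left
        have h3 : ∀ v : Bool, (1 / 2 : ℝ) ^ (T i).card ≤
            2 * D * PP (fun x => (agr (T i) (b i) x ∧ x l = v) ∧
              none T b (I₀.erase i) x ∧ Q x) := by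
          intro v
          have h4 := h v
          rw [pow_succ] at h4
          calc (1 / 2 : ℝ) ^ (T i).card = (1 / 2) ^ (T i).card * 2 / 2 := by ring
            _ ≤ (1 / 2) ^ (T i).card * (D * θ) / 2 := by gcongr
            _ = 2 * D * ((1 / 2 : ℝ) ^ (T i).card * (1 / 2) * (θ / 2)) := by ring
            _ ≤ _ := by gcongr
        exact ⟨hupp.trans (h3 true), hupp.trans (h3 false)⟩
      · exact Or.inr h)
  refine ⟨litsOf (b i) S, mem_parts (by rw [length_litsOf, hSc]) (litsOf_lt _ _), ?_, ?_⟩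
  · intro x hx
    exact (hf x).2 ⟨i, hiI, hcand.2.1 x hx⟩
  · intro x hx hxQ
    exact hcand.2.2 x hx hxQ

end Pool.Agent.H70.LD
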