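import Pool.Agent.H70.LD.MainG

/-!
# Assembly of the general case
-/

namespace Pool.Agent.H70.LD

open Finset Pool.Agent.Helper91K9.DL Pool.Agent.H424R2.PPAD

/-- The constants. -/
theorem num_E (a M p W E : ℕ) (ha : 1 ≤ a) (hE : E = 8 * a * (M + 1))
    (hM : M = (2 * p * W + 1) ^ W)
    (hp : (1 - (1 / 2 : ℝ) ^ W) ^ p * (16 * a * ((2 * p * W + 1) ^ W + 1)) ≤ 1) (t : ℝ)
    (ht : t * (2 * E) ≤ 1) :
    (1 - (1 / 2 : ℝ) ^ W) ^ p ≤ 1 / (2 * E) ∧ 1 / (2 * (E : ℝ)) + t ≤ 1 / E ∧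
    1 / (2 * (E : ℝ)) ≤ 1 / E - t ∧
    (M + 1) * (1 / E + t) < 1 / (2 * (a : ℝ)) ∧ 
    1 / (2 * (E : ℝ)) ≤ 1 / (2 * (a : ℝ)) - M * (1 / E + t) := by
  have ha0 : (1 : ℝ) ≤ a := by exact_mod_cast ha
  have hM0 : (0 : ℝ) ≤ M := by positivity
  have hEr : (E : ℝ) = 8 * a * (M + 1) := by rw [hE]; push_cast; ring
  have hE0 : (0 : ℝ) < E := by rw [hEr]; positivity
  have hMr : ((2 * (p : ℝ) * W + 1) ^ W + 1) = M + 1 := by rw [hM]; push_cast; ring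
  have h1 : (1 - (1 / 2 : ℝ) ^ W) ^ p ≤ 1 / (2 * E) := by
    rw [le_div_iff₀ (by positivity), hEr]
    rw [hMr] at hp
    linarith
  have h2 : t ≤ 1 / (2 * E) := by
    rw [le_div_iff₀ (by positivity)]
    exact ht
  have h3 : 1 / (E : ℝ) = 2 * (1 / (2 * E)) := by field_simp
  have h4 : (M + 1) * (1 / (2 * (E : ℝ))) = 1 / (16 * a) := by
    rw [hEr]; field_simp; norm_num
  have h5 : 1 / (2 * (a : ℝ)) = 8 * (1 / (16 * a)) := by field_simp; norm_num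
  have h6 : 0 < 1 / (16 * (a : ℝ)) := by positivity
  have h7 : 0 < 1 / (2 * (E : ℝ)) := by positivity
  refine ⟨h1, by linarith, by linarith, ?_, ?_⟩
  · have : (M + 1) * (1 / (E : ℝ) + t) ≤ (M + 1) * (3 * (1 / (2 * (E : ℝ)))) := by
      gcongr
      linarith
    linarith
  · have h8 : M * (1 / (E : ℝ) + t) ≤ M * (3 * (1 / (2 * (E : ℝ)))) := by
      gcongr
      linarith
    have h9 : M * (1 / (2 * (E : ℝ))) + 1 / (2 * E) = 1 / (16 * a) := by rw [← h4]; ring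
    linarith

theorem core_G (hTW : S_TW) (hBM : S_BM) (hCL : S_CLOSE) (c a : ℕ) (hc : 1 ≤ c) (ha : 1 ≤ a) :
    ∃ M W E w₀ k D e : ℕ, ∀ (n b : ℕ) (F : List (List (ℕ × Bool))), 1 ≤ b → SmallMeets n c F →
    ∀ m, (n + a + b) ^ e ≤ m →
      Succeeds (fun s => learnG M W E w₀ k D (a, s)) n m F (1 / a) (1 / b) := by
  classical
  obtain ⟨W, hW⟩ : ∃ W, W = c + 1 := ⟨_, rfl⟩
  obtain ⟨p, hp1, hp⟩ := num_p W a (by omega)
  obtain ⟨M, hM⟩ : ∃ M, M = (2 * p * W + 1) ^ W := ⟨_, rfl⟩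
  obtain ⟨E, hE⟩ : ∃ E, E = 8 * a * (M + 1) := ⟨_, rfl⟩
  have hE1 : 1 ≤ E := by rw [hE]; exact Nat.one_le_iff_ne_zero.2 (by positivity)
  have hE0 : (0 : ℝ) < E := by exact_mod_cast hE1
  obtain ⟨θ, hθ⟩ : ∃ θ : ℝ, θ = 1 / (2 * E) := ⟨_, rfl⟩
  have hθ0 : 0 < θ := by rw [hθ]; positivity
  obtain ⟨K, hK⟩ := hTW c θ hθ0
  obtain ⟨wb, hwb⟩ := hBM c a (M * W) K ha
  obtain ⟨k, hk⟩ : ∃ k, k = c * (8 * (c + 2)) := ⟨_, rfl⟩
  obtain ⟨D, hD⟩ : ∃ D, D = 4 * E := ⟨_, rfl⟩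
  have hD1 : 1 ≤ D := by omega
  have hDθ : 2 ≤ D * θ := by
    rw [hθ, hD]; push_cast
    rw [mul_one_div, le_div_iff₀ (by positivity)]
    linarith
  obtain ⟨wn, hwn⟩ := num_w c D (2 ^ (c * (8 * (c + 2)) ^ 2) * (k : ℝ) ^ (8 * (c + 2))) θ hθ0
    (by positivity)
  obtain ⟨w₀, hw₀⟩ : ∃ w₀, w₀ = wb + wn + c + k := ⟨_, rfl⟩
  obtain ⟨C₂, hC₂⟩ : ∃ C₂, C₂ = 16 * D * 2 ^ M * (2 * E) * (4 * 2 ^ a) := ⟨_, rfl⟩
  obtain ⟨K', hK'⟩ : ∃ K', K' = 2 * w₀ + 8 + (C₂ + 2 * (c + 1)) := ⟨_, rfl⟩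
  refine ⟨M, W, E, w₀, k, D, 4 * K' + 6, fun n b F hb hF m hm => ?_⟩
  obtain ⟨ι, I, T, β, hf, hMe, -⟩ := family' n c F hF
  obtain ⟨hm1, hτa, hτN, hτm⟩ := num_tol w₀ k K' n a b ha hb (by omega) (by omega) m hm
  obtain ⟨Q, hQ⟩ : ∃ Q, Q = n + a + 2 := ⟨_, rfl⟩
  rw [← hQ] at hτa hτN hτm
  have hQ2 : 2 ≤ Q := by omega
  have hQ0 : (0 : ℝ) < Q := by exact_mod_cast (by omega : 0 < Q)
  have ha0 : (0 : ℝ) < a := by exact_mod_cast ha
  obtain ⟨τ, hτ⟩ : ∃ τ : ℝ, τ = 1 / (Q : ℝ) ^ K' := ⟨_, rfl⟩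
  rw [← hτ] at hτa hτN hτm
  have hτ0 : 0 < τ := by rw [hτ]; positivity
  refine succ_of_good F _ hb τ hτ0 hτm fun X hG => ?_
  by_cases hp0 : 1 / (2 * (a : ℝ)) ≤ PP (fun x : Cube n => ¬ ff n F x)
  swap
  · exact frameG M W E w₀ k D a ha hm1 F X τ hτ0.le hG I ∅ T β hf
      (by rw [sum_empty]; positivity) hτa hτN fun h => absurd h hp0
  obtain ⟨L, hL⟩ : ∃ L, L = Nat.log 2 (n + 1) := ⟨_, rfl⟩
  have hLn : 2 ^ L ≤ n + 1 := by rw [hL]; exact Nat.pow_log_le_self 2 (by omega)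
  have hnL : n + 1 < 2 ^ (L + 1) := by
    rw [hL]; exact Nat.lt_pow_succ_log_self (by norm_num) (n + 1)
  obtain ⟨w₁, hw₁⟩ : ∃ w₁, w₁ = 2 + a + (L + 1) * (c + 1) := ⟨_, rfl⟩
  have hcw1 : c ≤ w₁ := by
    rw [hw₁]
    have : 1 * (c + 1) ≤ (L + 1) * (c + 1) := Nat.mul_le_mul_right _ (by omega)
    omega
  -- the tolerance
  have hτw : τ * (2 ^ M * (16 * D) * (2 * E) * 2 ^ w₁) ≤ 1 := by
    rw [hτ, one_div_mul_eq_div, div_le_one (by positivity)]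
    have h1 : 2 ^ M * (16 * D) * (2 * E) * 2 ^ w₁ ≤ Q ^ K' := by
      have e0 : 2 ^ ((L + 1) * (c + 1)) ≤ Q ^ (2 * (c + 1)) := by
        rw [pow_mul, pow_mul]
        refine Nat.pow_le_pow_left ?_ _
        calc 2 ^ (L + 1) = 2 ^ L * 2 := pow_succ _ _
          _ ≤ (n + 1) * 2 := Nat.mul_le_mul_right _ hLn
          _ ≤ Q * Q := Nat.mul_le_mul (by omega) hQ2
          _ = Q ^ 2 := (sq Q).symm
      calc 2 ^ M * (16 * D) * (2 * E) * 2 ^ w₁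
          = C₂ * 2 ^ ((L + 1) * (c + 1)) := by rw [hC₂, hw₁, pow_add, pow_add]; ring
        _ ≤ Q ^ C₂ * Q ^ (2 * (c + 1)) := by
            refine Nat.mul_le_mul ?_ e0
            calc C₂ ≤ 2 ^ C₂ := Nat.lt_two_pow_self.le
              _ ≤ Q ^ C₂ := Nat.pow_le_pow_left hQ2 _
        _ = Q ^ (C₂ + 2 * (c + 1)) := by rw [← pow_add]
        _ ≤ Q ^ K' := Nat.pow_le_pow_right (by omega) (by omega)
    exact_mod_cast h1
  obtain ⟨t, ht⟩ : ∃ t : ℝ, t = 2 ^ M * τ := ⟨_, rfl⟩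
  have ht0 : 0 ≤ t := by rw [ht]; positivity
  have htE : t * (2 * E) ≤ 1 := by
    refine le_trans ?_ hτw
    rw [ht]
    have h1 : (1 : ℝ) ≤ 16 * D * 2 ^ w₁ := by
      have h2 : (1 : ℝ) ≤ D := by exact_mod_cast hD1
      have h3 : (1 : ℝ) ≤ 2 ^ w₁ := one_le_pow₀ (by norm_num)
      nlinarith
    have h4 : 0 ≤ 2 ^ M * τ * (2 * (E : ℝ)) := by positivity
    calc 2 ^ M * τ * (2 * (E : ℝ)) ≤ 2 ^ M * τ * (2 * (E : ℝ)) * (16 * D * 2 ^ w₁) :=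
          le_mul_of_one_le_right h4 h1
      _ = _ := by ring
  have htw : ∀ w, w ≤ w₁ → t * (16 * D) ≤ (1 / 2) ^ w * θ := by
    intro w hw
    have h1 : (1 / 2 : ℝ) ^ w₁ ≤ (1 / 2) ^ w :=
      pow_le_pow_of_le_one (by norm_num) (by norm_num) hw
    refine le_trans ?_ (mul_le_mul_of_nonneg_right h1 hθ0.le)
    rw [hθ, one_div_pow]
    have h2 : t * (16 * D) = τ * (2 ^ M * (16 * D) * (2 * E) * 2 ^ w₁) *
        (1 / 2 ^ w₁ * (1 / (2 * (E : ℝ)))) := by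
      rw [ht]; field_simp
    rw [h2]
    exact mul_le_of_le_one_left (by positivity) hτw
  obtain ⟨hn1, hn2, hn3, hn4, hn5⟩ := num_E a M p W E ha hE hM hp t htE
  rw [ht] at hn2 hn4
  -- the short terms
  obtain ⟨hc1, hc2, hc3, hc4, hc5⟩ := hCL n m W E M p a F X τ (1 / (2 * E)) hF.1 hm1 ha hE1 hτ0.le
    hG hM hn2 hn1 hn4 hp0
  rw [← ht] at hc3 hc4 hc5 hn4
  obtain ⟨Rs, hRs⟩ : ∃ Rs, Rs = closure W E n m (negs (smp F X)) M := ⟨_, rfl⟩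
  rw [← hRs] at hc1 hc2 hc3 hc4 hc5
  obtain ⟨I₀, hI₀⟩ : ∃ I₀, I₀ = I.filter (fun i => ∀ R ∈ Rs, ¬ UU n R ⊆ lt (T i) (β i)) :=
    ⟨_, rfl⟩
  have hI₀I : I₀ ⊆ I := by rw [hI₀]; exact filter_subset _ _
  have hMe₀ : Meets T I₀ c := hMe.mono hI₀I
  -- the event that nothing is satisfied
  have hg : ∀ x : Cube n, (none T β I₀ x ∧ ∀ R ∈ Rs, ¬ satL (UU n R) x) ↔
      (¬ ff n F x ∧ ∀ R ∈ Rs, ¬ satL (UU n R) x) := by
    intro x
    refine and_congr_left fun hQx => ?_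
    rw [hf x]
    unfold none
    push Not
    constructor
    · intro h i hi hix
      by_cases hi0 : i ∈ I₀
      · exact h i hi0 hix
      · rw [hI₀, mem_filter] at hi0
        push Not at hi0
        obtain ⟨R, hR, hRi⟩ := hi0 hi
        exact hQx R hR (satL_mono hRi ((satL_lt _ _ x).2 hix))
    · intro h i hi
      exact h i (hI₀I hi)
  have hgP : ∀ (P : Finset (Fin n)) (b' : Cube n), P.card ≤ c + 1 →
      θ ≤ PP (fun x => (none T β I₀ x ∧ ∀ R ∈ Rs, ¬ satL (UU n R) x) ∧ agr P b' x) ∨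
        ∃ R ∈ Rs, UU n R ⊆ lt P b' := by
    intro P b' hP
    by_cases hR : ∃ R ∈ Rs, UU n R ⊆ lt P b'
    · exact Or.inr hR
    left
    push Not at hR
    rcases P.eq_empty_or_nonempty with hP0 | hP0
    · have h1 : PP (fun x : Cube n => ¬ ff n F x) ≤
          PP (fun x => (none T β I₀ x ∧ ∀ R ∈ Rs, ¬ satL (UU n R) x) ∧ agr P b' x) +
          PP (fun x : Cube n => ¬ ff n F x ∧ ∃ R ∈ Rs, satL (UU n R) x) := by
        refine (PP_mono fun x hx => ?_).trans (PP_or_le _ _)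
        by_cases h : ∃ R ∈ Rs, satL (UU n R) x
        · exact Or.inr ⟨hx, h⟩
        · left
          push Not at h
          refine ⟨(hg x).2 ⟨hx, h⟩, ?_⟩
          rw [hP0]
          intro v hv
          simp at hv
      rw [hθ]
      linarith
    · have h1 := hc4 (lt P b') (lt_con P b') (by rw [lt_card]; exact card_pos.2 hP0)
        (by rw [lt_card, hW]; exact hP) hR
      rw [hθ]
      refine hn3.trans (h1.trans (PP_mono fun x hx => ?_))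
      exact ⟨(hg x).2 ⟨hx.1, hx.2.1⟩, (satL_lt P b' x).1 hx.2.2⟩
  -- the total weight
  have htot : ∑ i ∈ I₀, (1 / 2 : ℝ) ^ (T i).card ≤ K := by
    refine hK n ι I₀ T β (fun x => none T β I₀ x ∧ ∀ R ∈ Rs, ¬ satL (UU n R) x) hMe₀
      (fun x hx => hx.1) fun i hi P hP hPc => ?_
    rcases hgP P (β i) (by omega) with h | ⟨R, hR, h⟩
    · exact h
    · rw [hI₀] at hi
      exact absurd (h.trans (lt_mono hP (β i))) ((mem_filter.1 hi).2 R hR)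
  have hrv := rv_card Rs M W hc1 hc2
  have hbm := hwb n ι I₀ T (rv n Rs) hMe₀ htot hrv
  -- the bad terms
  obtain ⟨B, hB⟩ : ∃ B, B = I₀.filter (fun i => w₁ < (T i).card) ∪ I₀.filter (fun i =>
      wb < (T i).card ∧ c + 1 ≤ (T i ∩ (hv c T I₀ (T i).card ∪ rv n Rs)).card) := ⟨_, rfl⟩
  have hBw : ∑ i ∈ B, (1 / 2 : ℝ) ^ (T i).card ≤ 1 / (4 * a) := by
    have h1 : ∑ i ∈ I₀.filter (fun i => w₁ < (T i).card), (1 / 2 : ℝ) ^ (T i).card ≤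
        1 / (8 * a) := by
      refine (far_sum T I₀ c w₁ hMe₀ hcw1).trans ?_
      rw [one_div_pow, mul_one_div, div_le_div_iff₀ (by positivity) (by positivity), one_mul]
      have h2 : n ^ (c + 1) * (8 * a) ≤ 2 ^ (w₁ + 1) := by
        calc n ^ (c + 1) * (8 * a) ≤ (2 ^ (L + 1)) ^ (c + 1) * (8 * 2 ^ a) :=
              Nat.mul_le_mul (Nat.pow_le_pow_left (by omega) _)
                (Nat.mul_le_mul_left _ Nat.lt_two_pow_self.le)
          _ = 2 ^ (w₁ + 1) := by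
              rw [hw₁, ← pow_mul, pow_succ, pow_add, pow_add]; ring
      exact_mod_cast h2
    have h3 : ∑ i ∈ B, (1 / 2 : ℝ) ^ (T i).card ≤
        ∑ i ∈ I₀.filter (fun i => w₁ < (T i).card), (1 / 2 : ℝ) ^ (T i).card +
        ∑ i ∈ I₀.filter (fun i => wb < (T i).card ∧
          c + 1 ≤ (T i ∩ (hv c T I₀ (T i).card ∪ rv n Rs)).card), (1 / 2 : ℝ) ^ (T i).card := by
      rw [hB, ← sum_union_inter]
      exact le_add_of_nonneg_right (sum_nonneg fun i _ => by positivity)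
    have h4 : 1 / (4 * (a : ℝ)) = 1 / (8 * a) + 1 / (8 * a) := by field_simp; norm_num
    rw [h4]
    exact h3.trans (add_le_add h1 hbm)
  refine frameG M W E w₀ k D a ha hm1 F X τ hτ0.le hG I B T β hf hBw hτa hτN fun _ => ?_
  rw [← hRs]
  refine ⟨fun R hR => (hc2 R hR).2, ?_, ?_⟩
  · refine hc3.trans ?_
    have h7 : 0 < 1 / (2 * (E : ℝ)) := by positivity
    linarith
  · intro i hi hiB
    by_cases hi0 : i ∈ I₀
    swap
    · left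
      intro x hx
      rw [hI₀, mem_filter] at hi0
      push Not at hi0
      obtain ⟨R, hR, hRi⟩ := hi0 hi
      exact ⟨R, hR, satL_mono hRi ((satL_lt _ _ x).2 hx)⟩
    right
    by_cases hiw : (T i).card ≤ w₀
    · exact Or.inl hiw
    right
    push Not at hiw
    rw [hB, mem_union, mem_filter, mem_filter] at hiB
    push Not at hiB
    have hiw1 : (T i).card ≤ w₁ := hiB.1 hi0
    have hi3 := hiB.2 hi0 (by omega)
    obtain ⟨hx1, hx2⟩ := hwn (T i).card (by omega)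
    exact term_G c k D hc hD1 hk θ t hθ0 hDθ ht0 F Rs (fun R hR => (hc2 R hR).2) X hm1 hc5 I I₀
      T β hf hI₀ hMe₀ hgP i hi0 (by omega) (by omega) hx1 hx2 (htw _ hiw1)

end Pool.Agent.H70.LD
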