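import Pool.Agent.H70.LD.Leaves

/-!
# Numerical estimates for the general case
-/

namespace Pool.Agent.H70.LD

open Finset

/-- The choice of `p`. -/
theorem num_p (W a : ℕ) (hW : 1 ≤ W) : ∃ p : ℕ, 1 ≤ p ∧
    (1 - (1 / 2 : ℝ) ^ W) ^ p * (16 * a * ((2 * p * W + 1) ^ W + 1)) ≤ 1 := by
  have hr0 : (0 : ℝ) ≤ 1 - (1 / 2) ^ W := by
    have : (1 / 2 : ℝ) ^ W ≤ 1 := pow_le_one₀ (by norm_num) (by norm_num)
    linarith
  have hr1 : (1 : ℝ) - (1 / 2) ^ W < 1 := by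
    have : (0 : ℝ) < (1 / 2) ^ W := by positivity
    linarith
  have h1 := tendsto_pow_const_mul_const_pow_of_lt_one W hr0 hr1
  have h2 : ∀ᶠ x : ℕ in Filter.atTop, (x : ℝ) ^ W * (1 - (1 / 2 : ℝ) ^ W) ^ x <
      1 / (32 * ((a : ℝ) + 1) * (2 * W + 1) ^ W) := h1.eventually_lt_const (by positivity)
  obtain ⟨N, hN⟩ := Filter.eventually_atTop.1 h2
  refine ⟨N + 1, by omega, ?_⟩
  have h3 := hN (N + 1) (by omega)
  obtain ⟨p, hp⟩ : ∃ p : ℕ, p = N + 1 := ⟨_, rfl⟩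
  rw [← hp] at h3 ⊢
  have hp1 : (1 : ℝ) ≤ p := by exact_mod_cast (by omega : 1 ≤ p)
  rw [lt_div_iff₀ (by positivity)] at h3
  have h4 : (2 * (p : ℝ) * W + 1) ^ W ≤ (2 * W + 1) ^ W * (p : ℝ) ^ W := by
    rw [← mul_pow]
    refine pow_le_pow_left₀ (by positivity) ?_ _
    nlinarith
  have h5 : (1 : ℝ) ≤ (2 * (p : ℝ) * W + 1) ^ W := one_le_pow₀ (by
    have : (0 : ℝ) ≤ 2 * (p : ℝ) * W := by positivity
    linarith)
  have h6 : (16 : ℝ) * a * ((2 * p * W + 1) ^ W + 1) ≤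
      32 * (a + 1) * ((2 * W + 1) ^ W * (p : ℝ) ^ W) := by
    calc (16 : ℝ) * a * ((2 * p * W + 1) ^ W + 1)
        ≤ 16 * (a + 1) * ((2 * p * W + 1) ^ W + (2 * p * W + 1) ^ W) := by
          gcongr
          linarith
      _ = 32 * (a + 1) * (2 * p * W + 1) ^ W := by ring
      _ ≤ _ := by gcongr
  calc (1 - (1 / 2 : ℝ) ^ W) ^ p * (16 * a * ((2 * p * W + 1) ^ W + 1))
      ≤ (1 - (1 / 2 : ℝ) ^ W) ^ p * (32 * (a + 1) * ((2 * W + 1) ^ W * (p : ℝ) ^ W)) :=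
        mul_le_mul_of_nonneg_left h6 (pow_nonneg hr0 _)
    _ = (p : ℝ) ^ W * (1 - (1 / 2 : ℝ) ^ W) ^ p * (32 * ((a : ℝ) + 1) * (2 * W + 1) ^ W) := by
        ring
    _ ≤ 1 := h3.le

/-- The choice of the smallest width. -/
theorem num_w (c D : ℕ) (C θ : ℝ) (hθ : 0 < θ) (hC : 0 ≤ C) : ∃ w₀ : ℕ, ∀ w, w₀ < w →
    2 ^ (c + 1) * (((w : ℝ) + 1) * (1 / 2) ^ (w / (4 * (c + 2)))) ≤ θ / 2 ∧
    C * ((1 / 2 : ℝ) ^ (w / (4 * (c + 2)))) ^ (8 * (c + 2)) * (16 * D) ≤ (1 / 2) ^ w * θ := by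
  obtain ⟨d, hd⟩ : ∃ d, d = 4 * (c + 2) := ⟨_, rfl⟩
  have hd8 : 8 * (c + 2) = 2 * d := by omega
  rw [← hd, hd8]
  have hd1 : 1 ≤ d := by omega
  have hd0 : (0 : ℝ) < d := by exact_mod_cast hd1
  have h1 := tendsto_pow_const_mul_const_pow_of_lt_one 1 (r := (1 / 2 : ℝ)) (by norm_num)
    (by norm_num)
  have h2 : ∀ᶠ x : ℕ in Filter.atTop, (x : ℝ) ^ 1 * (1 / 2 : ℝ) ^ x <
      θ / (4 * 2 ^ (c + 1) * d) := h1.eventually_lt_const (by positivity)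
  obtain ⟨t₀, ht₀⟩ := Filter.eventually_atTop.1 h2
  have h3 : ∀ᶠ x : ℕ in Filter.atTop, (1 / 2 : ℝ) ^ x < θ / (C * (16 * D) * 2 ^ (2 * d) + 1) :=
    (tendsto_pow_atTop_nhds_zero_of_lt_one (by norm_num) (by norm_num)).eventually_lt_const
      (by positivity)
  obtain ⟨w₂, hw₂⟩ := Filter.eventually_atTop.1 h3
  refine ⟨d * t₀ + w₂, fun w hw => ?_⟩
  obtain ⟨t, ht⟩ : ∃ t, t = w / d := ⟨_, rfl⟩
  rw [← ht]
  have hwd : w + 1 ≤ d * (t + 1) := by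
    have := Nat.lt_mul_div_succ w (by omega : 0 < d)
    rw [← ht] at this
    exact this
  have htt : t₀ ≤ t := by
    rw [ht]
    exact (Nat.le_div_iff_mul_le (by omega)).2 (by rw [mul_comm]; omega)
  constructor
  · have h4 := ht₀ (t + 1) (by omega)
    rw [lt_div_iff₀ (by positivity), pow_one, pow_succ] at h4
    have h5 : ((w : ℝ) + 1) ≤ d * (t + 1) := by exact_mod_cast hwd
    push_cast at h4
    calc 2 ^ (c + 1) * (((w : ℝ) + 1) * (1 / 2) ^ t) ≤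
          2 ^ (c + 1) * ((d * (t + 1)) * (1 / 2) ^ t) := by gcongr
      _ = (((t : ℝ) + 1) * ((1 / 2) ^ t * (1 / 2)) * (4 * 2 ^ (c + 1) * d)) / 2 := by ring
      _ ≤ θ / 2 := by linarith
  · have h4 := hw₂ w (by omega)
    rw [lt_div_iff₀ (by positivity)] at h4
    have h5 : ((1 / 2 : ℝ) ^ t) ^ (2 * d) ≤ 2 ^ (2 * d) * ((1 / 2) ^ w * (1 / 2) ^ w) := by
      rw [← pow_mul]
      have h6 : w + w ≤ t * (2 * d) + 2 * d := by
        have : t * (2 * d) + 2 * d = 2 * (d * (t + 1)) := by ring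
        omega
      have e : (2 : ℝ) ^ (2 * d) * (1 / 2) ^ (2 * d) = 1 := by
        rw [← mul_pow]; norm_num
      calc (1 / 2 : ℝ) ^ (t * (2 * d)) = 2 ^ (2 * d) * (1 / 2 : ℝ) ^ (t * (2 * d) + 2 * d) := by
            rw [pow_add]
            linear_combination (-(1 / 2 : ℝ) ^ (t * (2 * d))) * e
        _ ≤ 2 ^ (2 * d) * (1 / 2 : ℝ) ^ (w + w) := by
            refine mul_le_mul_of_nonneg_left (pow_le_pow_of_le_one (by norm_num) (by norm_num) h6)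
              (by positivity)
        _ = _ := by rw [pow_add]
    calc C * ((1 / 2 : ℝ) ^ t) ^ (2 * d) * (16 * D)
        ≤ C * (2 ^ (2 * d) * ((1 / 2) ^ w * (1 / 2) ^ w)) * (16 * D) := by gcongr
      _ = (1 / 2) ^ w * ((1 / 2) ^ w * (C * (16 * D) * 2 ^ (2 * d))) := by ring
      _ ≤ (1 / 2) ^ w * θ := by
          refine mul_le_mul_of_nonneg_left ?_ (by positivity)
          have : (0 : ℝ) < (1 / 2) ^ w := by positivity
          linarith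

end Pool.Agent.H70.LD
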