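import Pool.Agent.H70.LD.Core
import Pool.Agent.Helper91K9.DL.Link
import Pool.Agent.Helper91K9.DL.Correct

/-!
# The ratio test
-/

namespace Pool.Agent.H70.LD

open Finset Pool.Agent.Helper91K9.DL

variable {n m : ℕ}

theorem UU_nil : UU n [] = ∅ := by
  ext l
  simp [mem_UU]

theorem cnt_sub (F : List (List (ℕ × Bool))) (X : Fin m → Cube n)
    (S : List ℕ) (hS : ∀ v ∈ S, v < n) (hn : S.Nodup) :
    (cnt (negs (smp F X)) [] S true : ℝ) - cnt (negs (smp F X)) [] S false =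
      stat X (ff n F) ∅ (SS n S) := by
  rw [cnt_eq F X [] (by simp) S hS hn, UU_nil]

theorem dif_eq (F : List (List (ℕ × Bool))) (X : Fin m → Cube n)
    (S : List ℕ) (hS : ∀ v ∈ S, v < n) (hn : S.Nodup) :
    (dif (negs (smp F X)) S : ℝ) = |stat X (ff n F) ∅ (SS n S)| := by
  rw [← cnt_sub F X S hS hn]
  unfold dif
  generalize cnt (negs (smp F X)) [] S true = p
  generalize cnt (negs (smp F X)) [] S false = q
  rcases le_total q p with h | h
  · rw [Nat.sub_eq_zero_of_le h, add_zero, Nat.cast_sub h, abs_of_nonneg]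
    rw [sub_nonneg]; exact_mod_cast h
  · rw [Nat.sub_eq_zero_of_le h, zero_add, Nat.cast_sub h, abs_sub_comm, abs_of_nonneg]
    rw [sub_nonneg]; exact_mod_cast h

theorem pos_stat (F : List (List (ℕ × Bool))) (X : Fin m → Cube n)
    (S : List ℕ) (hS : ∀ v ∈ S, v < n) (hn : S.Nodup) :
    pos (negs (smp F X)) [] S = true ↔ 0 < stat X (ff n F) ∅ (SS n S) := by
  rw [pos_iff F X [] (by simp) S hS hn]
  unfold st
  rw [UU_nil]

/-- The sign of a statistic which is near `s * u`. -/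
theorem pos_of_near (F : List (List (ℕ × Bool))) (X : Fin m → Cube n) (hm : 1 ≤ m)
    (S : List ℕ) (hS : ∀ v ∈ S, v < n) (hn : S.Nodup) (a : Bool) (u ν τ : ℝ) (hu : 0 < u)
    (hν : ν + τ < u) (hG : Good X (ff n F) τ) (hc : |coef (ff n F) ∅ (SS n S) - sg a * u| ≤ ν) :
    pos (negs (smp F X)) [] S = a := by
  have hm0 : (0 : ℝ) < m := by exact_mod_cast hm
  have h1 := hG ∅ (SS n S)
  rw [abs_le] at h1 hc
  cases a with
  | true =>
    rw [pos_stat F X S hS hn]
    simp only [sg, if_true, one_mul] at hc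
    have h2 : (m : ℝ) * (u - ν) ≤ m * coef (ff n F) ∅ (SS n S) :=
      mul_le_mul_of_nonneg_left (by linarith) hm0.le
    have h3 : 0 < (m : ℝ) * (u - ν - τ) := mul_pos hm0 (by linarith)
    nlinarith
  | false =>
    rw [← Bool.not_eq_true, pos_stat F X S hS hn, not_lt]
    simp only [sg] at hc
    have h2 : (m : ℝ) * coef (ff n F) ∅ (SS n S) ≤ m * (ν - u) :=
      mul_le_mul_of_nonneg_left (by simp at hc; linarith) hm0.le
    have h3 : 0 < (m : ℝ) * (u - ν - τ) := mul_pos hm0 (by linarith)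
    nlinarith

theorem dif_near (F : List (List (ℕ × Bool))) (X : Fin m → Cube n)
    (S : List ℕ) (hS : ∀ v ∈ S, v < n) (hn : S.Nodup) (τ : ℝ) (hG : Good X (ff n F) τ) :
    |(dif (negs (smp F X)) S : ℝ) - (m * |coef (ff n F) ∅ (SS n S)|)| ≤ m * τ := by
  rw [dif_eq F X S hS hn]
  have h1 := hG ∅ (SS n S)
  have h2 : |(m : ℝ) * coef (ff n F) ∅ (SS n S)| = m * |coef (ff n F) ∅ (SS n S)| := by
    rw [abs_mul, abs_of_nonneg (by positivity)]
  rw [← h2]
  exact (abs_abs_sub_abs_le _ _).trans h1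

theorem abs_near {c u ν : ℝ} {a : Bool} (h : |c - sg a * u| ≤ ν) (hu : 0 ≤ u) :
    |(|c| - u)| ≤ ν := by
  have h1 : |sg a * u| = u := by
    rw [abs_mul, abs_of_nonneg hu]
    cases a <;> simp [sg]
  have h2 := abs_abs_sub_abs_le c (sg a * u)
  rw [h1] at h2
  exact h2.trans h

theorem notin_all (S : List ℕ) (j : ℕ) (hj : j ∉ S) : (S.all fun i => !(i == j)) = true := by
  rw [List.all_eq_true]
  intro i hi
  simp only [Bool.not_eq_true', beq_eq_false_iff_ne, ne_eq]
  rintro rfl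
  exact hj hi

/-- The test is passed. -/
theorem tst_pass (F : List (List (ℕ × Bool))) (X : Fin m → Cube n) (hm : 1 ≤ m) (D : ℕ)
    (hD : 1 ≤ D) (S : List ℕ) (hS : ∀ v ∈ S, v < n) (hn : S.Nodup) (j : ℕ) (hj : j < n)
    (hjS : j ∉ S) (a a' : Bool) (u ν τ : ℝ) (hu : 0 < u) (hτ : 0 ≤ τ)
    (hν : 4 * D * (ν + τ) ≤ u) (hG : Good X (ff n F) τ)
    (hc : |coef (ff n F) ∅ (SS n S) - sg a * u| ≤ ν)
    (hc' : |coef (ff n F) ∅ (SS n (j :: S)) - sg (a' == a) * u| ≤ ν) :
    tst D (negs (smp F X)) S j = true ∧ sig (negs (smp F X)) S j = a' := by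
  have hm0 : (0 : ℝ) < m := by exact_mod_cast hm
  have hD0 : (1 : ℝ) ≤ D := by exact_mod_cast hD
  have hν0 : 0 ≤ ν := (abs_nonneg _).trans hc
  have hS' : ∀ v ∈ j :: S, v < n := by
    intro v hv
    rcases List.mem_cons.1 hv with rfl | hv
    · exact hj
    · exact hS v hv
  have hn' : (j :: S).Nodup := List.nodup_cons.2 ⟨hjS, hn⟩
  have h4 : (ν + τ) ≤ D * (ν + τ) := le_mul_of_one_le_left (by linarith) hD0
  have hlt : ν + τ < u := by
    rcases (add_nonneg hν0 hτ).eq_or_lt with h | h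
    · rw [← h]; exact hu
    · nlinarith
  constructor
  · unfold tst
    rw [notin_all S j hjS, Bool.true_and, decide_eq_true_iff]
    have h1 := dif_near F X S hS hn τ hG
    have h2 := dif_near F X (j :: S) hS' hn' τ hG
    have h3 := abs_near hc hu.le
    have h3' := abs_near hc' hu.le
    rw [abs_le] at h1 h2 h3 h3'
    have e1 : (dif (negs (smp F X)) S : ℝ) ≤ m * (u + (ν + τ)) := by
      have : (m : ℝ) * |coef (ff n F) ∅ (SS n S)| ≤ m * (u + ν) :=
        mul_le_mul_of_nonneg_left (by linarith) hm0.le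
      nlinarith
    have e2 : (m : ℝ) * (u - (ν + τ)) ≤ (dif (negs (smp F X)) (j :: S) : ℝ) := by
      have : (m : ℝ) * (u - ν) ≤ m * |coef (ff n F) ∅ (SS n (j :: S))| :=
        mul_le_mul_of_nonneg_left (by linarith) hm0.le
      nlinarith
    have e3 : ((2 * D - 1 : ℕ) : ℝ) = 2 * D - 1 := by
      rw [Nat.cast_sub (by omega)]; push_cast; ring
    have e4 : ((2 * D - 1 : ℕ) : ℝ) * (dif (negs (smp F X)) S : ℝ) ≤
        2 * D * (dif (negs (smp F X)) (j :: S) : ℝ) := by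
      rw [e3]
      calc (2 * (D : ℝ) - 1) * (dif (negs (smp F X)) S : ℝ) ≤ (2 * D - 1) * (m * (u + (ν + τ))) :=
            mul_le_mul_of_nonneg_left e1 (by linarith)
        _ ≤ 2 * D * (m * (u - (ν + τ))) := by
            have : 0 ≤ m * (u - (4 * D - 1) * (ν + τ)) :=
              mul_nonneg hm0.le (by nlinarith)
            nlinarith
        _ ≤ _ := mul_le_mul_of_nonneg_left e2 (by linarith)
    exact_mod_cast e4
  · unfold sig
    rw [pos_of_near F X hm S hS hn a u ν τ hu hlt hG hc,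
      pos_of_near F X hm (j :: S) hS' hn' (a' == a) u ν τ hu hlt hG hc']
    cases a <;> cases a' <;> rfl

/-- The test is failed. -/
theorem tst_fail (F : List (List (ℕ × Bool))) (X : Fin m → Cube n) (hm : 1 ≤ m) (D : ℕ)
    (hD : 1 ≤ D) (S : List ℕ) (hS : ∀ v ∈ S, v < n) (hn : S.Nodup) (j : ℕ) (hj : j < n)
    (hjS : j ∉ S) (a : Bool) (u ν τ : ℝ) (hu : 0 < u) (hτ : 0 ≤ τ)
    (hν : 4 * D * (ν + τ) ≤ u) (hG : Good X (ff n F) τ)
    (hc : |coef (ff n F) ∅ (SS n S) - sg a * u| ≤ ν)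
    (hc' : D * |coef (ff n F) ∅ (SS n (j :: S))| ≤ (D - 1) * u + D * ν) :
    tst D (negs (smp F X)) S j = false := by
  have hm0 : (0 : ℝ) < m := by exact_mod_cast hm
  have hD0 : (1 : ℝ) ≤ D := by exact_mod_cast hD
  have hν0 : 0 ≤ ν := (abs_nonneg _).trans hc
  have hS' : ∀ v ∈ j :: S, v < n := by
    intro v hv
    rcases List.mem_cons.1 hv with rfl | hv
    · exact hj
    · exact hS v hv
  have hn' : (j :: S).Nodup := List.nodup_cons.2 ⟨hjS, hn⟩
  unfold tst
  rw [notin_all S j hjS, Bool.true_and, decide_eq_false_iff_not, not_le]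
  have h1 := dif_near F X S hS hn τ hG
  have h2 := dif_near F X (j :: S) hS' hn' τ hG
  have h3 := abs_near hc hu.le
  rw [abs_le] at h1 h2 h3
  have e1 : (m : ℝ) * (u - (ν + τ)) ≤ (dif (negs (smp F X)) S : ℝ) := by
    have : (m : ℝ) * (u - ν) ≤ m * |coef (ff n F) ∅ (SS n S)| :=
      mul_le_mul_of_nonneg_left (by linarith) hm0.le
    nlinarith
  have e2 : D * (dif (negs (smp F X)) (j :: S) : ℝ) ≤ m * ((D - 1) * u + D * (ν + τ)) := by
    have : (m : ℝ) * (D * |coef (ff n F) ∅ (SS n (j :: S))|) ≤ m * ((D - 1) * u + D * ν) :=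
      mul_le_mul_of_nonneg_left hc' hm0.le
    have h5 : (D : ℝ) * (dif (negs (smp F X)) (j :: S) : ℝ) ≤
        D * (m * |coef (ff n F) ∅ (SS n (j :: S))| + m * τ) :=
      mul_le_mul_of_nonneg_left (by linarith) (by linarith)
    nlinarith
  have e3 : ((2 * D - 1 : ℕ) : ℝ) = 2 * D - 1 := by
    rw [Nat.cast_sub (by omega)]; push_cast; ring
  have e4 : 2 * D * (dif (negs (smp F X)) (j :: S) : ℝ) <
      ((2 * D - 1 : ℕ) : ℝ) * (dif (negs (smp F X)) S : ℝ) := by
    rw [e3]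
    have h6 : (4 * D - 1) * (ν + τ) < u := by
      rcases (add_nonneg hν0 hτ).eq_or_lt with h | h
      · rw [← h]; simpa using hu
      · nlinarith
    calc 2 * D * (dif (negs (smp F X)) (j :: S) : ℝ)
        = 2 * (D * (dif (negs (smp F X)) (j :: S) : ℝ)) := by ring
      _ ≤ 2 * (m * ((D - 1) * u + D * (ν + τ))) := mul_le_mul_of_nonneg_left e2 (by norm_num)
      _ < (2 * D - 1) * (m * (u - (ν + τ))) := by
          have : 0 < m * (u - (4 * D - 1) * (ν + τ)) := mul_pos hm0 (by linarith)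
          nlinarith
      _ ≤ _ := mul_le_mul_of_nonneg_left e1 (by linarith)
  exact_mod_cast e4

end Pool.Agent.H70.LD
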