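import Pool.Agent.H70.LD.Hc

/-!
# Leaf WB
-/

namespace Pool.Agent.H70.LD

open Finset Pool.Agent.Helper91K9.DL

variable {n : ℕ}

/-- The number of the small subsets of a set. -/
theorem card_small (U : Finset (Fin n)) (c : ℕ) :
    (U.powerset.filter fun Q => Q.card ≤ c).card ≤ (1 + U.card) ^ c := by
  classical
  induction c with
  | zero =>
    rw [pow_zero, card_le_one]
    intro A hA B hB
    rw [mem_filter] at hA hB
    rw [card_eq_zero.1 (Nat.le_zero.1 hA.2), card_eq_zero.1 (Nat.le_zero.1 hB.2)]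
  | succ c ih =>
    have h1 : (U.powerset.filter fun Q => Q.card ≤ c + 1) ⊆
        (U.powerset.filter fun Q => Q.card ≤ c) ∪ U.powersetCard (c + 1) := by
      intro Q hQ
      rw [mem_filter, mem_powerset] at hQ
      rw [mem_union, mem_filter, mem_powerset, mem_powersetCard]
      rcases Nat.lt_or_ge c Q.card with h | h
      · right; exact ⟨hQ.1, by omega⟩
      · left; exact ⟨hQ.1, h⟩
    have h2 := (card_le_card h1).trans (card_union_le _ _)
    rw [card_powersetCard] at h2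
    have h3 : U.card.choose (c + 1) ≤ U.card * (1 + U.card) ^ c := by
      refine (Nat.choose_le_pow _ _).trans ?_
      rw [pow_succ, mul_comm]
      exact Nat.mul_le_mul_left _ (Nat.pow_le_pow_left (by omega) _)
    calc _ ≤ _ := h2
      _ ≤ (1 + U.card) ^ c + U.card * (1 + U.card) ^ c := Nat.add_le_add ih h3
      _ = _ := by ring

open Classical in
theorem PP_sum (p : Cube n → Prop) : 2 ^ n * PP p = ∑ x, if p x then (1 : ℝ) else 0 := by
  rw [PP_eq, sum_boole, mul_div_cancel₀]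
  positivity

open Classical in
theorem second_moment {ι : Type} (J : Finset ι) (T : ι → Finset (Fin n)) (a : ι → Cube n) :
    PP (none T a J) * (∑ i ∈ J, (1 / 2 : ℝ) ^ (T i).card) ^ 2 ≤
      ∑ i ∈ J, ∑ j ∈ J, PP (fun x => agr (T i) (a i) x ∧ agr (T j) (a j) x) -
        (∑ i ∈ J, (1 / 2 : ℝ) ^ (T i).card) ^ 2 := by
  set Λ := ∑ i ∈ J, (1 / 2 : ℝ) ^ (T i).card with hΛ
  set X : Cube n → ℝ := fun x => ∑ i ∈ J, if agr (T i) (a i) x then 1 else 0 with hX
  have e1 : ∑ x, X x = 2 ^ n * Λ := by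
    rw [hX, sum_comm, hΛ, mul_sum]
    refine sum_congr rfl fun i _ => ?_
    rw [← PP_agr (T i) (a i), PP_sum]
  have e2 : ∑ x, X x ^ 2 =
      2 ^ n * ∑ i ∈ J, ∑ j ∈ J, PP (fun x => agr (T i) (a i) x ∧ agr (T j) (a j) x) := by
    simp only [hX, sq, sum_mul_sum]
    rw [sum_comm, mul_sum]
    refine sum_congr rfl fun i _ => ?_
    rw [sum_comm, mul_sum]
    refine sum_congr rfl fun j _ => ?_
    rw [PP_sum]
    refine sum_congr rfl fun x _ => ?_
    by_cases h1 : agr (T i) (a i) x <;> by_cases h2 : agr (T j) (a j) x <;> simp [h1, h2]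
  have e3 : 2 ^ n * (PP (none T a J) * Λ ^ 2) ≤ ∑ x, (X x - Λ) ^ 2 := by
    rw [← mul_assoc, PP_sum, sum_mul]
    refine sum_le_sum fun x _ => ?_
    by_cases h : none T a J x
    · rw [if_pos h]
      have : X x = 0 := by
        rw [hX]
        exact sum_eq_zero fun i hi => if_neg (h i hi)
      rw [this]
      apply le_of_eq
      ring
    · rw [if_neg h, zero_mul]
      positivity
  have e4 : ∑ x, (X x - Λ) ^ 2 = ∑ x, X x ^ 2 - 2 * Λ * ∑ x, X x + 2 ^ n * Λ ^ 2 := by
    have : ∀ x, (X x - Λ) ^ 2 = X x ^ 2 - 2 * Λ * X x + Λ ^ 2 := fun x => by ring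
    simp_rw [this]
    rw [sum_add_distrib, sum_sub_distrib, ← mul_sum, sum_const, card_univ, nsmul_eq_mul]
    congr 2
    rw [Fintype.card_fun, Fintype.card_bool, Fintype.card_fin]
    push_cast
    rfl
  rw [e4, e1, e2] at e3
  have h0 : (0 : ℝ) < 2 ^ n := by positivity
  refine le_of_mul_le_mul_left (e3.trans (le_of_eq ?_)) h0
  ring

/-- The weight of the members that meet the member `i`. -/
noncomputable def Dl {ι : Type} (J : Finset ι) (T : ι → Finset (Fin n)) (i : ι) : ℝ := by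
  classical exact
  ∑ j ∈ J.filter (fun j => j ≠ i ∧ (T i ∩ T j).Nonempty), (1 / 2 : ℝ) ^ (T j \ T i).card

open Classical in
theorem pair_bound {ι : Type} (T : ι → Finset (Fin n)) (a : ι → Cube n) (i j : ι) :
    PP (fun x => agr (T i) (a i) x ∧ agr (T j) (a j) x) ≤
      (1 / 2 : ℝ) ^ (T i).card * (1 / 2 : ℝ) ^ (T j).card +
      ((if j = i then (1 / 2 : ℝ) ^ (T i).card else 0) +
        (1 / 2 : ℝ) ^ (T i).card *
          (if j ≠ i ∧ (T i ∩ T j).Nonempty then (1 / 2 : ℝ) ^ (T j \ T i).card else 0)) := by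
  have hp : ∀ m : ℕ, (0 : ℝ) ≤ (1 / 2) ^ m := fun m => by positivity
  by_cases h : j = i
  · subst h
    rw [if_pos rfl, if_neg (by simp)]
    have : PP (fun x => agr (T j) (a j) x ∧ agr (T j) (a j) x) = (1 / 2) ^ (T j).card := by
      rw [← PP_agr (T j) (a j)]
      exact PP_congr fun x => by simp
    rw [this]
    have := mul_nonneg (hp (T j).card) (hp (T j).card)
    linarith
  · rw [if_neg h]
    have hind : ∀ S : Finset (Fin n), Disjoint (T i) S →
        PP (fun x => agr (T i) (a i) x ∧ agr S (a j) x) =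
          (1 / 2) ^ (T i).card * (1 / 2) ^ S.card := by
      intro S hS
      rw [indep (T i), PP_agr, PP_agr]
      · intro x y hxy
        exact forall₂_congr fun v hv => by rw [hxy v hv]
      · intro x y hxy
        exact forall₂_congr fun v hv => by
          rw [hxy v (fun hv' => (disjoint_left.1 hS) hv' hv)]
    by_cases h2 : (T i ∩ T j).Nonempty
    · rw [if_pos ⟨h, h2⟩]
      have h3 : PP (fun x => agr (T i) (a i) x ∧ agr (T j) (a j) x) ≤
          PP (fun x => agr (T i) (a i) x ∧ agr (T j \ T i) (a j) x) :=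
        PP_mono fun x hx => ⟨hx.1, fun v hv => hx.2 v (mem_sdiff.1 hv).1⟩
      rw [hind _ disjoint_sdiff] at h3
      have := mul_nonneg (hp (T i).card) (hp (T j).card)
      linarith
    · rw [if_neg (by tauto), hind _ (disjoint_iff_inter_eq_empty.2 (not_nonempty_iff_eq_empty.1 h2))]
      simp

open Classical in
theorem cheb {ι : Type} (J : Finset ι) (T : ι → Finset (Fin n)) (a : ι → Cube n) :
    PP (none T a J) * (∑ i ∈ J, (1 / 2 : ℝ) ^ (T i).card) ^ 2 ≤
      ∑ i ∈ J, (1 / 2 : ℝ) ^ (T i).card + ∑ i ∈ J, (1 / 2 : ℝ) ^ (T i).card * Dl J T i := by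
  refine (second_moment J T a).trans ?_
  rw [sub_le_iff_le_add]
  refine (sum_le_sum fun i _ => sum_le_sum fun j _ => pair_bound T a i j).trans (le_of_eq ?_)
  simp_rw [sum_add_distrib]
  rw [sq, sum_mul_sum, add_comm]
  congr 2
  · refine sum_congr rfl fun i hi => ?_
    rw [sum_ite_eq' J i, if_pos hi]
  · refine sum_congr rfl fun i hi => ?_
    rw [← mul_sum, Dl, sum_filter]

/-- The sum over the small subsets. -/
theorem Dl_le {ι : Type} (J : Finset ι) (T : ι → Finset (Fin n)) (c : ℕ) (hM : Meets T J c)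
    (i : ι) (hi : i ∈ J) (g : Finset (Fin n) → ℝ)
    (hg : ∀ Q : Finset (Fin n), Q.Nonempty → Q.card ≤ c → Q ⊆ T i →
      (open Classical in 2 ^ Q.card * ∑ j ∈ J.filter (fun j => Q ⊆ T j),
        (1 / 2 : ℝ) ^ (T j).card) ≤ g Q) :
    Dl J T i ≤ ∑ Q ∈ (T i).powerset.filter (fun Q => Q.card ≤ c ∧ Q.Nonempty), g Q := by
  classical
  have h1 : Dl J T i = ∑ Q ∈ (T i).powerset.filter (fun Q => Q.card ≤ c ∧ Q.Nonempty),
      ∑ j ∈ (J.filter (fun j => j ≠ i ∧ (T i ∩ T j).Nonempty)).filter (fun j => T i ∩ T j = Q),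
        (1 / 2 : ℝ) ^ (T j \ T i).card := by
    rw [sum_fiberwise_of_maps_to]
    · unfold Dl
      refine sum_congr ?_ fun _ _ => rfl
      ext; simp
    · intro j hj
      rw [mem_filter] at hj
      rw [mem_filter, mem_powerset]
      exact ⟨inter_subset_left, hM i hi j hj.1 hj.2.1.symm, hj.2.2⟩
  rw [h1]
  refine sum_le_sum fun Q hQ => ?_
  rw [mem_filter, mem_powerset] at hQ
  refine le_trans ?_ (hg Q hQ.2.2 hQ.2.1 hQ.1)
  rw [mul_sum]
  calc ∑ j ∈ (J.filter (fun j => j ≠ i ∧ (T i ∩ T j).Nonempty)).filter (fun j => T i ∩ T j = Q),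
        (1 / 2 : ℝ) ^ (T j \ T i).card
      = ∑ j ∈ (J.filter (fun j => j ≠ i ∧ (T i ∩ T j).Nonempty)).filter (fun j => T i ∩ T j = Q),
        2 ^ Q.card * (1 / 2 : ℝ) ^ (T j).card := by
        refine sum_congr rfl fun j hj => ?_
        have h2 := (mem_filter.1 hj).2
        have h3 : (T j \ T i).card + Q.card = (T j).card := by
          rw [← h2, inter_comm]
          exact card_sdiff_add_card_inter _ _
        rw [← h3, pow_add]
        have : (1 / 2 : ℝ) ^ Q.card * 2 ^ Q.card = 1 := by rw [← mul_pow]; norm_num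
        linear_combination (-(1 / 2 : ℝ) ^ (T j \ T i).card) * this
    _ ≤ ∑ j ∈ J.filter (fun j => Q ⊆ T j), 2 ^ Q.card * (1 / 2 : ℝ) ^ (T j).card := by
        refine sum_le_sum_of_subset_of_nonneg ?_ fun _ _ _ => by positivity
        intro j hj
        rw [mem_filter, mem_filter] at hj
        rw [mem_filter]
        exact ⟨hj.1.1, hj.2 ▸ inter_subset_right⟩

theorem subfamily {ι : Type} (f : ι → ℝ) (hf : ∀ i, f i ≤ 1) (K : ℝ) (J : Finset ι)
    (hJ : K < ∑ i ∈ J, f i) : 0 ≤ K → ∃ J' ⊆ J, K < ∑ i ∈ J', f i ∧ ∑ i ∈ J', f i ≤ K + 1 := by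
  classical
  intro hK
  induction J using Finset.induction_on with
  | empty => simp at hJ; linarith
  | insert i J hi ih =>
    by_cases h : K < ∑ i ∈ J, f i
    · obtain ⟨J', h1, h2⟩ := ih h
      exact ⟨J', h1.trans (subset_insert _ _), h2⟩
    · refine ⟨insert i J, Subset.rfl, hJ, ?_⟩
      rw [sum_insert hi]
      have := hf i
      push Not at h
      linarith

/-- The function that appears in the sums over the sizes. -/
noncomputable def Gw (c : ℕ) (w : ℕ) : ℝ := (1 + w) ^ c * (1 / 2) ^ (w / (4 * (c + 2)))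

theorem Gw_nonneg (c w : ℕ) : 0 ≤ Gw c w := by unfold Gw; positivity

theorem Gw_summable (c : ℕ) : Summable (Gw c) := by
  -- bounded: (t+1)^(c+2) (1/2)^t
  have h1 := (tendsto_pow_const_mul_const_pow_of_abs_lt_one (c + 2)
    (r := (1 / 2 : ℝ)) (by rw [abs_of_pos] <;> norm_num)).bddAbove_range
  obtain ⟨B, hB⟩ := h1
  have hB' : ∀ t : ℕ, ((t : ℝ) + 1) ^ (c + 2) * (1 / 2) ^ t ≤ 2 * B := by
    intro t
    have := hB ⟨t + 1, rfl⟩
    push_cast at this
    rw [pow_succ (1 / 2 : ℝ) t] at this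
    linarith
  have h2 : ∀ w : ℕ, Gw c w ≤ ((4 * (c + 2) : ℕ) : ℝ) ^ (c + 2) * (2 * B) *
      (1 / ((w : ℝ) + 1) ^ 2) := by
    intro w
    have hq : 0 < 4 * (c + 2) := by omega
    have h3 : w + 1 ≤ 4 * (c + 2) * (w / (4 * (c + 2)) + 1) := Nat.lt_mul_div_succ _ hq
    have h4 : ((w : ℝ) + 1) ≤ ((4 * (c + 2) : ℕ) : ℝ) * (((w / (4 * (c + 2)) : ℕ) : ℝ) + 1) := by
      exact_mod_cast h3
    have h5 : ((w : ℝ) + 1) ^ (c + 2) * (1 / 2) ^ (w / (4 * (c + 2))) ≤
        ((4 * (c + 2) : ℕ) : ℝ) ^ (c + 2) * (2 * B) := by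
      calc ((w : ℝ) + 1) ^ (c + 2) * (1 / 2) ^ (w / (4 * (c + 2)))
          ≤ (((4 * (c + 2) : ℕ) : ℝ) * (((w / (4 * (c + 2)) : ℕ) : ℝ) + 1)) ^ (c + 2) *
            (1 / 2) ^ (w / (4 * (c + 2))) :=
            mul_le_mul_of_nonneg_right (pow_le_pow_left₀ (by positivity) h4 _) (by positivity)
        _ = ((4 * (c + 2) : ℕ) : ℝ) ^ (c + 2) *
            ((((w / (4 * (c + 2)) : ℕ) : ℝ) + 1) ^ (c + 2) * (1 / 2) ^ (w / (4 * (c + 2)))) := by
            rw [mul_pow]; ring
        _ ≤ _ := mul_le_mul_of_nonneg_left (hB' _) (by positivity)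
    rw [mul_one_div, le_div_iff₀ (by positivity)]
    refine le_trans (le_of_eq ?_) h5
    unfold Gw
    ring
  refine Summable.of_nonneg_of_le (Gw_nonneg c) h2 ?_
  refine Summable.mul_left _ ?_
  have := (summable_nat_add_iff 1).2 (Real.summable_one_div_nat_pow.2 (by norm_num : 1 < 2))
  refine this.congr fun w => ?_
  push_cast
  rfl

open Classical in
/-- The main estimate. -/
theorem wb_main (c C k : ℕ) (L : ℝ) (hL : 0 ≤ L)
    (hC : ∀ w : ℕ, C * (k + 1) ≤ w → ∀ (n : ℕ) (ι : Type) (J : Finset ι) (T : ι → Finset (Fin n)),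
      Meets T J c → ∑ i ∈ J, (1 / 2 : ℝ) ^ (T i).card ≤ 2 ^ k →
      ((univ.filter fun v => (1 / 2 : ℝ) ^ (w / (4 * (c + 2))) ≤ wv T J v).card + 2 ^ k) ^ (c + 1) *
        2 ^ (w / (4 * (c + 2))) ≤ 2 ^ w)
    {ι : Type} (J : Finset ι) (T : ι → Finset (Fin n)) (hM : Meets T J c)
    (hQ : ∀ Q : Finset (Fin n), Q.Nonempty → Q.card ≤ c →
      ∑ i ∈ J.filter (fun i => Q ⊆ T i), (1 / 2 : ℝ) ^ (T i).card ≤ L * (1 / 2) ^ Q.card)
    (hk : ∑ i ∈ J, (1 / 2 : ℝ) ^ (T i).card ≤ 2 ^ k) :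
    ∑ i ∈ J, (1 / 2 : ℝ) ^ (T i).card * Dl J T i ≤
      ((1 + (C * (k + 1) : ℕ) : ℝ) ^ c * L + 2 ^ c * L + 2 ^ c * ∑' w, Gw c w) *
        (∑ i ∈ J, (1 / 2 : ℝ) ^ (T i).card) + L * ∑' w, Gw c w := by
  set S := ∑' w, Gw c w with hS
  have hGS : ∀ w, Gw c w ≤ S := fun w => (Gw_summable c).le_tsum w fun j _ => Gw_nonneg c j
  have hS0 : 0 ≤ S := (Gw_nonneg c 0).trans (hGS 0)
  set H : ℕ → Finset (Fin n) := fun w =>
    univ.filter fun v => (1 / 2 : ℝ) ^ (w / (4 * (c + 2))) ≤ wv T J v with hH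
  set w₁ := C * (k + 1) with hw₁
  set D : ℝ := (1 + (w₁ : ℝ)) ^ c * L + 2 ^ c * L + 2 ^ c * S with hD
  have hD0 : 0 ≤ D := by positivity
  set Bd := J.filter fun i => w₁ ≤ (T i).card ∧ c + 1 ≤ (T i ∩ H (T i).card).card with hBd
  have hterm : ∀ Q : Finset (Fin n), Q.Nonempty → Q.card ≤ c →
      2 ^ Q.card * ∑ j ∈ J.filter (fun j => Q ⊆ T j), (1 / 2 : ℝ) ^ (T j).card ≤ L := by
    intro Q h1 h2
    have h3 := hQ Q h1 h2
    have h4 : (1 / 2 : ℝ) ^ Q.card * 2 ^ Q.card = 1 := by rw [← mul_pow]; norm_num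
    calc 2 ^ Q.card * ∑ j ∈ J.filter (fun j => Q ⊆ T j), (1 / 2 : ℝ) ^ (T j).card
        ≤ 2 ^ Q.card * (L * (1 / 2) ^ Q.card) := mul_le_mul_of_nonneg_left h3 (by positivity)
      _ = L * ((1 / 2 : ℝ) ^ Q.card * 2 ^ Q.card) := by ring
      _ = L := by rw [h4, mul_one]
  -- the number of the small subsets
  have hnum : ∀ i, (((T i).powerset.filter (fun Q => Q.card ≤ c ∧ Q.Nonempty)).card : ℝ) ≤
      (1 + ((T i).card : ℝ)) ^ c := by
    intro i
    have h1 : ((T i).powerset.filter (fun Q => Q.card ≤ c ∧ Q.Nonempty)).card ≤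
        (1 + (T i).card) ^ c := by
      refine (card_le_card ?_).trans (card_small (T i) c)
      intro Q hQ
      rw [mem_filter] at hQ ⊢
      exact ⟨hQ.1, hQ.2.1⟩
    exact_mod_cast h1
  have hgen : ∀ i ∈ J, Dl J T i ≤ (1 + ((T i).card : ℝ)) ^ c * L := by
    intro i hi
    refine (Dl_le J T c hM i hi (fun _ => L) fun Q h1 h2 _ => hterm Q h1 h2).trans ?_
    rw [sum_const, nsmul_eq_mul]
    exact mul_le_mul_of_nonneg_right (hnum i) hL
  have hpt : ∀ i ∈ J, Dl J T i ≤ D + if i ∈ Bd then (1 + ((T i).card : ℝ)) ^ c * L else 0 := by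
    intro i hi
    by_cases hiB : i ∈ Bd
    · rw [if_pos hiB]
      have := hgen i hi
      linarith
    · rw [if_neg hiB, add_zero]
      by_cases hw : (T i).card < w₁
      · refine (hgen i hi).trans ?_
        have h1 : (1 + ((T i).card : ℝ)) ^ c ≤ (1 + (w₁ : ℝ)) ^ c := by
          refine pow_le_pow_left₀ (by positivity) ?_ _
          have : ((T i).card : ℝ) ≤ w₁ := by exact_mod_cast hw.le
          linarith
        have h2 := mul_le_mul_of_nonneg_right h1 hL
        have h3 : 0 ≤ 2 ^ c * L + 2 ^ c * S := by positivity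
        rw [hD]
        linarith
      · push Not at hw
        have hheavy : (T i ∩ H (T i).card).card ≤ c := by
          by_contra h
          push Not at h
          exact hiB (mem_filter.2 ⟨hi, hw, h⟩)
        set w := (T i).card with hwdef
        have h1 := Dl_le J T c hM i hi
          (fun Q => (if Q ⊆ H w then L else 0) + 2 ^ c * (1 / 2) ^ (w / (4 * (c + 2)))) (by
            intro Q h1 h2 h3
            by_cases hQH : Q ⊆ H w
            · rw [if_pos hQH]
              have := hterm Q h1 h2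
              have h4 : (0 : ℝ) ≤ 2 ^ c * (1 / 2) ^ (w / (4 * (c + 2))) := by positivity
              linarith
            · rw [if_neg hQH, zero_add]
              obtain ⟨v, hvQ, hvH⟩ := not_subset.1 hQH
              have h4 : wv T J v < (1 / 2 : ℝ) ^ (w / (4 * (c + 2))) := by
                by_contra h5
                push Not at h5
                exact hvH (mem_filter.2 ⟨mem_univ _, h5⟩)
              have h5 : ∑ j ∈ J.filter (fun j => Q ⊆ T j), (1 / 2 : ℝ) ^ (T j).card ≤ wv T J v := by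
                unfold wv
                refine sum_le_sum_of_subset_of_nonneg ?_ fun _ _ _ => by positivity
                intro j hj
                rw [mem_filter] at hj ⊢
                exact ⟨hj.1, hj.2 hvQ⟩
              have h6 : (0 : ℝ) ≤ ∑ j ∈ J.filter (fun j => Q ⊆ T j), (1 / 2 : ℝ) ^ (T j).card :=
                sum_nonneg fun _ _ => by positivity
              exact mul_le_mul (pow_le_pow_right₀ (by norm_num) h2) (h5.trans h4.le) h6
                (by positivity))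
        refine h1.trans ?_
        rw [sum_add_distrib, sum_const, nsmul_eq_mul, ← sum_filter, sum_const, nsmul_eq_mul]
        have h2 : ((((T i).powerset.filter (fun Q => Q.card ≤ c ∧ Q.Nonempty)).filter
            (fun Q => Q ⊆ H w)).card : ℝ) ≤ 2 ^ c := by
          have h3 : (((T i).powerset.filter (fun Q => Q.card ≤ c ∧ Q.Nonempty)).filter
              (fun Q => Q ⊆ H w)) ⊆ (T i ∩ H w).powerset := by
            intro Q hQ
            rw [mem_filter, mem_filter, mem_powerset] at hQ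
            rw [mem_powerset]
            exact subset_inter hQ.1.1 hQ.2
          have h4 := card_le_card h3
          rw [card_powerset] at h4
          have h5 : 2 ^ (T i ∩ H w).card ≤ 2 ^ c := Nat.pow_le_pow_right (by norm_num) hheavy
          exact_mod_cast h4.trans h5
        have h3 := mul_le_mul_of_nonneg_right h2 hL
        have h4 : (((T i).powerset.filter (fun Q => Q.card ≤ c ∧ Q.Nonempty)).card : ℝ) *
            (2 ^ c * (1 / 2) ^ (w / (4 * (c + 2)))) ≤ 2 ^ c * S := by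
          calc _ ≤ (1 + (w : ℝ)) ^ c * (2 ^ c * (1 / 2) ^ (w / (4 * (c + 2)))) :=
                mul_le_mul_of_nonneg_right (hnum i) (by positivity)
            _ = 2 ^ c * Gw c w := by unfold Gw; ring
            _ ≤ 2 ^ c * S := mul_le_mul_of_nonneg_left (hGS w) (by positivity)
        have h5 : 0 ≤ (1 + (w₁ : ℝ)) ^ c * L := by positivity
        rw [hD]
        linarith
  -- summation
  have hsum1 : ∑ i ∈ J, (1 / 2 : ℝ) ^ (T i).card * Dl J T i ≤
      D * (∑ i ∈ J, (1 / 2 : ℝ) ^ (T i).card) +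
        ∑ i ∈ Bd, (1 / 2 : ℝ) ^ (T i).card * ((1 + ((T i).card : ℝ)) ^ c * L) := by
    have e1 : ∑ i ∈ Bd, (1 / 2 : ℝ) ^ (T i).card * ((1 + ((T i).card : ℝ)) ^ c * L) =
        ∑ i ∈ J, (1 / 2 : ℝ) ^ (T i).card *
          (if i ∈ Bd then (1 + ((T i).card : ℝ)) ^ c * L else 0) := by
      have e2 : Bd = J.filter (fun i => i ∈ Bd) := by
        ext i
        simp only [mem_filter]
        exact ⟨fun h => ⟨(mem_filter.1 h).1, h⟩, fun h => h.2⟩
      conv_lhs => rw [e2]
      rw [sum_filter]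
      refine sum_congr rfl fun i _ => ?_
      by_cases h : i ∈ Bd <;> simp [h]
    rw [e1, mul_sum, ← sum_add_distrib]
    refine sum_le_sum fun i hi => ?_
    have h1 := mul_le_mul_of_nonneg_left (hpt i hi) (by positivity : (0 : ℝ) ≤ (1 / 2) ^ (T i).card)
    linarith
  have hsum2 : ∑ i ∈ Bd, (1 / 2 : ℝ) ^ (T i).card * ((1 + ((T i).card : ℝ)) ^ c * L) ≤ L * S := by
    have e1 : ∑ i ∈ Bd, (1 / 2 : ℝ) ^ (T i).card * ((1 + ((T i).card : ℝ)) ^ c * L) =
        ∑ w ∈ range (n + 1), ∑ i ∈ Bd.filter (fun i => (T i).card = w),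
          (1 / 2 : ℝ) ^ (T i).card * ((1 + ((T i).card : ℝ)) ^ c * L) := by
      rw [sum_fiberwise_of_maps_to]
      intro i _
      rw [mem_range]
      have := card_le_univ (T i)
      rw [Fintype.card_fin] at this
      omega
    rw [e1]
    calc _ ≤ ∑ w ∈ range (n + 1), L * Gw c w := by
          refine sum_le_sum fun w _ => ?_
          have e2 : ∑ i ∈ Bd.filter (fun i => (T i).card = w),
              (1 / 2 : ℝ) ^ (T i).card * ((1 + ((T i).card : ℝ)) ^ c * L) =
              ((Bd.filter (fun i => (T i).card = w)).card : ℝ) *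
                ((1 / 2 : ℝ) ^ w * ((1 + (w : ℝ)) ^ c * L)) := by
            rw [← nsmul_eq_mul, ← sum_const]
            refine sum_congr rfl fun i hi => ?_
            rw [(mem_filter.1 hi).2]
          rw [e2]
          by_cases hw : w₁ ≤ w
          · have h1 : (Bd.filter (fun i => (T i).card = w)).card ≤ (H w).card ^ (c + 1) := by
              refine inj n ι _ T (H w) c (fun i hi j hj => hM i ?_ j ?_) fun i hi => ?_
              · exact (mem_filter.1 (mem_filter.1 hi).1).1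
              · exact (mem_filter.1 (mem_filter.1 hj).1).1
              · have h2 := (mem_filter.1 (mem_filter.1 hi).1).2.2
                rw [(mem_filter.1 hi).2] at h2
                exact h2
            have h2 := hC w hw n ι J T hM hk
            have h3 : (Bd.filter (fun i => (T i).card = w)).card * 2 ^ (w / (4 * (c + 2))) ≤
                2 ^ w := by
              refine le_trans (Nat.mul_le_mul_right _ (h1.trans ?_)) h2
              exact Nat.pow_le_pow_left (Nat.le_add_right _ _) _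
            have h4 : ((Bd.filter (fun i => (T i).card = w)).card : ℝ) *
                2 ^ (w / (4 * (c + 2))) ≤ 2 ^ w := by exact_mod_cast h3
            have e3 : (1 / 2 : ℝ) ^ w * 2 ^ w = 1 := by rw [← mul_pow]; norm_num
            have e4 : (2 : ℝ) ^ (w / (4 * (c + 2))) * (1 / 2) ^ (w / (4 * (c + 2))) = 1 := by
              rw [← mul_pow]; norm_num
            have h5 : ((Bd.filter (fun i => (T i).card = w)).card : ℝ) * (1 / 2) ^ w ≤
                (1 / 2) ^ (w / (4 * (c + 2))) := by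
              calc ((Bd.filter (fun i => (T i).card = w)).card : ℝ) * (1 / 2) ^ w
                  = ((Bd.filter (fun i => (T i).card = w)).card : ℝ) *
                    (2 ^ (w / (4 * (c + 2))) * (1 / 2) ^ (w / (4 * (c + 2)))) * (1 / 2) ^ w := by
                    rw [e4, mul_one]
                _ = (((Bd.filter (fun i => (T i).card = w)).card : ℝ) *
                    2 ^ (w / (4 * (c + 2)))) * ((1 / 2) ^ (w / (4 * (c + 2))) * (1 / 2) ^ w) := by
                    ring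
                _ ≤ 2 ^ w * ((1 / 2) ^ (w / (4 * (c + 2))) * (1 / 2) ^ w) :=
                    mul_le_mul_of_nonneg_right h4 (by positivity)
                _ = (1 / 2) ^ (w / (4 * (c + 2))) * ((1 / 2) ^ w * 2 ^ w) := by ring
                _ = _ := by rw [e3, mul_one]
            calc _ = (((Bd.filter (fun i => (T i).card = w)).card : ℝ) * (1 / 2) ^ w) *
                  ((1 + (w : ℝ)) ^ c * L) := by ring
              _ ≤ (1 / 2) ^ (w / (4 * (c + 2))) * ((1 + (w : ℝ)) ^ c * L) :=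
                  mul_le_mul_of_nonneg_right h5 (by positivity)
              _ = L * Gw c w := by unfold Gw; ring
          · have h1 : Bd.filter (fun i => (T i).card = w) = ∅ := by
              rw [filter_eq_empty_iff]
              intro i hi h2
              rw [← h2] at hw
              exact hw (mem_filter.1 hi).2.1
            rw [h1, card_empty, Nat.cast_zero, zero_mul]
            exact mul_nonneg hL (Gw_nonneg c w)
      _ = L * ∑ w ∈ range (n + 1), Gw c w := by rw [mul_sum]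
      _ ≤ L * S := mul_le_mul_of_nonneg_left
          ((Gw_summable c).sum_le_tsum _ fun j _ => Gw_nonneg c j) hL
  linarith

theorem wb : S_WB := by
  classical
  intro c L₀ τ hτ
  obtain ⟨C, hC⟩ := hc c
  set L := max L₀ 0 with hLdef
  have hL : 0 ≤ L := le_max_right _ _
  set S := ∑' w, Gw c w with hS
  have hS0 : 0 ≤ S := tsum_nonneg (Gw_nonneg c)
  -- choose k
  have hlim : Filter.Tendsto (fun k : ℕ => 4 * (1 + 2 ^ c * L + 2 ^ c * S + L * S) *
      (((k + 1 : ℕ) : ℝ) ^ 0 * (1 / 2 : ℝ) ^ (k + 1)) + 4 * ((1 + C : ℝ) ^ c * L) *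
      (((k + 1 : ℕ) : ℝ) ^ c * (1 / 2 : ℝ) ^ (k + 1))) Filter.atTop
      (nhds (4 * (1 + 2 ^ c * L + 2 ^ c * S + L * S) * 0 + 4 * ((1 + C : ℝ) ^ c * L) * 0)) := by
    refine Filter.Tendsto.add (Filter.Tendsto.const_mul _ ?_) (Filter.Tendsto.const_mul _ ?_)
    · exact (tendsto_pow_const_mul_const_pow_of_abs_lt_one 0
        (r := (1 / 2 : ℝ)) (by rw [abs_of_pos] <;> norm_num)).comp (Filter.tendsto_add_atTop_nat 1)
    · exact (tendsto_pow_const_mul_const_pow_of_abs_lt_one c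
        (r := (1 / 2 : ℝ)) (by rw [abs_of_pos] <;> norm_num)).comp (Filter.tendsto_add_atTop_nat 1)
  rw [mul_zero, mul_zero, add_zero] at hlim
  obtain ⟨k, hk1, hk2⟩ := ((hlim.eventually (gt_mem_nhds hτ)).and
    (Filter.eventually_ge_atTop 1)).exists
  refine ⟨2 ^ k - 1, ?_⟩
  intro n ι J₀ T a hM₀ hQ₀ hP₀
  by_contra hbig
  push Not at hbig
  have h2k : (2 : ℝ) ≤ 2 ^ k := by
    calc (2 : ℝ) = 2 ^ 1 := by norm_num
      _ ≤ 2 ^ k := pow_le_pow_right₀ (by norm_num) hk2
  obtain ⟨J, hJ, hlo, hhi⟩ := subfamily (fun i => (1 / 2 : ℝ) ^ (T i).card)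
    (fun i => pow_le_one₀ (by norm_num) (by norm_num)) (2 ^ k - 1) J₀ hbig (by linarith)
  have hM : Meets T J c := fun i hi j hj => hM₀ i (hJ hi) j (hJ hj)
  have hQ : ∀ Q : Finset (Fin n), Q.Nonempty → Q.card ≤ c →
      ∑ i ∈ J.filter (fun i => Q ⊆ T i), (1 / 2 : ℝ) ^ (T i).card ≤ L * (1 / 2) ^ Q.card := by
    intro Q h1 h2
    have h3 := hQ₀ Q h1 h2
    have h4 : ∑ i ∈ J.filter (fun i => Q ⊆ T i), (1 / 2 : ℝ) ^ (T i).card ≤
        ∑ i ∈ J₀.filter (fun i => Q ⊆ T i), (1 / 2 : ℝ) ^ (T i).card :=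
      sum_le_sum_of_subset_of_nonneg (filter_subset_filter _ hJ) fun _ _ _ => by positivity
    have h5 : L₀ * (1 / 2) ^ Q.card ≤ L * (1 / 2) ^ Q.card :=
      mul_le_mul_of_nonneg_right (le_max_left _ _) (by positivity)
    have h6 : ∑ i ∈ J₀.filter (fun i => Q ⊆ T i), (1 / 2 : ℝ) ^ (T i).card ≤
        L₀ * (1 / 2) ^ Q.card := by convert h3
    linarith
  have hP : τ ≤ PP (none T a J) := hP₀.trans (PP_mono fun x hx i hi => hx i (hJ hi))
  set Λ := ∑ i ∈ J, (1 / 2 : ℝ) ^ (T i).card with hΛ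
  have hhi' : Λ ≤ 2 ^ k := by linarith
  have h1 := cheb J T a
  have h2 := wb_main c C k L hL (fun w hw => hC k w hw) J T hM hQ hhi'
  rw [← hΛ] at h1 h2
  rw [← hS] at h2
  have hΛ1 : 1 ≤ Λ := by linarith
  have hΛ2 : 2 ^ k ≤ 2 * Λ := by linarith
  have h3 : (1 + (C * (k + 1) : ℕ) : ℝ) ^ c ≤ (1 + C : ℝ) ^ c * ((k + 1 : ℕ) : ℝ) ^ c := by
    rw [← mul_pow]
    refine pow_le_pow_left₀ (by positivity) ?_ _
    push_cast
    have : (0 : ℝ) ≤ k := by positivity
    nlinarith
  have h4 : τ * Λ ^ 2 ≤ (1 + (1 + C : ℝ) ^ c * ((k + 1 : ℕ) : ℝ) ^ c * L + 2 ^ c * L + 2 ^ c * S +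
      L * S) * Λ := by
    have h5 : τ * Λ ^ 2 ≤ PP (none T a J) * Λ ^ 2 := mul_le_mul_of_nonneg_right hP (by positivity)
    have h6 := mul_le_mul_of_nonneg_right (mul_le_mul_of_nonneg_right h3 hL)
      (by linarith : (0 : ℝ) ≤ Λ)
    have h7 : L * S ≤ L * S * Λ := le_mul_of_one_le_right (by positivity) hΛ1
    nlinarith
  have h5 : τ * Λ ≤ 1 + (1 + C : ℝ) ^ c * ((k + 1 : ℕ) : ℝ) ^ c * L + 2 ^ c * L + 2 ^ c * S +
      L * S := by
    have : τ * Λ * Λ ≤ (1 + (1 + C : ℝ) ^ c * ((k + 1 : ℕ) : ℝ) ^ c * L + 2 ^ c * L + 2 ^ c * S +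
      L * S) * Λ := by rw [mul_assoc, ← sq]; exact h4
    exact le_of_mul_le_mul_right this (by linarith)
  have h6 : τ * 2 ^ k ≤ 2 * (1 + (1 + C : ℝ) ^ c * ((k + 1 : ℕ) : ℝ) ^ c * L + 2 ^ c * L +
      2 ^ c * S + L * S) := by nlinarith
  have e1 : (1 / 2 : ℝ) ^ (k + 1) * 2 ^ k = 1 / 2 := by
    rw [pow_succ]
    have : (1 / 2 : ℝ) ^ k * 2 ^ k = 1 := by rw [← mul_pow]; norm_num
    linear_combination (1 / 2) * this
  have h7 := mul_lt_mul_of_pos_right hk1 (by positivity : (0 : ℝ) < 2 ^ k)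
  have e2 : (4 * (1 + 2 ^ c * L + 2 ^ c * S + L * S) *
      (((k + 1 : ℕ) : ℝ) ^ 0 * (1 / 2 : ℝ) ^ (k + 1)) + 4 * ((1 + C : ℝ) ^ c * L) *
      (((k + 1 : ℕ) : ℝ) ^ c * (1 / 2 : ℝ) ^ (k + 1))) * 2 ^ k =
      2 * (1 + (1 + C : ℝ) ^ c * ((k + 1 : ℕ) : ℝ) ^ c * L + 2 ^ c * L +
      2 ^ c * S + L * S) := by
    rw [pow_zero]
    linear_combination (4 * (1 + 2 ^ c * L + 2 ^ c * S + L * S) +
      4 * ((1 + C : ℝ) ^ c * L) * ((k + 1 : ℕ) : ℝ) ^ c) * e1
  rw [e2] at h7
  linarith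

end Pool.Agent.H70.LD
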